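import Mathlib
import Pool.Graph.R_seed8.TH766.KT.Defs

set_option autoImplicit false

/-!
# Countable partial functions as conditions
-/

namespace Pool.Agent.H644.TP

open Set Cardinal

/-- Partial functions from `I` to `V` with a countable domain. -/
structure PF (I V : Type) where
  f : I → Option V
  ctb : {i | f i ≠ none}.Countable

namespace PF

variable {I J V : Type}

theorem ext' {p q : PF I V} (h : ∀ i, p.f i = q.f i) : p = q := by
  cases p; cases q
  simp only [mk.injEq]
  exact funext h

/-- A stronger condition is an extension. -/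
instance : PartialOrder (PF I V) where
  le p q := ∀ i b, q.f i = some b → p.f i = some b
  le_refl p i b h := h
  le_trans p q r h1 h2 i b h := h1 i b (h2 i b h)
  le_antisymm p q h1 h2 := by
    apply ext'
    intro i
    cases hq : q.f i with
    | some b => exact h1 i b hq
    | none =>
      cases hp : p.f i with
      | none => rfl
      | some b =>
        have := h2 i b hp
        rw [hq] at this
        exact absurd this (by simp)

theorem le_iff {p q : PF I V} : p ≤ q ↔ ∀ i b, q.f i = some b → p.f i = some b := Iff.rfl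

instance : OrderTop (PF I V) where
  top := ⟨fun _ => none, by simp⟩
  le_top p i b h := by exact absurd h (by simp)

@[simp] theorem top_f (i : I) : (⊤ : PF I V).f i = none := rfl

/-- Composition with an injective map. -/
def pull (g : J ↪ I) (p : PF I V) : PF J V :=
  ⟨fun j => p.f (g j), p.ctb.preimage g.injective⟩

@[simp] theorem pull_f (g : J ↪ I) (p : PF I V) (j : J) : (pull g p).f j = p.f (g j) := rfl

theorem pull_mono (g : J ↪ I) {p q : PF I V} (h : p ≤ q) : pull g p ≤ pull g q :=
  fun j b hb => h (g j) b hb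

open Classical in
/-- Transport along an injective map. -/
noncomputable def push (g : J ↪ I) (q : PF J V) : PF I V :=
  ⟨fun i => if h : ∃ j, g j = i then q.f h.choose else none, by
    refine (q.ctb.image g).mono ?_
    intro i hi
    have hi' : (if h : ∃ j, g j = i then q.f h.choose else none) ≠ none := hi
    by_cases h : ∃ j, g j = i
    · rw [dif_pos h] at hi'
      exact ⟨h.choose, hi', h.choose_spec⟩
    · rw [dif_neg h] at hi'
      exact absurd rfl hi'⟩

open Classical in
@[simp] theorem push_f (g : J ↪ I) (q : PF J V) (j : J) : (push g q).f (g j) = q.f j := by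
  have h : ∃ j', g j' = g j := ⟨j, rfl⟩
  show (if h : ∃ j', g j' = g j then q.f h.choose else none) = q.f j
  rw [dif_pos h, g.injective h.choose_spec]

open Classical in
theorem push_none (g : J ↪ I) (q : PF J V) (i : I) (h : ∀ j, g j ≠ i) :
    (push g q).f i = none := by
  have h' : ¬ ∃ j, g j = i := by
    rintro ⟨j, hj⟩
    exact h j hj
  show (if h : ∃ j', g j' = i then q.f h.choose else none) = none
  rw [dif_neg h']

@[simp] theorem pull_push (g : J ↪ I) (q : PF J V) : pull g (push g q) = q :=
  ext' fun j => by simp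

theorem push_mono (g : J ↪ I) {p q : PF J V} (h : p ≤ q) : push g p ≤ push g q := by
  intro i b hb
  by_cases hi : ∃ j, g j = i
  · obtain ⟨j, rfl⟩ := hi
    rw [push_f] at hb ⊢
    exact h j b hb
  · rw [push_none g q i (fun j hj => hi ⟨j, hj⟩)] at hb
    exact absurd hb (by simp)

/-- The greatest lower bound of a countable family of pairwise compatible conditions. -/
theorem exists_glb {ι : Type} [Countable ι] (p : ι → PF I V)
    (hc : ∀ i j, ∃ r, r ≤ p i ∧ r ≤ p j) : ∃ q, IsGLB (range p) q := by
  classical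
  refine ⟨⟨fun z => if h : ∃ i b, (p i).f z = some b then some h.choose_spec.choose else none, ?_⟩,
    ?_, ?_⟩
  · refine (countable_iUnion fun i => (p i).ctb).mono ?_
    intro z hz
    by_cases h : ∃ i b, (p i).f z = some b
    · obtain ⟨i, b, hb⟩ := h
      refine mem_iUnion.2 ⟨i, ?_⟩
      simp [hb]
    · simp [h] at hz
  · rintro _ ⟨i, rfl⟩ z b hb
    have h : ∃ i b, (p i).f z = some b := ⟨i, b, hb⟩
    show (if h : ∃ i b, (p i).f z = some b then some h.choose_spec.choose else none) = some b
    rw [dif_pos h]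
    have h1 := h.choose_spec.choose_spec
    obtain ⟨r, hr1, hr2⟩ := hc i h.choose
    have h2 := hr1 z b hb
    have h3 := hr2 z _ h1
    rw [h2] at h3
    exact h3.symm
  · intro r hr z b hb
    have hb' : (if h : ∃ i b, (p i).f z = some b then some h.choose_spec.choose else none)
      = some b := hb
    by_cases h : ∃ i b, (p i).f z = some b
    · rw [dif_pos h] at hb'
      have h1 := h.choose_spec.choose_spec
      rw [← hb']
      exact hr ⟨h.choose, rfl⟩ z _ h1
    · rw [dif_neg h] at hb'
      exact absurd hb' (by simp)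

end PF

/-- The conditions: countable partial functions to the two-element set. -/
abbrev Cd (I : Type) : Type := PF I Bool

/-- Descending sequences have lower bounds. -/
def SigmaClosed (E : Type) [Preorder E] : Prop :=
  ∀ p : ℕ → E, (∀ n, p (n + 1) ≤ p n) → ∃ q, ∀ n, q ≤ p n

theorem sigmaClosed_PF (I V : Type) : SigmaClosed (PF I V) := by
  intro p hp
  have hmono : Antitone p := antitone_nat_of_succ_le hp
  obtain ⟨q, hq⟩ := PF.exists_glb p (fun i j => ⟨p (max i j), hmono (le_max_left _ _),
    hmono (le_max_right _ _)⟩)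
  exact ⟨q, fun n => hq.1 ⟨n, rfl⟩⟩

theorem SigmaClosed.prod {E F : Type} [Preorder E] [Preorder F] (hE : SigmaClosed E)
    (hF : SigmaClosed F) : SigmaClosed (E × F) := by
  intro p hp
  obtain ⟨q, hq⟩ := hE (fun n => (p n).1) (fun n => (hp n).1)
  obtain ⟨r, hr⟩ := hF (fun n => (p n).2) (fun n => (hp n).2)
  exact ⟨(q, r), fun n => ⟨hq n, hr n⟩⟩

theorem SigmaClosed.pi {ι : Type} {E : Type} [Preorder E] (hE : SigmaClosed E) :
    SigmaClosed (ι → E) := by
  intro p hp
  have h : ∀ i, ∃ q, ∀ n, q ≤ p n i := fun i => hE (fun n => p n i) (fun n => hp n i)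
  choose q hq using h
  exact ⟨q, fun n i => hq i n⟩

/-- Meeting countably many open dense sets. -/
theorem SigmaClosed.meet {C : Type} [Preorder C] (hC : SigmaClosed C) {Z : Type} [Countable Z]
    (D : Z → Set C) (hD : ∀ z, IsLowerSet (D z)) (c0 : C)
    (hd : ∀ z, ∀ c ≤ c0, ∃ c' ≤ c, c' ∈ D z) : ∃ c ≤ c0, ∀ z, c ∈ D z := by
  classical
  rcases isEmpty_or_nonempty Z with hE | hne
  · exact ⟨c0, le_rfl, fun i => (hE.false i).elim⟩
  obtain ⟨e, he⟩ := exists_surjective_nat Z
  have step : ∀ (n : ℕ) (r : {r : C // r ≤ c0}),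
      ∃ s : {s : C // s ≤ c0}, s.1 ≤ r.1 ∧ s.1 ∈ D (e n) := by
    intro n r
    obtain ⟨s, hs, h⟩ := hd (e n) r.1 r.2
    exact ⟨⟨s, hs.trans r.2⟩, hs, h⟩
  choose g hg1 hg2 using step
  let p : ℕ → {r : C // r ≤ c0} := fun n => Nat.rec ⟨c0, le_rfl⟩ (fun n r => g n r) n
  have hp : ∀ n, p (n + 1) = g n (p n) := fun n => rfl
  obtain ⟨r, hr⟩ := hC (fun n => (p n).1) (fun n => by
    show (p (n + 1)).1 ≤ (p n).1
    rw [hp]
    exact hg1 n (p n))
  refine ⟨r, hr 0, fun i => ?_⟩
  obtain ⟨n, rfl⟩ := he i
  have h1 : (p (n + 1)).1 ∈ D (e n) := by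
    rw [hp]
    exact hg2 n (p n)
  exact hD _ (hr (n + 1)) h1

end Pool.Agent.H644.TP
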