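import Mathlib
import Pool.Agent.H644.TP.Base

set_option autoImplicit false

/-!
# Statements of the lemmas

The aim: in the extension by countable partial functions `K × ω₁ → 2` the strong partition
property for triples of `K` fails.
-/

namespace Pool.Agent.H644.TP

open Set Cardinal Pool.Agent.TH766.KT Pool.Agent.Helper669.Forcing Pool.Agent.Helper980.G
  Pool.Agent.Helper669.K

/-- Data of the pieces of a condition at a triple `x < y < z`: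
root, own `x`, own `y`, own `z`, pair `xy`, pair `xz`, pair `yz`. -/
abbrev T7 (E : Type) : Type := E × E × E × E × E × E × E

/-- The same, and the piece at the triple itself. -/
abbrev T8 (E : Type) : Type := T7 E × E

/-- Gadgets: root, extended type of `y`, extended type of `z`, pair `yz`. An extended type is a
sequence: entry `0` is the own piece, the entry `i + 1` is the piece at the pair formed with a
tooth of level `i`. -/
abbrev G4 (E : Type) : Type := E × (ℕ → E) × (ℕ → E) × E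

/-- Densely many gadgets in `G` force the colour `0` in the weak sense (`N`) with the tooth `q`. -/
def Den {E : Type} [Preorder E] (N : Set (T7 E)) (G : Set (G4 E)) (ρ q : E) (v : ℕ → E) (w : E) :
    Prop :=
  ∀ ρ' ≤ ρ, ∀ v' ≤ v, ∀ w' ≤ w, ∃ ρ2 ≤ ρ', ∃ a ≤ v', ∃ a' ≤ v', ∃ b, ∃ d ≤ w', ∃ d' ≤ w',
    (ρ2, a, a', b) ∈ G ∧ (ρ2, q, a 0, a' 0, d, d', b) ∈ N

/-- The first case: below `(ρ0, u0)` there are densely many gadgets none of whose refinements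
satisfies `Den`. -/
def Alpha {E : Type} [Preorder E] (N : Set (T7 E)) (G : Set (G4 E)) (ρ0 : E) (u0 : ℕ → E) : Prop :=
  ∀ ρ ≤ ρ0, ∀ u ≤ u0, ∃ ρ' ≤ ρ, ∃ a ≤ u, ∃ a' ≤ u, ∃ b, (ρ', a, a', b) ∈ G ∧
    ∀ ρ2 ≤ ρ', ∀ x2 ≤ a 0, ∀ v2 ≤ a', ∀ w2 ≤ b, ¬ Den N G ρ2 x2 v2 w2

/-- **T9.** One step in the first case: the new element `y` (type `a`), the next formal element `z`
(type `a'`), for each of countably many old elements the colour `1` is forced. -/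
def S_alphaStep : Prop :=
  ∀ (E : Type) [PartialOrder E], SigmaClosed E →
  ∀ (N : Set (T7 E)) (G : Set (G4 E)), IsLowerSet N → IsLowerSet G →
  ∀ (ρ0 : E) (u0 : ℕ → E), Alpha N G ρ0 u0 →
  ∀ (F : Set (T8 E)), IsLowerSet F → (∀ t : T7 E, t ∉ N → ∃ t' ≤ t, ∃ e, (t', e) ∈ F) →
  ∀ (Z : Type) [Countable Z] (ρ : E) (q : Z → E) (u : ℕ → E) (w : Z → E), ρ ≤ ρ0 → u ≤ u0 →
    (∀ z, ∀ ρ2 ≤ ρ, ∀ x2 ≤ q z, ∀ v2 ≤ u, ∀ w2 ≤ w z, ¬ Den N G ρ2 x2 v2 w2) →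
    ∃ ρ' ≤ ρ, ∃ a ≤ u, ∃ a' ≤ u, ∃ b : E,
      (∀ z, ∃ q' ≤ q z, ∃ d ≤ w z, ∃ d' ≤ w z, ∃ e, ((ρ', q', a 0, a' 0, d, d', b), e) ∈ F) ∧
      ∀ ρ2 ≤ ρ', ∀ x2 ≤ a 0, ∀ v2 ≤ a', ∀ w2 ≤ b, ¬ Den N G ρ2 x2 v2 w2

/-- The output of the second case. -/
def Beta {E : Type} [Preorder E] (N : Set (T7 E)) (ρ : E) (U : (ℕ → Bool) → ℕ → E) : Prop :=
  ∀ (n m : ℕ) (i : Bool) (f g h : ℕ → Bool), n < m → (∀ k < n, f k = g k) →
    (∀ k < m, g k = h k) → f n = i → g n = !i → g m = i → h m = !i →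
    (ρ, U f 0, U g 0, U h 0, U g (n + 1), U h (n + 1), U h (m + 1)) ∈ N

/-- **T11.** The second case: a perfect tree of types. -/
def S_betaTree : Prop :=
  ∀ (E : Type) [PartialOrder E] [OrderTop E], SigmaClosed E →
  ∀ (N : Set (T7 E)), IsLowerSet N → ∀ ρ0 : E,
    (∀ G : Set (G4 E), IsLowerSet G → ∀ ρ ≤ ρ0, ∀ u : ℕ → E, ¬ Alpha N G ρ u) →
    ∃ ρ ≤ ρ0, ∃ U : (ℕ → Bool) → ℕ → E, Beta N ρ U

/-- **T13.** A one-sided comb in every infinite set of reals. -/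
def S_comb : Prop :=
  ∀ r : ℕ → ℕ → Bool, Function.Injective r → ∃ i j k : ℕ, i < j ∧ j < k ∧ ∃ n m : ℕ, ∃ b : Bool,
    n < m ∧ (∀ l < n, r i l = r j l) ∧ (∀ l < m, r j l = r k l) ∧
    r i n = b ∧ r j n = !b ∧ r j m = b ∧ r k m = !b

/-- **T7.** The generic path through a tree of states. -/
def S_path : Prop :=
  ∀ (P S : Type) [PartialOrder P] [PartialOrder S] (cond : S → P) (Inv : W1 → S → Prop) (s0 : S),
  SigmaClosed P → Monotone cond →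
  (∀ (η : W1) (s : W1 → S), (∀ ξ < η, Inv ξ (s ξ) ∧ s ξ ≤ s0) →
    (∀ ξ ξ', ξ ≤ ξ' → ξ' < η → s ξ' ≤ s ξ) →
    ∃ t ≤ s0, (∀ ξ < η, t ≤ s ξ) ∧
      (∀ r ≤ cond s0, (∀ ξ < η, r ≤ cond (s ξ)) → r ≤ cond t) ∧
      ∀ q ≤ cond t, ∃ t' ≤ t, Inv η t' ∧ cond t' ≤ q) →
  ∃ T : W1 → Set S,
    (∀ ξ, ∀ s ∈ T ξ, Inv ξ s ∧ s ≤ s0) ∧
    (∀ ξ η, ξ ≤ η → ∀ s ∈ T ξ, ∀ s' ∈ T η, (∃ r, r ≤ cond s ∧ r ≤ cond s') → s' ≤ s) ∧
    (∀ ξ, ∀ p ≤ cond s0, ∃ q ≤ p, ∃ s ∈ T ξ, q ≤ cond s)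

/-- **T8.** The name of the set of the elements along the generic path. -/
def S_names : Prop :=
  ∀ (P S K : Type) [PartialOrder P] [PartialOrder S] (cond : S → P) (el : S → W1 → Option K)
    (s0 : S) (T : W1 → Set S),
  SigmaClosed P → Monotone cond →
  (∀ s s', s' ≤ s → ∀ ξ k, el s ξ = some k → el s' ξ = some k) →
  (∀ ξ, ∀ s ∈ T ξ, s ≤ s0 ∧ ∃ k, el s ξ = some k) →
  (∀ ξ η, ∀ s ∈ T ξ, ∀ s' ∈ T η, ∀ k, el s ξ = some k → el s' η = some k → ξ = η) →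
  (∀ ξ η, ξ ≤ η → ∀ s ∈ T ξ, ∀ s' ∈ T η, (∃ r, r ≤ cond s ∧ r ≤ cond s') → s' ≤ s) →
  (∀ ξ, ∀ p ≤ cond s0, ∃ q ≤ p, ∃ s ∈ T ξ, q ≤ cond s) →
  ∃ A : K → Set P, cond s0 ∈ AtLeast W1 A ∧
    ∀ q ≤ cond s0, ∀ f : ℕ → K, (∀ n, q ∈ meets (A (f n))) →
      ∃ r ≤ q, ∀ n, ∃ ξ, ∃ s ∈ T ξ, r ≤ cond s ∧ el s ξ = some (f n)

/-- A decided pair of regular open sets of conditions, `D true` and `D false`. -/
structure Split {I : Type} (D : Bool → Set (Cd I)) : Prop where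
  lower : ∀ i, IsLowerSet (D i)
  disj : ∀ p, p ∈ D false → p ∉ D true
  dense : ∀ p, ∃ q ≤ p, ∃ i, q ∈ D i
  reg : ∀ i p, (∀ q ≤ p, ∃ r ≤ q, r ∈ D i) → p ∈ D i

/-- The coordinates of the block `F`. -/
def sec {X Λ I : Type} (Θ : Finset X × Λ ↪ I) (F : Finset X) : Λ ↪ I :=
  ⟨fun l => Θ (F, l), fun l l' h => by simpa using Θ.injective h⟩

/-- The piece of a condition at the block `F`. -/
def pc {X Λ I : Type} (Θ : Finset X × Λ ↪ I) (F : Finset X) (p : Cd I) : Cd Λ :=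
  PF.pull (sec Θ F) p

/-- The pieces of a condition at a triple. -/
def pcs {X Λ I : Type} [LinearOrder X] (Θ : Finset X × Λ ↪ I) (x y z : X) (p : Cd I) :
    T8 (Cd Λ) :=
  ((pc Θ ∅ p, pc Θ {x} p, pc Θ {y} p, pc Θ {z} p, pc Θ {x, y} p, pc Θ {x, z} p, pc Θ {y, z} p),
    pc Θ {x, y, z} p)

/-- A set `X` of points of `K` for which the colours of triples are decided in a uniform way from
the pieces of a condition at the subsets of the triple. -/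
structure Frame (I K X : Type) [LinearOrder X] (D : Bool → Finset K → Set (Cd I)) where
  Λ : Type
  h : X ↪ K
  Θ : Finset X × Λ ↪ I
  col : Bool → Set (T8 (Cd Λ))
  lower : ∀ i, IsLowerSet (col i)
  zero : ∀ t : T7 (Cd Λ), (∀ t' ≤ t, ∀ e, (t', e) ∉ col true) → ∀ e, (t, e) ∈ col false
  spec : ∀ x y z : X, x < y → y < z → ∀ s : Finset K, (s : Set K) = {h x, h y, h z} →
    ∀ (i : Bool) (p : Cd I), p ∈ D i s ↔ pcs Θ x y z p ∈ col i

/-- `N`: no extension forces the colour `1`. -/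
def NN {E : Type} [Preorder E] (col : Bool → Set (T8 E)) : Set (T7 E) :=
  {t | ∀ t' ≤ t, ∀ e, (t', e) ∉ col true}

/-- **T10.** The first case: a set of size `ℵ₁` without an infinite subset homogeneous for `0`. -/
def S_alphaFinal : Prop :=
  ∀ (I K X : Type) [LinearOrder X] (blk : X → W1), (∀ x y, blk x < blk y → x < y) →
  (∀ ξ, ¬ {x | blk x = ξ}.Countable) →
  ∀ (D : Bool → Finset K → Set (Cd I)) (Fr : Frame I K X D)
    (G : Set (G4 (Cd Fr.Λ))), IsLowerSet G →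
  ∀ (ρ0 : Cd Fr.Λ) (u0 : ℕ → Cd Fr.Λ), Alpha (NN Fr.col) G ρ0 u0 →
  ∀ p0 : Cd I, pc Fr.Θ ∅ p0 ≤ ρ0 →
  ∃ A : K → Set (Cd I), p0 ∈ AtLeast W1 A ∧
    ∀ q ≤ p0, ∀ f : ℕ → K, Function.Injective f → (∀ n, q ∈ meets (A (f n))) →
      ∃ r ≤ q, ∃ t : Finset K, t.card = 3 ∧ (t : Set K) ⊆ range f ∧ r ∈ D true t

/-- **T12.** The second case: a set of size `ℵ₁` without an infinite subset homogeneous for `1`. -/
def S_betaFinal : Prop :=
  ∀ (I K X : Type) [LinearOrder X] (blk : X → W1), (∀ x y, blk x < blk y → x < y) →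
  (∀ ξ, ¬ {x | blk x = ξ}.Countable) →
  ∀ (D : Bool → Finset K → Set (Cd I)) (Fr : Frame I K X D)
    (ρ0 : Cd Fr.Λ) (U : (ℕ → Bool) → ℕ → Cd Fr.Λ), Beta (NN Fr.col) ρ0 U →
  ∀ p0 : Cd I, pc Fr.Θ ∅ p0 ≤ ρ0 →
  ∃ A : K → Set (Cd I), p0 ∈ AtLeast W1 A ∧
    ∀ q ≤ p0, ∀ f : ℕ → K, Function.Injective f → (∀ n, q ∈ meets (A (f n))) →
      ∃ r ≤ q, ∃ t : Finset K, t.card = 3 ∧ (t : Set K) ⊆ range f ∧ r ∈ D false t

/-- Iterated exponentiation. -/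
noncomputable def tow : ℕ → Cardinal.{0} → Cardinal.{0}
  | 0, κ => κ
  | n + 1, κ => 2 ^ tow n κ

/-- **T1.** The Erdős–Rado theorem for all exponents `≤ n` at once. -/
def S_er : Prop :=
  ∀ (n : ℕ) (X C : Type) [LinearOrder X] [WellFoundedLT X] (κ : Cardinal.{0}), ℵ₀ ≤ κ →
  #C ≤ κ → tow n κ < #X → ∀ F : Finset X → C, ∃ H : Set X, κ < #H ∧
    ∀ s t : Finset X, (s : Set X) ⊆ H → (t : Set X) ⊆ H → s.card = t.card → s.card ≤ n → F s = F t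

/-- **T0.** The chain condition. -/
def S_cc : Prop :=
  ∀ (I : Type) (Z : Set (Cd I)),
    (∀ p ∈ Z, ∀ q ∈ Z, p ≠ q → ¬ ∃ r, r ≤ p ∧ r ≤ q) → #Z ≤ 𝔠

/-- **T2.** Supports of size continuum. -/
def S_support : Prop :=
  ∀ (I : Type), 𝔠 ≤ #I → ∀ D : Bool → Set (Cd I), Split D →
  ∃ w : (ℕ → Bool) ↪ I, ∀ i p, p ∈ D i ↔ PF.push w (PF.pull w p) ∈ D i

/-- The pattern of equal values of `w` at two triples depends only on the order pattern of the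
two triples. -/
def Hom {Y Λ I : Type} [LinearOrder Y] (w : (Fin 3 → Y) → Λ → I) : Prop :=
  ∀ t t' s s' : Fin 3 → Y, StrictMono t → StrictMono t' → StrictMono s → StrictMono s' →
    (∀ i j, t i < t' j ↔ s i < s' j) → (∀ i j, t' i < t j ↔ s' i < s j) →
    ∀ l m, w t l = w t' m ↔ w s l = w s' m

/-- **T3.** Uniformization with the Erdős–Rado theorem. -/
def S_hom : Prop :=
  ∀ (I K : Type) [LinearOrder K] [WellFoundedLT K], 𝔠 ≤ #I → tow 6 (2 ^ 𝔠) < #K →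
  ∀ (D : Bool → Finset K → Set (Cd I)), (∀ t, Split fun i => D i t) →
  ∀ (Y : Type) [LinearOrder Y] [WellFoundedLT Y], #Y ≤ ℵ_ 1 →
  ∃ (g : Y → K) (w : (Fin 3 → Y) → (ℕ → Bool) → I) (C : Bool → Set (Cd (ℕ → Bool))),
    StrictMono g ∧ (∀ t, Function.Injective (w t)) ∧ Hom w ∧
    ∀ (t : Fin 3 → Y) (e : (ℕ → Bool) ↪ I), StrictMono t → (∀ l, e l = w t l) →
      ∀ s : Finset K, (s : Set K) = range (fun j => g (t j)) → ∀ i p,
      p ∈ D i s ↔ PF.pull e p ∈ C i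

/-- **T4.** The canonical form of a function with property `Hom`. -/
def S_canon : Prop :=
  ∀ (X Λ I : Type) [LinearOrder X] [Infinite X] (w : (Fin 3 → X ×ₗ ℕ) → Λ → I),
  (∀ t, StrictMono t → Function.Injective (w t)) → Hom w →
  ∃ (Dep : Λ → Finset (Fin 3)) (rep : Λ → Λ) (J : Finset X → Λ → I),
    (∀ l, rep (rep l) = rep l) ∧ (∀ l, (Dep (rep l)).card = (Dep l).card) ∧
    (∀ l m, Dep l = Dep m → rep l = rep m → l = m) ∧
    (∀ (t : Fin 3 → X), StrictMono t → ∀ l,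
      w (fun j => toLex (t j, 2)) l = J ((Dep l).image t) (rep l)) ∧
    (∀ (F F' : Finset X) (l m : Λ), F.card = (Dep l).card → F'.card = (Dep m).card →
      rep l = l → rep m = m → J F l = J F' m → F = F' ∧ l = m)

/-- **T5.** Existence of frames. -/
def S_frame : Prop :=
  ∀ (I K : Type), 𝔠 < #I → tow 6 (2 ^ 𝔠) < #K →
  ∀ (D : Bool → Finset K → Set (Cd I)), (∀ t, Split fun i => D i t) →
  Nonempty (Frame I K (W1 ×ₗ W1) D)

/-- **T14.** The general facts on the forcing. -/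
def S_forcing : Prop :=
  ∀ (K : Type), 2 ≤ #K → #K ^ (𝔠 : Cardinal.{0}) = #K → ∀ p : Cd (K × W1),
    p ∈ OmegaOnePreserved (Cd (K × W1)) ∧ p ∈ PowerEq (Cd (K × W1)) ℕ W1 ∧
    p ∈ PowerEq (Cd (K × W1)) W1 K ∧
    ((𝔠 : Cardinal.{0}) = ℵ_ 1 → p ∈ CardinalsPreserved.{0, 0} (Cd (K × W1)))

/-- **T15.** From the two cases to the failure of the strong partition. -/
def S_fail : Prop :=
  ∀ (I K : Type), 𝔠 < #I → tow 6 (2 ^ 𝔠) < #K →
  ∀ p : Cd I, p ∈ fnot (StrongPartition (Cd I) K)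

end Pool.Agent.H644.TP
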