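import Mathlib
import Pool.Agent.H644.TP.Spec

set_option autoImplicit false

/-!
# Prescribing pieces of conditions
-/

namespace Pool.Agent.H644.TP

open Set Cardinal

variable {X Λ I : Type}

theorem pc_f (Θ : Finset X × Λ ↪ I) (F : Finset X) (p : Cd I) (l : Λ) :
    (pc Θ F p).f l = p.f (Θ (F, l)) := rfl

theorem pc_mono (Θ : Finset X × Λ ↪ I) (F : Finset X) {p q : Cd I} (h : p ≤ q) :
    pc Θ F p ≤ pc Θ F q := fun l b hb => h _ b hb

open Classical in
/-- Prescribing countably many pieces. -/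
theorem amal (Θ : Finset X × Λ ↪ I) (q : Cd I) {κ : Type} [Countable κ] (F : κ → Finset X)
    (g : κ → Cd Λ) (hF : Function.Injective F) (hg : ∀ k, g k ≤ pc Θ (F k) q) :
    ∃ p ≤ q, (∀ k, pc Θ (F k) p = g k) ∧
      ∀ F', (∀ k, F' ≠ F k) → pc Θ F' p = pc Θ F' q := by
  have huniq : ∀ k l k' l', Θ (F k, l) = Θ (F k', l') → k = k' ∧ l = l' := by
    intro k l k' l' h
    have h1 := Θ.injective h
    simp only [Prod.mk.injEq] at h1
    exact ⟨hF h1.1, h1.2⟩
  let v : I → Option Bool := fun i =>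
    if h : ∃ k l, Θ (F k, l) = i then (g h.choose).f h.choose_spec.choose else q.f i
  have hv1 : ∀ k l, v (Θ (F k, l)) = (g k).f l := by
    intro k l
    have h : ∃ k' l', Θ (F k', l') = Θ (F k, l) := ⟨k, l, rfl⟩
    show (if h : ∃ k' l', Θ (F k', l') = Θ (F k, l) then (g h.choose).f h.choose_spec.choose
      else q.f _) = _
    rw [dif_pos h]
    obtain ⟨h1, h2⟩ := huniq _ _ _ _ h.choose_spec.choose_spec
    rw [h2]
    have h3 : g h.choose = g k := by rw [h1]
    rw [h3]
  have hv2 : ∀ i, (¬ ∃ k l, Θ (F k, l) = i) → v i = q.f i := by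
    intro i h
    show (if h : ∃ k' l', Θ (F k', l') = i then (g h.choose).f h.choose_spec.choose
      else q.f _) = _
    rw [dif_neg h]
  have hc : {i | v i ≠ none}.Countable := by
    refine (q.ctb.union (countable_iUnion fun k =>
      ((g k).ctb.image (fun l => Θ (F k, l))))).mono ?_
    intro i hi
    by_cases h : ∃ k l, Θ (F k, l) = i
    · obtain ⟨k, l, rfl⟩ := h
      right
      refine mem_iUnion.2 ⟨k, l, ?_, rfl⟩
      have hi' : v (Θ (F k, l)) ≠ none := hi
      rw [hv1] at hi'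
      exact hi'
    · left
      have hi' : v i ≠ none := hi
      rw [hv2 i h] at hi'
      exact hi'
  refine ⟨⟨v, hc⟩, ?_, ?_, ?_⟩
  · intro i b hb
    show v i = some b
    by_cases h : ∃ k l, Θ (F k, l) = i
    · obtain ⟨k, l, rfl⟩ := h
      rw [hv1]
      exact hg k l b hb
    · rw [hv2 i h]
      exact hb
  · intro k
    exact PF.ext' fun l => hv1 k l
  · intro F' hF'
    refine PF.ext' fun l => ?_
    show v (Θ (F', l)) = q.f (Θ (F', l))
    apply hv2
    rintro ⟨k, l', h⟩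
    have h1 := Θ.injective h
    simp only [Prod.mk.injEq] at h1
    exact hF' k h1.1.symm

/-- Prescribing one piece. -/
theorem amal_one (Θ : Finset X × Λ ↪ I) (q : Cd I) (F : Finset X) (g : Cd Λ)
    (hg : g ≤ pc Θ F q) : ∃ p ≤ q, pc Θ F p = g ∧ ∀ F', F' ≠ F → pc Θ F' p = pc Θ F' q := by
  obtain ⟨p, hp, h1, h2⟩ := amal Θ q (fun _ : Unit => F) (fun _ => g)
    (fun _ _ _ => rfl) (fun _ => hg)
  exact ⟨p, hp, h1 (), fun F' hF' => h2 F' fun _ => hF'⟩

/-- In an uncountable set of points there is one that a condition does not touch. -/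
theorem exists_fresh (Θ : Finset X × Λ ↪ I) (q : Cd I) (B : Set X) (hB : ¬ B.Countable) :
    ∃ x ∈ B, ∀ F, x ∈ F → pc Θ F q = ⊤ := by
  have h1 : {F : Finset X | pc Θ F q ≠ ⊤}.Countable := by
    have h2 : {F : Finset X | pc Θ F q ≠ ⊤} ⊆
        Prod.fst '' (Θ ⁻¹' {i | q.f i ≠ none}) := by
      intro F hF
      by_contra hcon
      apply hF
      refine PF.ext' fun l => ?_
      show q.f (Θ (F, l)) = none
      by_contra hl
      exact hcon ⟨(F, l), hl, rfl⟩
    exact ((q.ctb.preimage Θ.injective).image _).mono h2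
  have h3 : (⋃ F ∈ {F : Finset X | pc Θ F q ≠ ⊤}, (F : Set X)).Countable :=
    h1.biUnion fun F _ => F.countable_toSet
  have h4 : ∃ x ∈ B, x ∉ (⋃ F ∈ {F : Finset X | pc Θ F q ≠ ⊤}, (F : Set X)) := by
    by_contra hcon
    push Not at hcon
    exact hB (h3.mono hcon)
  obtain ⟨x, hx, h5⟩ := h4
  refine ⟨x, hx, fun F hF => ?_⟩
  by_contra hcon
  exact h5 (mem_biUnion hcon hF)

end Pool.Agent.H644.TP
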