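import Mathlib
import Pool.Agent.H644.TP.Spec
import Pool.Agent.H644.TP.Amal

set_option autoImplicit false

/-!
# T10: the first case, the generic set
-/

namespace Pool.Agent.H644.TP

open Set Cardinal Pool.Agent.TH766.KT Pool.Agent.Helper669.Forcing Pool.Agent.Helper980.G
  Pool.Agent.Helper669.K

namespace AF10

theorem countable_Iio (η : W1) : Countable (Iio η) := by
  have h : #(Iio η) < ℵ_ 1 := Cardinal.mk_Iio_toType_ord_lt η
  rw [← Cardinal.mk_le_aleph0_iff]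
  exact Order.lt_succ_iff.1 (h.trans_eq Cardinal.succ_aleph0.symm)

/-- values of a greatest lower bound -/
theorem glb_f {V J ι : Type} {p : ι → PF J V} {q : PF J V} (h : IsGLB (range p) q) {i : J} {b : V}
    (hq : q.f i = some b) : ∃ k, (p k).f i = some b := by
  classical
  by_contra hc
  push Not at hc
  have hn : ∀ k, (p k).f i = none := by
    intro k
    cases hk : (p k).f i with
    | none => rfl
    | some b' =>
      have h1 := h.1 ⟨k, rfl⟩ i b' hk
      rw [hq] at h1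
      exact absurd (hk.trans h1.symm) (hc k)
  obtain ⟨q', hq'⟩ : ∃ q' : PF J V, q'.f = Function.update q.f i none := by
    refine ⟨⟨Function.update q.f i none, q.ctb.mono ?_⟩, rfl⟩
    intro j hj
    have hj' : Function.update q.f i none j ≠ none := hj
    by_cases hji : j = i
    · subst hji
      rw [Function.update_self] at hj'
      exact absurd rfl hj'
    · rw [Function.update_of_ne hji] at hj'
      exact hj'
  have h1 : q' ∈ lowerBounds (range p) := by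
    rintro _ ⟨k, rfl⟩ j c hj
    rw [hq']
    by_cases hji : j = i
    · subst hji
      rw [hn k] at hj
      exact absurd hj (by simp)
    · rw [Function.update_of_ne hji]
      exact h.1 ⟨k, rfl⟩ j c hj
  have h2 := h.2 h1 i b hq
  rw [hq', Function.update_self] at h2
  exact absurd h2 (by simp)

theorem glb_top {V J ι : Type} {p : ι → PF J V} {q : PF J V} (h : IsGLB (range p) q)
    (hp : ∀ k, p k = ⊤) : q = ⊤ := by
  refine top_le_iff.1 (h.2 ?_)
  rintro _ ⟨k, rfl⟩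
  rw [hp k]

section

variable {X Λ I : Type} [LinearOrder X]

/-- the states: elements, condition, type of the next element, pairs and triples formed with the
next element -/
abbrev St (X Λ I : Type) : Type :=
  PF W1 X × Cd I × (ℕ → Cd Λ) × (W1 → Cd Λ) × (W1 → W1 → Cd Λ)

theorem pcs_mono (Θ : Finset X × Λ ↪ I) (x y z : X) {p q : Cd I} (h : p ≤ q) :
    pcs Θ x y z p ≤ pcs Θ x y z q :=
  ⟨⟨pc_mono Θ _ h, pc_mono Θ _ h, pc_mono Θ _ h, pc_mono Θ _ h, pc_mono Θ _ h, pc_mono Θ _ h,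
    pc_mono Θ _ h⟩, pc_mono Θ _ h⟩

/-- the data of a pair of elements and the next element -/
def dat (Θ : Finset X × Λ ↪ I) (s : St X Λ I) (z1 z2 : W1) (x1 x2 : X) : T8 (Cd Λ) :=
  ((pc Θ ∅ s.2.1, pc Θ {x1} s.2.1, pc Θ {x2} s.2.1, s.2.2.1 0, pc Θ {x1, x2} s.2.1,
    s.2.2.2.1 z1, s.2.2.2.1 z2), s.2.2.2.2 z1 z2)

theorem dat_mono (Θ : Finset X × Λ ↪ I) {s t : St X Λ I} (h : s ≤ t) (z1 z2 : W1) (x1 x2 : X) :
    dat Θ s z1 z2 x1 x2 ≤ dat Θ t z1 z2 x1 x2 :=
  ⟨⟨pc_mono Θ _ h.2.1, pc_mono Θ _ h.2.1, pc_mono Θ _ h.2.1, h.2.2.1 0, pc_mono Θ _ h.2.1,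
    h.2.2.2.1 z1, h.2.2.2.1 z2⟩, h.2.2.2.2 z1 z2⟩

/-- the invariants -/
structure Inv (blk : X → W1) (Θ : Finset X × Λ ↪ I) (N : Set (T7 (Cd Λ))) (G : Set (G4 (Cd Λ)))
    (F : Set (T8 (Cd Λ))) (Z : Set W1) (s : St X Λ I) : Prop where
  dom : ∀ z, s.1.f z ≠ none ↔ z ∈ Z
  bl : ∀ z x, s.1.f z = some x → blk x = z
  i1 : ∀ z1 z2 x1 x2, z1 < z2 → s.1.f z1 = some x1 → s.1.f z2 = some x2 →
    dat Θ s z1 z2 x1 x2 ∈ F
  i2 : ∀ z1 z2 z3 x1 x2 x3, z1 < z2 → z2 < z3 → s.1.f z1 = some x1 → s.1.f z2 = some x2 →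
    s.1.f z3 = some x3 → pcs Θ x1 x2 x3 s.2.1 ∈ F
  i3 : ∀ z x, s.1.f z = some x → ∀ ρ2 ≤ pc Θ ∅ s.2.1, ∀ x2 ≤ pc Θ {x} s.2.1, ∀ v2 ≤ s.2.2.1,
    ∀ w2 ≤ s.2.2.2.1 z, ¬ Den N G ρ2 x2 v2 w2
  i5w : ∀ z, z ∉ Z → s.2.2.2.1 z = ⊤
  i5l : ∀ z z', z' ∉ Z → s.2.2.2.2 z z' = ⊤

/-- greatest lower bounds of countable chains of states -/
theorem exists_glb {ι : Type} [Countable ι] (a : ι → St X Λ I)
    (hc : ∀ i j, a i ≤ a j ∨ a j ≤ a i) : ∃ t : St X Λ I, (∀ i, t ≤ a i) ∧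
      IsGLB (range fun i => (a i).1) t.1 ∧ IsGLB (range fun i => (a i).2.1) t.2.1 ∧
      (∀ z, IsGLB (range fun i => (a i).2.2.2.1 z) (t.2.2.2.1 z)) ∧
      ∀ z z', IsGLB (range fun i => (a i).2.2.2.2 z z') (t.2.2.2.2 z z') := by
  have hcp : ∀ {V J : Type} (π : St X Λ I → PF J V), (∀ s t, s ≤ t → π s ≤ π t) →
      ∃ q, IsGLB (range fun i => π (a i)) q := by
    intro V J π hπ
    refine PF.exists_glb (fun i => π (a i)) fun i j => ?_
    rcases hc i j with h | h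
    · exact ⟨π (a i), le_rfl, hπ _ _ h⟩
    · exact ⟨π (a j), hπ _ _ h, le_rfl⟩
  obtain ⟨y, hy⟩ := hcp (fun s => s.1) fun s t h => h.1
  obtain ⟨p, hp⟩ := hcp (fun s => s.2.1) fun s t h => h.2.1
  choose u hu using fun n : ℕ => hcp (fun s => s.2.2.1 n) fun s t h => h.2.2.1 n
  choose w hw using fun z : W1 => hcp (fun s => s.2.2.2.1 z) fun s t h => h.2.2.2.1 z
  choose l hl using fun z : W1 => fun z' : W1 =>
    hcp (fun s => s.2.2.2.2 z z') fun s t h => h.2.2.2.2 z z'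
  exact ⟨(y, p, u, w, l), fun i => ⟨hy.1 ⟨i, rfl⟩, hp.1 ⟨i, rfl⟩, fun n => (hu n).1 ⟨i, rfl⟩,
    fun z => (hw z).1 ⟨i, rfl⟩, fun z z' => (hl z z').1 ⟨i, rfl⟩⟩, hy, hp, hw, hl⟩

variable {blk : X → W1} {Θ : Finset X × Λ ↪ I} {N : Set (T7 (Cd Λ))} {G : Set (G4 (Cd Λ))}
  {F : Set (T8 (Cd Λ))}

/-- values at earlier indices -/
theorem val_up {Z : Set W1} {s t : St X Λ I} (hI : Inv blk Θ N G F Z s) (h : t ≤ s) {z : W1}
    (hz : z ∈ Z) {x : X} (hx : t.1.f z = some x) : s.1.f z = some x := by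
  obtain ⟨x', hx'⟩ : ∃ x', s.1.f z = some x' := by
    have := (hI.dom z).2 hz
    cases hs : s.1.f z with
    | none => exact absurd hs this
    | some x' => exact ⟨x', rfl⟩
  have h1 := h.1 z x' hx'
  rw [hx] at h1
  rw [hx', h1]

/-- the limit step -/
theorem limit (hF : IsLowerSet F) (s0 : St X Λ I) (h0y : s0.1 = ⊤) (h0w : s0.2.2.2.1 = ⊤)
    (h0l : s0.2.2.2.2 = ⊤) (η : W1) (s : W1 → St X Λ I)
    (hs : ∀ ξ < η, Inv blk Θ N G F (Iic ξ) (s ξ) ∧ s ξ ≤ s0)
    (hd : ∀ ξ ξ', ξ ≤ ξ' → ξ' < η → s ξ' ≤ s ξ) :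
    ∃ t ≤ s0, (∀ ξ < η, t ≤ s ξ) ∧
      (∀ r ≤ s0.2.1, (∀ ξ < η, r ≤ (s ξ).2.1) → r ≤ t.2.1) ∧ Inv blk Θ N G F (Iio η) t := by
  have hctb := countable_Iio η
  obtain ⟨t, ht, hy, hp, hw, hl⟩ := exists_glb
    (fun i : Option (Iio η) => match i with
      | none => s0
      | some ξ => s ξ) (by
    rintro (_ | ξ) (_ | ξ')
    · exact Or.inl le_rfl
    · exact Or.inr (hs _ ξ'.2).2
    · exact Or.inl (hs _ ξ.2).2
    · rcases le_total ξ.1 ξ'.1 with h | h
      · exact Or.inr (hd _ _ h ξ'.2)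
      · exact Or.inl (hd _ _ h ξ.2))
  have hts : ∀ ξ < η, t ≤ s ξ := fun ξ hξ => ht (some ⟨ξ, hξ⟩)
  have hfrom : ∀ z x, t.1.f z = some x → ∃ ξ < η, (s ξ).1.f z = some x := by
    intro z x h
    obtain ⟨k, hk⟩ := glb_f hy h
    rcases k with _ | ξ
    · simp only [h0y] at hk
      exact absurd hk (by simp)
    · exact ⟨ξ, ξ.2, hk⟩
  have hlt : ∀ z x, t.1.f z = some x → z < η := by
    intro z x h
    obtain ⟨ξ, hξ, h1⟩ := hfrom z x h
    have h2 : z ∈ Iic ξ := ((hs ξ hξ).1.dom z).1 (by rw [h1]; simp)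
    exact lt_of_le_of_lt h2 hξ
  refine ⟨t, ht none, hts, ?_, ?_, ?_, ?_, ?_, ?_, ?_, ?_⟩
  · intro r h1 h2
    refine hp.2 ?_
    rintro _ ⟨k, rfl⟩
    rcases k with _ | ξ
    · exact h1
    · exact h2 ξ ξ.2
  · intro z
    constructor
    · intro h
      cases hz : t.1.f z with
      | none => exact absurd hz h
      | some x => exact hlt z x hz
    · intro h
      have h1 := ((hs z h).1.dom z).2 (mem_Iic.2 le_rfl)
      cases hz : (s z).1.f z with
      | none => exact absurd hz h1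
      | some x =>
        rw [(hts z h).1 z x hz]
        simp
  · intro z x h
    obtain ⟨ξ, hξ, h1⟩ := hfrom z x h
    exact (hs ξ hξ).1.bl z x h1
  · intro z1 z2 x1 x2 h12 h1 h2
    have hz := hlt z2 x2 h2
    have hI := (hs z2 hz).1
    exact hF (dat_mono Θ (hts z2 hz) z1 z2 x1 x2) (hI.i1 z1 z2 x1 x2 h12
      (val_up hI (hts z2 hz) h12.le h1) (val_up hI (hts z2 hz) (mem_Iic.2 le_rfl) h2))
  · intro z1 z2 z3 x1 x2 x3 h12 h23 h1 h2 h3
    have hz := hlt z3 x3 h3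
    have hI := (hs z3 hz).1
    exact hF (pcs_mono Θ x1 x2 x3 (hts z3 hz).2.1) (hI.i2 z1 z2 z3 x1 x2 x3 h12 h23
      (val_up hI (hts z3 hz) (h12.trans h23).le h1) (val_up hI (hts z3 hz) h23.le h2)
      (val_up hI (hts z3 hz) (mem_Iic.2 le_rfl) h3))
  · intro z x h ρ2 h1 x2 h2 v2 h3 w2 h4
    have hz := hlt z x h
    have hI := (hs z hz).1
    have hle := hts z hz
    exact hI.i3 z x (val_up hI hle (mem_Iic.2 le_rfl) h) ρ2 (h1.trans (pc_mono Θ _ hle.2.1)) x2
      (h2.trans (pc_mono Θ _ hle.2.1)) v2 (h3.trans hle.2.2.1) w2 (h4.trans (hle.2.2.2.1 z))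
  · intro z hz
    refine glb_top (hw z) fun k => ?_
    rcases k with _ | ξ
    · simp only [h0w]
      rfl
    · exact (hs ξ ξ.2).1.i5w z fun h => hz (mem_Iio.2 (lt_of_le_of_lt (mem_Iic.1 h) ξ.2))
  · intro z z' hz
    refine glb_top (hl z z') fun k => ?_
    rcases k with _ | ξ
    · simp only [h0l]
      rfl
    · exact (hs ξ ξ.2).1.i5l z z' fun h => hz (mem_Iio.2 (lt_of_le_of_lt (mem_Iic.1 h) ξ.2))

theorem pair_ne {x1 x2 x x' : X} (h1 : x1 ≠ x) (h2 : x2 ≠ x) (h12 : x1 ≠ x2) :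
    ({x1, x2, x} : Finset X) ≠ {x', x} := by
  intro h
  have e1 : x1 ∈ ({x', x} : Finset X) := by rw [← h]; simp
  have e2 : x2 ∈ ({x', x} : Finset X) := by rw [← h]; simp
  simp only [Finset.mem_insert, Finset.mem_singleton] at e1 e2
  exact h12 ((e1.resolve_right h1).trans (e2.resolve_right h2).symm)

/-- the successor step -/
theorem succ (hstep : S_alphaStep) (hN : IsLowerSet N) (hG : IsLowerSet G) (hF : IsLowerSet F)
    (hNF : ∀ t : T7 (Cd Λ), t ∉ N → ∃ t' ≤ t, ∃ e, (t', e) ∈ F)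
    (hblk : ∀ x y, blk x < blk y → x < y) (hunc : ∀ ξ, ¬ {x | blk x = ξ}.Countable)
    (ρ0 : Cd Λ) (u0 : ℕ → Cd Λ) (hA : Alpha N G ρ0 u0) (η : W1) (t : St X Λ I)
    (hI : Inv blk Θ N G F (Iio η) t) (hp0 : pc Θ ∅ t.2.1 ≤ ρ0) (hu0 : t.2.2.1 ≤ u0)
    (q : Cd I) (hq : q ≤ t.2.1) :
    ∃ t' ≤ t, Inv blk Θ N G F (Iic η) t' ∧ t'.2.1 ≤ q := by
  have hctb := countable_Iio η
  -- the elements of `t`
  have hxx : ∀ z : Iio η, ∃ x, t.1.f z = some x := by
    intro z
    have h := (hI.dom z).2 z.2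
    cases hz : t.1.f z with
    | none => exact absurd hz h
    | some x => exact ⟨x, rfl⟩
  choose xx hxx using hxx
  have hbx : ∀ z : Iio η, blk (xx z) = z := fun z => hI.bl z _ (hxx z)
  have hinj : Function.Injective xx := fun z z' h => by
    apply Subtype.ext
    rw [← hbx z, ← hbx z', h]
  obtain ⟨x, hx, hfresh⟩ := exists_fresh Θ q {x | blk x = η} (hunc η)
  have hx : blk x = η := hx
  have hlt : ∀ z, xx z < x := fun z => hblk _ _ (by rw [hbx, hx]; exact z.2)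
  have hne : ∀ z, xx z ≠ x := fun z => (hlt z).ne
  obtain ⟨ρ', hρ', a, ha, a', ha', b, hz, hnew⟩ := hstep (Cd Λ) (sigmaClosed_PF _ _) N G hN hG ρ0 u0
    hA F hF hNF (Iio η) (pc Θ ∅ q) (fun z => pc Θ {xx z} q) t.2.2.1 (fun z => t.2.2.2.1 z)
    ((pc_mono Θ _ hq).trans hp0) hu0 (by
      intro z ρ2 h1 x2 h2 v2 h3 w2 h4
      exact hI.i3 z (xx z) (hxx z) ρ2 (h1.trans (pc_mono Θ _ hq)) x2
        (h2.trans (pc_mono Θ _ hq)) v2 h3 w2 h4)
  choose q' hq' d hd d' hd' e he using hz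
  -- prescribe the pieces
  obtain ⟨p1, hp1, e1, f1⟩ := amal_one Θ q ∅ ρ' hρ'
  obtain ⟨p2, hp2, e2, f2⟩ := amal Θ p1 (fun z : Iio η => {xx z}) q'
    (fun z z' h => hinj (Finset.singleton_injective h)) (fun z => by
      rw [f1 _ (Finset.singleton_ne_empty _)]
      exact hq' z)
  obtain ⟨p3, hp3, e3, f3⟩ := amal_one Θ p2 {x} (a 0) (by
    rw [f2 _ (fun z h => hne z (Finset.singleton_injective h).symm),
      f1 _ (Finset.singleton_ne_empty _), hfresh _ (Finset.mem_singleton_self x)]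
    exact le_top)
  have g1 : ∀ z, ({xx z, x} : Finset X) ≠ {x} := by
    intro z h
    have : xx z ∈ ({x} : Finset X) := by rw [← h]; simp
    exact hne z (Finset.mem_singleton.1 this)
  have g2 : ∀ z z', ({xx z, x} : Finset X) ≠ {xx z'} := by
    intro z z' h
    have : x ∈ ({xx z'} : Finset X) := by rw [← h]; simp
    exact hne z' (Finset.mem_singleton.1 this).symm
  have g3 : ∀ z, ({xx z, x} : Finset X) ≠ ∅ := fun z => Finset.insert_ne_empty _ _
  obtain ⟨p4, hp4, e4, f4⟩ := amal Θ p3 (fun z : Iio η => {xx z, x}) d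
    (fun z z' h => by
      have h1 : xx z ∈ ({xx z', x} : Finset X) := by
        have : ({xx z, x} : Finset X) = {xx z', x} := h
        rw [← this]; simp
      simp only [Finset.mem_insert, Finset.mem_singleton] at h1
      exact hinj (h1.resolve_right (hne z))) (fun z => by
      rw [f3 _ (g1 z), f2 _ (g2 z), f1 _ (g3 z), hfresh _ (by simp)]
      exact le_top)
  have g4 : ∀ z1 z2 : Iio η, z1.1 < z2.1 → xx z1 < xx z2 := fun z1 z2 h =>
    hblk _ _ (by rw [hbx, hbx]; exact h)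
  have g5 : ∀ z1 z2 : Iio η, ({xx z1, xx z2, x} : Finset X) ≠ {x} := by
    intro z1 z2 h
    have : xx z1 ∈ ({x} : Finset X) := by rw [← h]; simp
    exact hne z1 (Finset.mem_singleton.1 this)
  have g6 : ∀ z1 z2 z' : Iio η, ({xx z1, xx z2, x} : Finset X) ≠ {xx z'} := by
    intro z1 z2 z' h
    have : x ∈ ({xx z'} : Finset X) := by rw [← h]; simp
    exact hne z' (Finset.mem_singleton.1 this).symm
  have g7 : ∀ z1 z2 z' : Iio η, z1.1 < z2.1 → ({xx z1, xx z2, x} : Finset X) ≠ {xx z', x} :=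
    fun z1 z2 z' h => pair_ne (hne z1) (hne z2) (g4 z1 z2 h).ne
  obtain ⟨p5, hp5, e5, f5⟩ := amal Θ p4
    (fun zz : {zz : Iio η × Iio η // zz.1.1 < zz.2.1} => {xx zz.1.1, xx zz.1.2, x})
    (fun zz => t.2.2.2.2 zz.1.1 zz.1.2)
    (by
      rintro ⟨⟨z1, z2⟩, h12⟩ ⟨⟨z1', z2'⟩, h12'⟩ h
      have h : ({xx z1, xx z2, x} : Finset X) = {xx z1', xx z2', x} := h
      have k1 : xx z1 ∈ ({xx z1', xx z2', x} : Finset X) := by rw [← h]; simp
      have k2 : xx z2 ∈ ({xx z1', xx z2', x} : Finset X) := by rw [← h]; simp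
      simp only [Finset.mem_insert, Finset.mem_singleton] at k1 k2
      have l12 := g4 z1 z2 h12
      have l12' := g4 z1' z2' h12'
      have m1 : xx z1 = xx z1' ∧ xx z2 = xx z2' := by
        rcases k1 with k1 | k1 | k1
        · rcases k2 with k2 | k2 | k2
          · rw [k1, k2] at l12; exact absurd l12 (lt_irrefl _)
          · exact ⟨k1, k2⟩
          · exact absurd k2 (hne z2)
        · rcases k2 with k2 | k2 | k2
          · rw [k1, k2] at l12; exact absurd (l12.trans l12') (lt_irrefl _)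
          · rw [k1, k2] at l12; exact absurd l12 (lt_irrefl _)
          · exact absurd k2 (hne z2)
        · exact absurd k1 (hne z1)
      have n1 := hinj m1.1
      have n2 := hinj m1.2
      subst n1 n2
      rfl)
    (fun zz => by
      rw [f4 _ (fun z' => g7 _ _ z' zz.2), f3 _ (g5 _ _), f2 _ (g6 _ _),
        f1 _ (Finset.insert_ne_empty _ _), hfresh _ (by simp)]
      exact le_top)
  -- the pieces of `p5`
  have v0 : pc Θ ∅ p5 = ρ' := by
    rw [f5 _ (fun _ => (Finset.insert_ne_empty _ _).symm), f4 _ (fun z => (g3 z).symm),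
      f3 _ (Finset.singleton_ne_empty _).symm, f2 _ (fun z => (Finset.singleton_ne_empty _).symm),
      e1]
  have v1 : ∀ z, pc Θ {xx z} p5 = q' z := by
    intro z
    rw [f5 _ (fun zz => (g6 _ _ z).symm), f4 _ (fun z' => (g2 z' z).symm),
      f3 _ (fun h => hne z (Finset.singleton_injective h)), e2]
  have v2 : pc Θ {x} p5 = a 0 := by
    rw [f5 _ (fun zz => (g5 _ _).symm), f4 _ (fun z' => (g1 z').symm), e3]
  have v3 : ∀ z, pc Θ {xx z, x} p5 = d z := by
    intro z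
    rw [f5 _ (fun zz => (g7 _ _ z zz.2).symm), e4]
  have v4 : ∀ z1 z2 : Iio η, z1.1 < z2.1 → pc Θ {xx z1, xx z2, x} p5 = t.2.2.2.2 z1 z2 :=
    fun z1 z2 h => e5 ⟨(z1, z2), h⟩
  have hp5q : p5 ≤ q := hp5.trans (hp4.trans (hp3.trans (hp2.trans hp1)))
  have hηn : t.1.f η = none := by
    by_contra h
    exact absurd ((hI.dom η).1 h) (lt_irrefl η)
  -- the new state
  obtain ⟨y', hy'⟩ : ∃ y' : PF W1 X, y'.f = Function.update t.1.f η (some x) := by
    refine ⟨⟨Function.update t.1.f η (some x), (t.1.ctb.union (countable_singleton η)).mono ?_⟩,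
      rfl⟩
    intro z hz
    have hz' : Function.update t.1.f η (some x) z ≠ none := hz
    by_cases hzη : z = η
    · exact Or.inr hzη
    · rw [Function.update_of_ne hzη] at hz'
      exact Or.inl hz'
  classical
  obtain ⟨w', hw1, hw2, hw3⟩ : ∃ w' : W1 → Cd Λ, (∀ z : Iio η, w' z = d' z) ∧ w' η = b ∧
      ∀ z, η < z → w' z = ⊤ := by
    refine ⟨fun z => if h : z ∈ Iio η then d' ⟨z, h⟩ else if z = η then b else ⊤, ?_, ?_, ?_⟩
    · intro z
      exact dif_pos z.2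
    · have h0 : η ∉ Iio η := fun h' => lt_irrefl η (mem_Iio.1 h')
      simp only [dif_neg h0, if_true]
    · intro z hz
      have h0 : z ∉ Iio η := fun h' => absurd (mem_Iio.1 h') (not_lt.2 hz.le)
      simp only [dif_neg h0, if_neg hz.ne']
  obtain ⟨l', hl1, hl2, hl3⟩ : ∃ l' : W1 → W1 → Cd Λ, (∀ z : Iio η, l' z η = e z) ∧
      (∀ z z', z' ≠ η → l' z z' = t.2.2.2.2 z z') ∧ ∀ z, z ∉ Iio η → l' z η = ⊤ := by
    refine ⟨fun z z' => if z' = η then (if h : z ∈ Iio η then e ⟨z, h⟩ else ⊤) else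
      t.2.2.2.2 z z', ?_, ?_, ?_⟩
    · intro z
      have h0 : (if h : z.1 ∈ Iio η then e ⟨z, h⟩ else ⊤) = e z := dif_pos z.2
      simp only [if_true]
      exact h0
    · intro z z' h
      simp only [if_neg h]
    · intro z h
      simp only [if_true, dif_neg h]
  have hle : ((y', p5, a', w', l') : St X Λ I) ≤ t := by
    refine ⟨?_, hp5q.trans hq, ha', ?_, ?_⟩
    · intro z c hzc
      show y'.f z = some c
      rw [hy']
      by_cases hzη : z = η
      · subst hzη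
        rw [hηn] at hzc
        exact absurd hzc (by simp)
      · rw [Function.update_of_ne hzη]
        exact hzc
    · intro z
      show w' z ≤ t.2.2.2.1 z
      rcases lt_trichotomy z η with h | h | h
      · rw [hw1 ⟨z, h⟩]
        exact hd' ⟨z, h⟩
      · rw [hI.i5w z fun h' => absurd (mem_Iio.1 h') (not_lt.2 h.ge)]
        exact le_top
      · rw [hI.i5w z fun h' => absurd (mem_Iio.1 h') (not_lt.2 h.le)]
        exact le_top
    · intro z z'
      show l' z z' ≤ t.2.2.2.2 z z'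
      by_cases h : z' = η
      · rw [hI.i5l z z' fun h' => absurd (mem_Iio.1 h') (not_lt.2 h.ge)]
        exact le_top
      · rw [hl2 z z' h]
  have hold : ∀ z c, y'.f z = some c → z ≠ η → t.1.f z = some c ∧ ∃ z' : Iio η, z'.1 = z ∧
      xx z' = c := by
    intro z c h hzη
    rw [hy', Function.update_of_ne hzη] at h
    have hz : z ∈ Iio η := (hI.dom z).1 (by rw [h]; simp)
    refine ⟨h, ⟨z, hz⟩, rfl, ?_⟩
    have := hxx ⟨z, hz⟩
    have h2 : t.1.f z = some (xx ⟨z, hz⟩) := this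
    rw [h] at h2
    exact (Option.some.inj h2).symm
  have hnewx : ∀ c, y'.f η = some c → c = x := by
    intro c h
    rw [hy', Function.update_self] at h
    exact (Option.some.inj h).symm
  have hzle : ∀ z c, y'.f z = some c → z ≤ η := by
    intro z c h
    by_cases hzη : z = η
    · exact hzη.le
    · obtain ⟨-, z', rfl, -⟩ := hold z c h hzη
      exact le_of_lt z'.2
  refine ⟨(y', p5, a', w', l'), hle, ?_, hp5q⟩
  refine ⟨?_, ?_, ?_, ?_, ?_, ?_, ?_⟩
  · intro z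
    show y'.f z ≠ none ↔ z ∈ Iic η
    by_cases hzη : z = η
    · subst hzη
      rw [hy', Function.update_self]
      simp
    · rw [hy', Function.update_of_ne hzη, hI.dom z]
      constructor
      · exact fun h => mem_Iic.2 (le_of_lt (mem_Iio.1 h))
      · exact fun h => mem_Iio.2 (lt_of_le_of_ne (mem_Iic.1 h) hzη)
  · intro z c h
    by_cases hzη : z = η
    · subst hzη
      rw [hnewx c h, hx]
    · exact hI.bl z c (hold z c h hzη).1
  · intro z1 z2 x1 x2 h12 h1 h2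
    have hz1 : z1 ≠ η := (lt_of_lt_of_le h12 (hzle z2 x2 h2)).ne
    obtain ⟨k1, z1', rfl, rfl⟩ := hold z1 x1 h1 hz1
    by_cases hz2 : z2 = η
    · subst hz2
      rw [hnewx x2 h2]
      have := he z1'
      unfold dat
      simp only [v0, v1, v2, v3, hw1, hw2, hl1]
      exact this
    · obtain ⟨k2, -⟩ := hold z2 x2 h2 hz2
      exact hF (dat_mono Θ hle _ _ _ _) (hI.i1 _ _ _ _ h12 k1 k2)
  · intro z1 z2 z3 x1 x2 x3 h12 h23 h1 h2 h3
    have hz2 : z2 ≠ η := (lt_of_lt_of_le h23 (hzle z3 x3 h3)).ne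
    have hz1 : z1 ≠ η := ((h12.trans h23).trans_le (hzle z3 x3 h3)).ne
    obtain ⟨k1, z1', rfl, rfl⟩ := hold z1 x1 h1 hz1
    obtain ⟨k2, z2', rfl, rfl⟩ := hold z2 x2 h2 hz2
    by_cases hz3 : z3 = η
    · subst hz3
      rw [hnewx x3 h3]
      refine hF ?_ (hI.i1 _ _ _ _ h12 k1 k2)
      have hpt : p5 ≤ t.2.1 := hp5q.trans hq
      refine ⟨⟨pc_mono Θ _ hpt, pc_mono Θ _ hpt, pc_mono Θ _ hpt, ?_, pc_mono Θ _ hpt, ?_, ?_⟩, ?_⟩
      · show pc Θ {x} p5 ≤ t.2.2.1 0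
        rw [v2]
        exact ha 0
      · show pc Θ {xx z1', x} p5 ≤ t.2.2.2.1 z1'
        rw [v3]
        exact hd z1'
      · show pc Θ {xx z2', x} p5 ≤ t.2.2.2.1 z2'
        rw [v3]
        exact hd z2'
      · show pc Θ {xx z1', xx z2', x} p5 ≤ t.2.2.2.2 z1' z2'
        rw [v4 z1' z2' h12]
    · obtain ⟨k3, -⟩ := hold z3 x3 h3 hz3
      exact hF (pcs_mono Θ _ _ _ hle.2.1) (hI.i2 _ _ _ _ _ _ h12 h23 k1 k2 k3)
  · intro z c h ρ2 h1 x2 h2 v2' h3 w2 h4
    by_cases hzη : z = η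
    · subst hzη
      rw [hnewx c h] at h2
      have h1' : ρ2 ≤ pc Θ ∅ p5 := h1
      have h2' : x2 ≤ pc Θ {x} p5 := h2
      have h4' : w2 ≤ w' z := h4
      rw [v0] at h1'
      rw [v2] at h2'
      rw [hw2] at h4'
      exact hnew ρ2 h1' x2 h2' v2' h3 w2 h4'
    · exact hI.i3 z c (hold z c h hzη).1 ρ2 (h1.trans (pc_mono Θ _ hle.2.1)) x2
        (h2.trans (pc_mono Θ _ hle.2.1)) v2' (h3.trans hle.2.2.1) w2 (h4.trans (hle.2.2.2.1 z))
  · intro z hz
    exact hw3 z (not_le.1 hz)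
  · intro z z' hz
    have hz' : η < z' := not_le.1 hz
    show l' z z' = ⊤
    rw [hl2 z z' hz'.ne']
    exact hI.i5l z z' fun h => absurd (mem_Iio.1 h) (not_lt.2 hz'.le)

end

theorem cond_mono {X Λ I : Type} : Monotone (fun s : St X Λ I => s.2.1) := by
  intro s t h
  exact (Prod.le_def.1 (Prod.le_def.1 h).2).1

theorem map_some {X K : Type} {h : X ↪ K} {o : Option X} {k : K} (hk : o.map h = some k) :
    ∃ x, o = some x ∧ h x = k := by
  cases o with
  | none => exact absurd hk (by simp)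
  | some x => exact ⟨x, rfl, by simpa using hk⟩

end AF10

open AF10 in
theorem alphaFinal : S_path → S_names → S_alphaStep → S_alphaFinal := by
  intro hpath hnames hstep I K X _ blk hblk hunc D Fr G hG ρ0 u0 hA p0 hp0
  have hN : IsLowerSet (NN Fr.col) := fun t1 t2 h12 h t' ht' e => h t' (ht'.trans h12) e
  have hF : IsLowerSet (Fr.col true) := Fr.lower true
  have hNF : ∀ t : T7 (Cd Fr.Λ), t ∉ NN Fr.col → ∃ t' ≤ t, ∃ e, (t', e) ∈ Fr.col true := by
    intro t ht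
    by_contra hc
    push Not at hc
    exact ht fun t' ht' e => hc t' ht' e
  obtain ⟨s0, hs0⟩ : ∃ s0 : St X Fr.Λ I, s0 = (⊤, p0, u0, ⊤, ⊤) := ⟨_, rfl⟩
  have hs0p : s0.2.1 = p0 := by rw [hs0]
  have hs0u : s0.2.2.1 = u0 := by rw [hs0]
  obtain ⟨T, hT1, hT2, hT3⟩ := hpath (Cd I) (St X Fr.Λ I) (fun s => s.2.1)
    (fun ξ s => AF10.Inv blk Fr.Θ (NN Fr.col) G (Fr.col true) (Iic ξ) s) s0 (sigmaClosed_PF _ _)
    cond_mono (by
      intro η s hs hd
      obtain ⟨t, ht0, hts, htc, hI⟩ := limit hF s0 (by rw [hs0]) (by rw [hs0]) (by rw [hs0]) η s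
        hs hd
      refine ⟨t, ht0, hts, htc, fun q hq => ?_⟩
      refine succ hstep hN hG hF hNF hblk hunc ρ0 u0 hA η t hI ?_ ?_ q hq
      · refine (pc_mono Fr.Θ ∅ ht0.2.1).trans ?_
        rw [hs0p]
        exact hp0
      · refine ht0.2.2.1.trans ?_
        rw [hs0u])
  obtain ⟨A, hA1, hA2⟩ := hnames (Cd I) (St X Fr.Λ I) K (fun s => s.2.1)
    (fun s ξ => (s.1.f ξ).map Fr.h) s0 T (sigmaClosed_PF _ _) cond_mono
    (by
      intro s s' hss ξ k hk
      obtain ⟨x, hx, rfl⟩ := map_some hk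
      show (s'.1.f ξ).map Fr.h = _
      rw [hss.1 ξ x hx]
      rfl)
    (by
      intro ξ s hs
      obtain ⟨hI, hle⟩ := hT1 ξ s hs
      refine ⟨hle, ?_⟩
      have h := (hI.dom ξ).2 (mem_Iic.2 le_rfl)
      cases hz : s.1.f ξ with
      | none => exact absurd hz h
      | some x => exact ⟨Fr.h x, rfl⟩)
    (by
      intro ξ η s hs s' hs' k hk hk'
      obtain ⟨x, hx, hxk⟩ := map_some hk
      obtain ⟨x', hx', hxk'⟩ := map_some hk'
      have h1 := (hT1 ξ s hs).1.bl ξ x hx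
      have h2 := (hT1 η s' hs').1.bl η x' hx'
      have h3 : x = x' := Fr.h.injective (hxk.trans hxk'.symm)
      rw [← h1, ← h2, h3])
    hT2 hT3
  have hA1' : p0 ∈ AtLeast W1 A := by
    rw [← hs0p]
    exact hA1
  refine ⟨A, hA1', fun q hq f hf hmeet => ?_⟩
  obtain ⟨r, hrq, hr⟩ := hA2 q (by
    show q ≤ s0.2.1
    rw [hs0p]
    exact hq) f hmeet
  choose ξ s hsT hrs hel using hr
  have hx : ∀ n, ∃ x, (s n).1.f (ξ n) = some x ∧ Fr.h x = f n := fun n => map_some (hel n)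
  choose x hx hhx using hx
  have hξ : ∀ m n, ξ m = ξ n → m = n := by
    intro m n hmn
    apply hf
    have h1 : s n ≤ s m := hT2 (ξ m) (ξ n) hmn.le (s m) (hsT m) (s n) (hsT n) ⟨r, hrs m, hrs n⟩
    have h2 := h1.1 (ξ m) (x m) (hx m)
    rw [hmn, hx n] at h2
    rw [← hhx m, ← hhx n, Option.some.inj h2]
  have key : ∀ a b c : ℕ, ξ a < ξ b → ξ b < ξ c →
      ∃ r' ≤ q, ∃ t : Finset K, t.card = 3 ∧ (t : Set K) ⊆ range f ∧ r' ∈ D true t := by
    intro a b c hab hbc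
    classical
    have hca : s c ≤ s a := hT2 (ξ a) (ξ c) (hab.trans hbc).le (s a) (hsT a) (s c) (hsT c)
      ⟨r, hrs a, hrs c⟩
    have hcb : s c ≤ s b := hT2 (ξ b) (ξ c) hbc.le (s b) (hsT b) (s c) (hsT c)
      ⟨r, hrs b, hrs c⟩
    have ha := hca.1 _ _ (hx a)
    have hb := hcb.1 _ _ (hx b)
    have hI := (hT1 (ξ c) (s c) (hsT c)).1
    have h1 := hI.i2 _ _ _ _ _ _ hab hbc ha hb (hx c)
    have h2 : pcs Fr.Θ (x a) (x b) (x c) r ∈ Fr.col true :=
      hF (pcs_mono Fr.Θ _ _ _ (hrs c)) h1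
    have ba := hI.bl _ _ ha
    have bb := hI.bl _ _ hb
    have bc := hI.bl _ _ (hx c)
    have xab : x a < x b := hblk _ _ (by rw [ba, bb]; exact hab)
    have xbc : x b < x c := hblk _ _ (by rw [bb, bc]; exact hbc)
    have nab : f a ≠ f b := fun h => hab.ne (by rw [hf h])
    have nbc : f b ≠ f c := fun h => hbc.ne (by rw [hf h])
    have nac : f a ≠ f c := fun h => (hab.trans hbc).ne (by rw [hf h])
    refine ⟨r, hrq, {f a, f b, f c}, ?_, ?_, ?_⟩
    · rw [Finset.card_insert_of_notMem, Finset.card_insert_of_notMem, Finset.card_singleton]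
      · simp only [Finset.mem_singleton]
        exact nbc
      · simp only [Finset.mem_insert, Finset.mem_singleton, not_or]
        exact ⟨nab, nac⟩
    · intro k hk
      simp only [Finset.coe_insert, Finset.coe_singleton, Set.mem_insert_iff,
        Set.mem_singleton_iff] at hk
      rcases hk with h | h | h
      · exact ⟨a, h.symm⟩
      · exact ⟨b, h.symm⟩
      · exact ⟨c, h.symm⟩
    · refine (Fr.spec (x a) (x b) (x c) xab xbc _ ?_ true r).2 h2
      rw [hhx, hhx, hhx]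
      simp
  have d01 : ξ 0 ≠ ξ 1 := fun h => absurd (hξ _ _ h) (by norm_num)
  have d02 : ξ 0 ≠ ξ 2 := fun h => absurd (hξ _ _ h) (by norm_num)
  have d12 : ξ 1 ≠ ξ 2 := fun h => absurd (hξ _ _ h) (by norm_num)
  rcases lt_or_gt_of_ne d01 with h01 | h01 <;> rcases lt_or_gt_of_ne d12 with h12 | h12 <;>
    rcases lt_or_gt_of_ne d02 with h02 | h02
  · exact key 0 1 2 h01 h12
  · exact key 0 1 2 h01 h12
  · exact key 0 2 1 h02 h12
  · exact key 2 0 1 h02 h01
  · exact key 1 0 2 h01 h02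
  · exact key 1 2 0 h12 h02
  · exact key 2 1 0 h12 h01
  · exact key 2 1 0 h12 h01

end Pool.Agent.H644.TP
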