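import Mathlib
import Pool.Agent.H644.TP.Spec

set_option autoImplicit false

/-!
# T9: one step in the first case
-/

namespace Pool.Agent.H644.TP

open Set Cardinal

theorem alphaStep : S_alphaStep := by
  intro E _ hE N G hN hG ρ0 u0 hA F hF hNF Z _ ρ q u w hρ hu hden
  -- (a)
  obtain ⟨c1, hc1, hD1⟩ := (hE.prod hE.pi).meet
    (fun z : Z => {c : E × (ℕ → E) | ∃ w' ≤ w z, ∀ ρ2 ≤ c.1, ∀ a ≤ c.2, ∀ a' ≤ c.2, ∀ b,
      ∀ d ≤ w', ∀ d' ≤ w', (ρ2, a, a', b) ∈ G → (ρ2, q z, a 0, a' 0, d, d', b) ∉ N})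
    (by
      rintro z c c' hcc ⟨w', hw', h⟩
      exact ⟨w', hw', fun ρ2 h1 a h2 a' h3 b d h4 d' h5 h6 =>
        h ρ2 (h1.trans hcc.1) a (h2.trans hcc.2) a' (h3.trans hcc.2) b d h4 d' h5 h6⟩)
    (ρ, u) (by
      intro z c hc
      have h := hden z c.1 hc.1 (q z) le_rfl c.2 hc.2 (w z) le_rfl
      unfold Den at h
      push Not at h
      obtain ⟨ρ', h1, v', h2, w', h3, h4⟩ := h
      exact ⟨(ρ', v'), ⟨h1, h2⟩, w', h3, h4⟩)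
  choose w' hw' hD1 using hD1
  -- (b)
  obtain ⟨ρ', hρ', a, ha, a', ha', b, hGb, hher⟩ :=
    hA c1.1 (hc1.1.trans hρ) c1.2 (hc1.2.trans hu)
  -- (c)
  obtain ⟨c, hc, hD2⟩ := (hE.prod (hE.pi.prod (hE.pi.prod hE))).meet
    (fun z : Z => {c : E × (ℕ → E) × (ℕ → E) × E | ∃ q' ≤ q z, ∃ d ≤ w z, ∃ d' ≤ w z, ∃ e,
      ((c.1, q', c.2.1 0, c.2.2.1 0, d, d', c.2.2.2), e) ∈ F})
    (by
      rintro z c c' hcc ⟨q', hq', d, hd, d', hd', e, he⟩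
      refine ⟨q', hq', d, hd, d', hd', e, hF ?_ he⟩
      exact ⟨⟨hcc.1, le_rfl, hcc.2.1 0, hcc.2.2.1 0, le_rfl, le_rfl, hcc.2.2.2⟩, le_rfl⟩)
    (ρ', a, a', b) (by
      intro z c hc
      have h1 : (c.1, c.2.1, c.2.2.1, c.2.2.2) ∈ G := hG hc hGb
      have h2 : (c.1, q z, c.2.1 0, c.2.2.1 0, w' z, w' z, c.2.2.2) ∉ N :=
        hD1 z c.1 (hc.1.trans hρ') c.2.1 (hc.2.1.trans ha) c.2.2.1 (hc.2.2.1.trans ha') c.2.2.2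
          (w' z) le_rfl (w' z) le_rfl h1
      obtain ⟨⟨r3, q3, x3, x3', d3, d3', b3⟩, ⟨g1, g2, g3, g4, g5, g6, g7⟩, e, he⟩ := hNF _ h2
      refine ⟨(r3, Function.update c.2.1 0 x3, Function.update c.2.2.1 0 x3', b3),
        ⟨g1, ?_, ?_, g7⟩, q3, g2, d3, le_trans g5 (hw' z), d3', le_trans g6 (hw' z), e, ?_⟩
      · exact update_le_iff.2 ⟨g3, fun _ _ => le_rfl⟩
      · exact update_le_iff.2 ⟨g4, fun _ _ => le_rfl⟩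
      · simpa using he)
  refine ⟨c.1, hc.1.trans (hρ'.trans hc1.1), c.2.1, hc.2.1.trans (ha.trans hc1.2), c.2.2.1,
    hc.2.2.1.trans (ha'.trans hc1.2), c.2.2.2, hD2, ?_⟩
  intro ρ2 h1 x2 h2 v2 h3 w2 h4
  exact hher ρ2 (h1.trans hc.1) x2 (h2.trans (hc.2.1 0)) v2 (h3.trans hc.2.2.1) w2
    (h4.trans hc.2.2.2)

end Pool.Agent.H644.TP
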