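import Mathlib
import Pool.Agent.H644.TP.Spec
import Pool.Agent.H644.TP.Amal

set_option autoImplicit false

/-!
# The second case: the generic set
-/

namespace Pool.Agent.H644.TP

open Set Cardinal Pool.Agent.TH766.KT Pool.Agent.Helper669.Forcing Pool.Agent.Helper980.G
  Pool.Agent.Helper669.K

namespace BetaFinalAux

/-- The first difference. -/
noncomputable def dl (f g : ℕ → Bool) : ℕ := sInf {n | f n ≠ g n}

theorem dl_eq {f g : ℕ → Bool} {n : ℕ} (h1 : ∀ l < n, f l = g l) (h2 : f n ≠ g n) :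
    dl f g = n := by
  have hmem : n ∈ {n | f n ≠ g n} := h2
  refine le_antisymm (Nat.sInf_le hmem) ?_
  by_contra h
  rw [not_le] at h
  have h3 : sInf {n | f n ≠ g n} ∈ {n | f n ≠ g n} := Nat.sInf_mem ⟨n, hmem⟩
  exact h3 (h1 _ h)

theorem exists_branch : ∃ r : W1 → ℕ → Bool, Function.Injective r := by
  obtain ⟨r, hr, -⟩ := exists_real
  have h : #ℝ ≤ #(ℕ → Bool) := by
    rw [Cardinal.mk_real]
    simp
  obtain ⟨e⟩ := Cardinal.le_def _ _ |>.1 h
  exact ⟨fun z => e (r z), fun a b hab => hr (e.injective hab)⟩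

/-- Values of a greatest lower bound come from the family. -/
theorem glb_some {ι I V : Type} {p : ι → PF I V} {q : PF I V} (hq : IsGLB (range p) q) {z : I}
    {b : V} (hz : q.f z = some b) : ∃ i, (p i).f z = some b := by
  classical
  by_contra hcon
  push Not at hcon
  have hnone : ∀ i, (p i).f z = none := by
    intro i
    cases h : (p i).f z with
    | none => rfl
    | some b' =>
      have h1 := hq.1 ⟨i, rfl⟩ z b' h
      rw [hz] at h1
      have h2 : b = b' := Option.some.inj h1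
      exact absurd h (h2 ▸ hcon i)
  let q' : PF I V := ⟨fun y => if y = z then none else q.f y, by
    refine q.ctb.mono fun y hy => ?_
    by_cases h : y = z
    · exfalso
      apply hy
      rw [if_pos h]
    · have hy' : (if y = z then none else q.f y) ≠ none := hy
      rw [if_neg h] at hy'
      exact hy'⟩
  have hle : q' ≤ q := by
    refine hq.2 ?_
    rintro _ ⟨i, rfl⟩ y c hc
    show (if y = z then none else q.f y) = some c
    by_cases h : y = z
    · exfalso
      rw [h, hnone i] at hc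
      exact absurd hc (by simp)
    · rw [if_neg h]
      exact hq.1 ⟨i, rfl⟩ y c hc
  have h1 : (if z = z then none else q.f z) = some b := hle z b hz
  rw [if_pos rfl] at h1
  exact absurd h1 (by simp)

/-- Adding one value. -/
noncomputable def ins {X : Type} (t : PF W1 X) (η : W1) (x : X) : PF W1 X := by
  classical
  exact ⟨fun z => if z = η then some x else t.f z, by
    refine (t.ctb.insert η).mono fun z hz => ?_
    by_cases h : z = η
    · exact Or.inl h
    · have hz' : (if z = η then some x else t.f z) ≠ none := hz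
      rw [if_neg h] at hz'
      exact Or.inr hz'⟩

theorem ins_self {X : Type} (t : PF W1 X) (η : W1) (x : X) : (ins t η x).f η = some x := by
  classical
  show (if η = η then some x else t.f η) = some x
  rw [if_pos rfl]

theorem ins_ne {X : Type} (t : PF W1 X) {η z : W1} (x : X) (h : z ≠ η) :
    (ins t η x).f z = t.f z := by
  classical
  show (if z = η then some x else t.f z) = t.f z
  rw [if_neg h]

section

variable {X Λ I : Type} [DecidableEq X] (blk : X → W1) (Θ : Finset X × Λ ↪ I)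
  (U : (ℕ → Bool) → ℕ → Cd Λ) (r : W1 → ℕ → Bool)

/-- The invariant without the domain. -/
structure Inv0 (s : PF W1 X × Cd I) : Prop where
  blk : ∀ z x, s.1.f z = some x → blk x = z
  own : ∀ z x, s.1.f z = some x → pc Θ {x} s.2 ≤ U (r z) 0
  pair : ∀ z z' x x', z < z' → s.1.f z = some x → s.1.f z' = some x' →
    pc Θ {x, x'} s.2 ≤ U (r z') (dl (r z) (r z') + 1)

/-- The invariant. -/
def Inv (η : W1) (s : PF W1 X × Cd I) : Prop :=
  (∀ z, s.1.f z ≠ none ↔ z ≤ η) ∧ Inv0 blk Θ U r s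

theorem exists_some {η z : W1} {s : PF W1 X × Cd I} (h : Inv blk Θ U r η s) (hz : z ≤ η) :
    ∃ x, s.1.f z = some x := Option.ne_none_iff_exists'.1 ((h.1 z).2 hz)

/-- The hypothesis of the path lemma. -/
theorem step (hne : ∀ ξ, ¬ {x | blk x = ξ}.Countable) (p0 : Cd I) (η : W1)
    (s : W1 → PF W1 X × Cd I)
    (h1 : ∀ ξ < η, Inv blk Θ U r ξ (s ξ) ∧ s ξ ≤ ((⊤, p0) : PF W1 X × Cd I))
    (h2 : ∀ ξ ξ', ξ ≤ ξ' → ξ' < η → s ξ' ≤ s ξ) :
    ∃ t ≤ ((⊤, p0) : PF W1 X × Cd I), (∀ ξ < η, t ≤ s ξ) ∧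
      (∀ q ≤ p0, (∀ ξ < η, q ≤ (s ξ).2) → q ≤ t.2) ∧
      ∀ q ≤ t.2, ∃ t' ≤ t, Inv blk Θ U r η t' ∧ t'.2 ≤ q := by
  classical
  have hctb : Countable (Iio η) := (countable_Iio η).to_subtype
  let a1 : Option (Iio η) → PF W1 X := fun o => o.elim ⊤ fun ξ => (s ξ.1).1
  let a2 : Option (Iio η) → Cd I := fun o => o.elim p0 fun ξ => (s ξ.1).2
  have hcomp : ∀ o o' : Option (Iio η), ∃ o'' : Option (Iio η), a1 o'' ≤ a1 o ∧ a1 o'' ≤ a1 o' ∧
      a2 o'' ≤ a2 o ∧ a2 o'' ≤ a2 o' := by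
    intro o o'
    cases o with
    | none =>
      refine ⟨o', ?_, le_rfl, ?_, le_rfl⟩
      · exact le_top
      · cases o' with
        | none => exact le_rfl
        | some ξ => exact (h1 ξ.1 ξ.2).2.2
    | some ξ =>
      cases o' with
      | none => exact ⟨some ξ, le_rfl, le_top, le_rfl, (h1 ξ.1 ξ.2).2.2⟩
      | some ξ' =>
        rcases le_total ξ.1 ξ'.1 with h | h
        · exact ⟨some ξ', (h2 _ _ h ξ'.2).1, le_rfl, (h2 _ _ h ξ'.2).2, le_rfl⟩
        · exact ⟨some ξ, le_rfl, (h2 _ _ h ξ.2).1, le_rfl, (h2 _ _ h ξ.2).2⟩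
  obtain ⟨t1, ht1⟩ := PF.exists_glb a1 (fun o o' => by
    obtain ⟨o'', h3, h4, -, -⟩ := hcomp o o'
    exact ⟨a1 o'', h3, h4⟩)
  obtain ⟨t2, ht2⟩ := PF.exists_glb a2 (fun o o' => by
    obtain ⟨o'', -, -, h3, h4⟩ := hcomp o o'
    exact ⟨a2 o'', h3, h4⟩)
  have hts : ∀ ξ < η, ((t1, t2) : PF W1 X × Cd I) ≤ s ξ := fun ξ hξ =>
    ⟨ht1.1 ⟨some ⟨ξ, hξ⟩, rfl⟩, ht2.1 ⟨some ⟨ξ, hξ⟩, rfl⟩⟩
  -- the values of `t1`
  have hval : ∀ z x, t1.f z = some x → z < η ∧ (s z).1.f z = some x := by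
    intro z x hz
    obtain ⟨o, ho⟩ := glb_some ht1 hz
    cases o with
    | none => exact absurd ho (by simp [a1])
    | some ξ =>
      have ho' : (s ξ.1).1.f z = some x := ho
      have h3 : z ≤ ξ.1 := ((h1 ξ.1 ξ.2).1.1 z).1 (by rw [ho']; simp)
      have hzη : z < η := h3.trans_lt ξ.2
      obtain ⟨x', hx'⟩ := exists_some blk Θ U r (h1 z hzη).1 le_rfl
      have h4 := (hts z hzη).1 z x' hx'
      have h5 : t1.f z = some x' := h4
      rw [hz] at h5
      exact ⟨hzη, by rw [hx', h5]⟩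
  have hdom : ∀ z < η, ∃ x, t1.f z = some x := by
    intro z hz
    obtain ⟨x, hx⟩ := exists_some blk Θ U r (h1 z hz).1 le_rfl
    exact ⟨x, (hts z hz).1 z x hx⟩
  have hinv : Inv0 blk Θ U r (t1, t2) := by
    refine ⟨fun z x hz => ?_, fun z x hz => ?_, fun z z' x x' hzz hz hz' => ?_⟩
    · obtain ⟨h3, h4⟩ := hval z x hz
      exact (h1 z h3).1.2.blk z x h4
    · obtain ⟨h3, h4⟩ := hval z x hz
      exact (pc_mono Θ _ (hts z h3).2).trans ((h1 z h3).1.2.own z x h4)
    · obtain ⟨h3, h4⟩ := hval z x hz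
      obtain ⟨h5, h6⟩ := hval z' x' hz'
      have h7 : (s z').1.f z = some x := (h2 z z' hzz.le h5).1 z x h4
      exact (pc_mono Θ _ (hts z' h5).2).trans ((h1 z' h5).1.2.pair z z' x x' hzz h7 h6)
  refine ⟨(t1, t2), ⟨le_top, ht2.1 ⟨none, rfl⟩⟩, hts, ?_, ?_⟩
  · intro q hq hq'
    refine ht2.2 ?_
    rintro _ ⟨o, rfl⟩
    cases o with
    | none => exact hq
    | some ξ => exact hq' ξ.1 ξ.2
  · intro q hq
    have hq2 : q ≤ t2 := hq
    obtain ⟨x, hx, hfr⟩ := exists_fresh Θ q {x | blk x = η} (hne η)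
    have hx' : blk x = η := hx
    choose X' hX' using fun z : Iio η => hdom z.1 z.2
    have hXblk : ∀ z : Iio η, blk (X' z) = z.1 := fun z => hinv.blk z.1 (X' z) (hX' z)
    have hXne : ∀ z : Iio η, X' z ≠ x := by
      intro z h
      have h3 := hXblk z
      rw [h, hx'] at h3
      have h4 : z.1 < η := z.2
      rw [← h3] at h4
      exact lt_irrefl _ h4
    obtain ⟨q1, hq1, hq1x, hq1o⟩ := amal_one Θ q {x} (U (r η) 0) (by
      rw [hfr {x} (Finset.mem_singleton_self x)]
      exact le_top)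
    have hFinj : Function.Injective fun z : Iio η => ({X' z, x} : Finset X) := by
      intro z z' h
      have h3 : X' z ∈ ({X' z', x} : Finset X) := by
        have h4 : X' z ∈ ({X' z, x} : Finset X) := Finset.mem_insert_self _ _
        have h5 : ({X' z, x} : Finset X) = {X' z', x} := h
        rw [h5] at h4
        exact h4
      rw [Finset.mem_insert, Finset.mem_singleton] at h3
      rcases h3 with h3 | h3
      · apply Subtype.ext
        rw [← hXblk z, ← hXblk z', h3]
      · exact absurd h3 (hXne z)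
    obtain ⟨q2, hq2', hq2F, -⟩ := amal Θ q1 (fun z : Iio η => ({X' z, x} : Finset X))
      (fun z => U (r η) (dl (r z.1) (r η) + 1)) hFinj (fun z => by
        have h3 : ({X' z, x} : Finset X) ≠ {x} := by
          intro h
          have h4 : X' z ∈ ({x} : Finset X) := by
            rw [← h]
            exact Finset.mem_insert_self _ _
          exact hXne z (Finset.mem_singleton.1 h4)
        show U (r η) (dl (r z.1) (r η) + 1) ≤ pc Θ {X' z, x} q1
        rw [hq1o _ h3, hfr {X' z, x} (by simp)]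
        exact le_top)
    have hq2t : q2 ≤ t2 := (hq2'.trans hq1).trans hq2
    have hη : t1.f η = none := by
      cases h : t1.f η with
      | none => rfl
      | some y => exact absurd (hval η y h).1 (lt_irrefl _)
    refine ⟨(ins t1 η x, q2), ⟨?_, hq2t⟩, ⟨?_, ?_⟩, hq2'.trans hq1⟩
    · intro z y hy
      have h3 : z ≠ η := by
        rintro rfl
        rw [hη] at hy
        exact absurd hy (by simp)
      show (ins t1 η x).f z = some y
      rw [ins_ne t1 x h3]
      exact hy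
    · intro z
      show (ins t1 η x).f z ≠ none ↔ z ≤ η
      by_cases h : z = η
      · subst h
        rw [ins_self]
        simp
      · rw [ins_ne t1 x h]
        constructor
        · intro h3
          obtain ⟨y, hy⟩ := Option.ne_none_iff_exists'.1 h3
          exact (hval z y hy).1.le
        · intro h3
          obtain ⟨y, hy⟩ := hdom z (lt_of_le_of_ne h3 h)
          rw [hy]
          simp
    · have hcase : ∀ z y, (ins t1 η x).f z = some y → (z = η ∧ y = x) ∨ t1.f z = some y := by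
        intro z y hy
        by_cases h : z = η
        · subst h
          rw [ins_self] at hy
          exact Or.inl ⟨rfl, (Option.some.inj hy).symm⟩
        · rw [ins_ne t1 x h] at hy
          exact Or.inr hy
      refine ⟨fun z y hz => ?_, fun z y hz => ?_, fun z z' y y' hzz hz hz' => ?_⟩
      · rcases hcase z y hz with ⟨rfl, rfl⟩ | h
        · exact hx'
        · exact hinv.blk z y h
      · rcases hcase z y hz with ⟨rfl, rfl⟩ | h
        · show pc Θ {y} q2 ≤ _
          refine (pc_mono Θ _ hq2').trans ?_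
          rw [hq1x]
        · exact (pc_mono Θ _ hq2t).trans (hinv.own z y h)
      · rcases hcase z' y' hz' with ⟨rfl, rfl⟩ | h'
        · rcases hcase z y hz with ⟨rfl, rfl⟩ | h
          · exact absurd hzz (lt_irrefl _)
          · have h3 : z < z' := hzz
            have h4 := hX' ⟨z, h3⟩
            have h5 : t1.f z = some (X' ⟨z, h3⟩) := h4
            rw [h] at h5
            have h6 : y = X' ⟨z, h3⟩ := Option.some.inj h5
            have h7 := hq2F ⟨z, h3⟩
            show pc Θ {y, y'} q2 ≤ _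
            rw [h6]
            exact h7.le
        · rcases hcase z y hz with ⟨rfl, rfl⟩ | h
          · exact absurd (hzz.trans (hval z' y' h').1) (lt_irrefl _)
          · exact (pc_mono Θ _ hq2t).trans (hinv.pair z z' y y' hzz h h')

end

/-- An injective sequence in `W1` has a strictly increasing subsequence. -/
theorem exists_incr (ξ : ℕ → W1) (hξ : Function.Injective ξ) :
    ∃ g : ℕ → ℕ, StrictMono g ∧ StrictMono fun k => ξ (g k) := by
  obtain ⟨g, hg⟩ := exists_increasing_or_nonincreasing_subseq (· < ·) ξ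
  refine ⟨g, g.strictMono, ?_⟩
  rcases hg with hg | hg
  · exact fun m n hmn => hg m n hmn
  · exfalso
    have h1 : ∀ n, ξ (g (n + 1)) < ξ (g n) := by
      intro n
      have h2 := hg n (n + 1) (Nat.lt_succ_self n)
      refine lt_of_le_of_ne (not_lt.1 h2) fun h3 => ?_
      have h4 := g.injective (hξ h3)
      omega
    obtain ⟨z, ⟨n, rfl⟩, hz⟩ := (wellFounded_lt (α := W1)).has_min
      (range fun n => ξ (g n)) ⟨_, 0, rfl⟩
    exact hz _ ⟨n + 1, rfl⟩ (h1 n)

end BetaFinalAux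

open BetaFinalAux

theorem betaFinal : S_path → S_names → S_comb → S_betaFinal := by
  classical
  intro hpath hnames hcomb I K X _ blk hblk hne D Fr ρ0 U hU p0 hp0
  obtain ⟨r, hr⟩ := exists_branch
  obtain ⟨T, hT1, hT2, hT3⟩ := hpath (Cd I) (PF W1 X × Cd I) (fun s => s.2)
    (Inv blk Fr.Θ U r) (⊤, p0) (sigmaClosed_PF I Bool) monotone_snd
    (fun η s h1 h2 => step blk Fr.Θ U r hne p0 η s h1 h2)
  obtain ⟨A, hA1, hA2⟩ := hnames (Cd I) (PF W1 X × Cd I) K (fun s => s.2)
    (fun s ξ => (s.1.f ξ).map Fr.h) (⊤, p0) T (sigmaClosed_PF I Bool) monotone_snd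
    (by
      intro s s' hs ξ k hk
      obtain ⟨x, hx, rfl⟩ := Option.map_eq_some_iff.1 hk
      exact Option.map_eq_some_iff.2 ⟨x, hs.1 ξ x hx, rfl⟩)
    (by
      intro ξ s hs
      refine ⟨(hT1 ξ s hs).2, ?_⟩
      obtain ⟨x, hx⟩ := exists_some blk Fr.Θ U r (hT1 ξ s hs).1 le_rfl
      exact ⟨Fr.h x, Option.map_eq_some_iff.2 ⟨x, hx, rfl⟩⟩)
    (by
      intro ξ η s hs s' hs' k hk hk'
      obtain ⟨x, hx, rfl⟩ := Option.map_eq_some_iff.1 hk
      obtain ⟨x', hx', h3⟩ := Option.map_eq_some_iff.1 hk'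
      have h4 : x' = x := Fr.h.injective h3
      rw [h4] at hx'
      rw [← (hT1 ξ s hs).1.2.blk ξ x hx, ← (hT1 η s' hs').1.2.blk η x hx'])
    hT2 hT3
  refine ⟨A, hA1, fun q hq f hf hqA => ?_⟩
  obtain ⟨r', hr', hall⟩ := hA2 q hq f hqA
  choose ξ s hs hrs hel using hall
  have hx : ∀ n, ∃ x, (s n).1.f (ξ n) = some x ∧ Fr.h x = f n := fun n =>
    Option.map_eq_some_iff.1 (hel n)
  choose x hx hfx using hx
  have hle : ∀ m n, ξ m ≤ ξ n → s n ≤ s m := fun m n hmn =>
    hT2 (ξ m) (ξ n) hmn (s m) (hs m) (s n) (hs n) ⟨r', hrs m, hrs n⟩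
  have hξ : Function.Injective ξ := by
    intro m n hmn
    have h1 := (hle m n hmn.le).1 (ξ m) (x m) (hx m)
    rw [hmn, hx n] at h1
    have h2 : x n = x m := Option.some.inj h1
    apply hf
    rw [← hfx m, ← hfx n, h2]
  obtain ⟨g, hg, hgξ⟩ := exists_incr ξ hξ
  obtain ⟨i, j, k, hij, hjk, n, m, b, hnm, e1, e2, e3, e4, e5, e6⟩ :=
    hcomb (fun k => r (ξ (g k))) (fun a c h => hg.injective (hξ (hr h)))
  have hbn : ∀ b : Bool, b ≠ !b := by decide
  have d1 : dl (r (ξ (g i))) (r (ξ (g j))) = n := dl_eq e1 (by rw [e3, e4]; exact hbn b)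
  have d2 : dl (r (ξ (g i))) (r (ξ (g k))) = n := by
    refine dl_eq (fun l hl => (e1 l hl).trans (e2 l (hl.trans hnm))) ?_
    rw [e3, ← e2 n hnm, e4]
    exact hbn b
  have d3 : dl (r (ξ (g j))) (r (ξ (g k))) = m := dl_eq e2 (by rw [e5, e6]; exact hbn b)
  have hξij : ξ (g i) < ξ (g j) := hgξ hij
  have hξjk : ξ (g j) < ξ (g k) := hgξ hjk
  have hξik : ξ (g i) < ξ (g k) := hξij.trans hξjk
  have hI := (hT1 _ _ (hs (g k))).1.2
  have v1 : (s (g k)).1.f (ξ (g i)) = some (x (g i)) := (hle _ _ hξik.le).1 _ _ (hx (g i))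
  have v2 : (s (g k)).1.f (ξ (g j)) = some (x (g j)) := (hle _ _ hξjk.le).1 _ _ (hx (g j))
  have v3 : (s (g k)).1.f (ξ (g k)) = some (x (g k)) := hx (g k)
  have b1 := hI.blk _ _ v1
  have b2 := hI.blk _ _ v2
  have b3 := hI.blk _ _ v3
  have hxy : x (g i) < x (g j) := hblk _ _ (by rw [b1, b2]; exact hξij)
  have hyz : x (g j) < x (g k) := hblk _ _ (by rw [b2, b3]; exact hξjk)
  have hB := hU n m b (r (ξ (g i))) (r (ξ (g j))) (r (ξ (g k))) hnm e1 e2 e3 e4 e5 e6
  have hrk : r' ≤ (s (g k)).2 := hrs (g k)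
  have c1 := (pc_mono Fr.Θ _ hrk).trans (hI.own _ _ v1)
  have c2 := (pc_mono Fr.Θ _ hrk).trans (hI.own _ _ v2)
  have c3 := (pc_mono Fr.Θ _ hrk).trans (hI.own _ _ v3)
  have c4 := (pc_mono Fr.Θ _ hrk).trans (hI.pair _ _ _ _ hξij v1 v2)
  have c5 := (pc_mono Fr.Θ _ hrk).trans (hI.pair _ _ _ _ hξik v1 v3)
  have c6 := (pc_mono Fr.Θ _ hrk).trans (hI.pair _ _ _ _ hξjk v2 v3)
  rw [d1] at c4
  rw [d2] at c5
  rw [d3] at c6
  have c0 : pc Fr.Θ ∅ r' ≤ ρ0 := (pc_mono Fr.Θ _ (hr'.trans hq)).trans hp0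
  refine ⟨r', hr', {Fr.h (x (g i)), Fr.h (x (g j)), Fr.h (x (g k))}, ?_, ?_, ?_⟩
  · refine Finset.card_eq_three.2 ⟨_, _, _, ?_, ?_, ?_, rfl⟩
    · exact fun h => hxy.ne (Fr.h.injective h)
    · exact fun h => (hxy.trans hyz).ne (Fr.h.injective h)
    · exact fun h => hyz.ne (Fr.h.injective h)
  · intro y hy
    rw [Finset.mem_coe, Finset.mem_insert, Finset.mem_insert, Finset.mem_singleton] at hy
    rcases hy with rfl | rfl | rfl
    · exact ⟨_, (hfx _).symm⟩
    · exact ⟨_, (hfx _).symm⟩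
    · exact ⟨_, (hfx _).symm⟩
  · rw [Fr.spec (x (g i)) (x (g j)) (x (g k)) hxy hyz _ (by simp) false r']
    refine Fr.zero _ (fun t' ht' e => ?_) _
    refine hB t' (ht'.trans ?_) e
    exact ⟨c0, c1, c2, c3, c4, c5, c6⟩

end Pool.Agent.H644.TP
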