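import Pool.Agent.H644.TP.Spec

set_option autoImplicit false

/-!
# The second case: a perfect tree of types (T11)
-/

namespace Pool.Agent.H644.TP

open Set

namespace BT

variable {E : Type}

/-- bi-gadgets -/
abbrev B (E : Type) : Type := E × (Bool → ℕ → E) × (Bool → E)

/-- `x` at `b`, `y` at `!b` -/
def sel {α : Type} (b : Bool) (y x : α) : Bool → α := fun b' => if b' = b then x else y

@[simp] theorem sel_self {α : Type} (b : Bool) (y x : α) : sel b y x b = x := by simp [sel]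

@[simp] theorem sel_not {α : Type} (b : Bool) (y x : α) : sel b y x (!b) = y := by
  cases b <;> simp [sel]

theorem sel_eq {α : Type} (b : Bool) (f : Bool → α) : sel b (f (!b)) (f b) = f := by
  funext b'
  cases b <;> cases b' <;> simp [sel]

theorem sel_mono {α : Type} [Preorder α] (b : Bool) {y x y' x' : α} (h1 : y ≤ y') (h2 : x ≤ x') :
    sel b y x ≤ sel b y' x' := by
  intro b'
  by_cases h : b' = b
  · simp only [sel, if_pos h]; exact h2
  · simp only [sel, if_neg h]; exact h1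

theorem all_of {b : Bool} {P : Bool → Prop} (h1 : P b) (h2 : P (!b)) : ∀ b', P b' := by
  intro b'
  cases b <;> cases b' <;> simp_all

theorem low {α : Type} [Preorder α] {s : Set α} (hs : IsLowerSet s) {a b : α} (ha : a ∈ s)
    (hab : b ≤ a) : b ∈ s := hs hab ha

variable [PartialOrder E]

/-- the gadgets of one side -/
def G (b : Bool) (X : Set (B E)) : Set (G4 E) :=
  {p | ∃ e : E, (p.1, sel b p.2.1 p.2.2.1, sel b e p.2.2.2) ∈ X}

theorem G_lower (b : Bool) {X : Set (B E)} (hX : IsLowerSet X) : IsLowerSet (G b X) := by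
  rintro ⟨p1, p2, p3, p4⟩ ⟨q1, q2, q3, q4⟩ ⟨h1, h2, h3, h4⟩ ⟨e, he⟩
  exact ⟨e, low hX he ⟨h1, sel_mono b h2 h3, sel_mono b le_rfl h4⟩⟩

theorem G_of (b : Bool) {X : Set (B E)} {ρ : E} {r : Bool → ℕ → E} {c : Bool → E}
    (h : (ρ, r, c) ∈ X) : ((ρ, r (!b), r b, c b) : G4 E) ∈ G b X := by
  refine ⟨c (!b), ?_⟩
  show (ρ, sel b (r (!b)) (r b), sel b (c (!b)) (c b)) ∈ X
  rw [sel_eq, sel_eq]
  exact h

theorem Den_mono {N : Set (T7 E)} (hN : IsLowerSet N) {G : Set (G4 E)} {ρ ρ' q q' w w' : E}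
    {v v' : ℕ → E} (h : Den N G ρ q v w) (h1 : ρ' ≤ ρ) (h2 : q' ≤ q) (h3 : v' ≤ v) (h4 : w' ≤ w) :
    Den N G ρ' q' v' w' := by
  intro ρ1 k1 v1 k2 w1 k3
  obtain ⟨ρ2, l1, a, l2, a', l3, b, d, l4, d', l5, l6, l7⟩ :=
    h ρ1 (k1.trans h1) v1 (k2.trans h3) w1 (k3.trans h4)
  exact ⟨ρ2, l1, a, l2, a', l3, b, d, l4, d', l5, l6,
    low hN l7 ⟨le_rfl, h2, le_rfl, le_rfl, le_rfl, le_rfl, le_rfl⟩⟩

/-- density -/
def Dn (X : Set (B E)) (ρ : E) (u : ℕ → E) : Prop :=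
  ∀ ρ' ≤ ρ, ∀ v ≤ u, ∃ ρ2 ≤ ρ', ∃ r c, (ρ2, r, c) ∈ X ∧ ∀ b, r b ≤ v

/-- dependence on the first entries only -/
def Dp (n : ℕ) (X : Set (B E)) : Prop :=
  ∀ (ρ : E) (r r' : Bool → ℕ → E) (c : Bool → E), (∀ b, ∀ i ≤ n, r b i = r' b i) →
    (ρ, r, c) ∈ X → (ρ, r', c) ∈ X

/-- one side -/
theorem one {N : Set (T7 E)} (b : Bool) {X : Set (B E)} (hX : IsLowerSet X) {ρ : E} {u : ℕ → E}
    (hα : ¬ Alpha N (G b X) ρ u) : ∃ ρ1 ≤ ρ, ∃ u1 ≤ u, ∀ ρ2 ≤ ρ1, ∀ r c, (ρ2, r, c) ∈ X →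
      (∀ b', r b' ≤ u1) → ∃ ρ3 ≤ ρ2, ∃ r' ≤ r, ∃ c' ≤ c, (ρ3, r', c') ∈ X ∧
        Den N (G b X) ρ3 (r' (!b) 0) (r' b) (c' b) := by
  unfold Alpha at hα
  push Not at hα
  obtain ⟨ρ1, h1, u1, h2, h3⟩ := hα
  refine ⟨ρ1, h1, u1, h2, fun ρ2 h4 r c h5 h6 => ?_⟩
  obtain ⟨ρ3, h7, x3, h8, v3, h9, w3, h10, h11⟩ :=
    h3 ρ2 h4 (r (!b)) (h6 _) (r b) (h6 _) (c b) (G_of b h5)
  have h12 : Function.update (r (!b)) 0 x3 ≤ r (!b) := by
    intro i
    by_cases hi : i = 0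
    · subst hi; rw [Function.update_self]; exact h8
    · rw [Function.update_of_ne hi]
  have h13 : sel b (Function.update (r (!b)) 0 x3) v3 ≤ r := by
    have := sel_mono b h12 h9
    rwa [sel_eq] at this
  have h14 : sel b (c (!b)) w3 ≤ c := by
    have := sel_mono b (le_refl (c (!b))) h10
    rwa [sel_eq] at this
  refine ⟨ρ3, h7, _, h13, _, h14, low hX h5 ⟨h7, h13, h14⟩, ?_⟩
  rw [sel_not, sel_self, sel_self, Function.update_self]
  exact h11

/-- splitting of a node -/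
theorem split {N : Set (T7 E)} (hN : IsLowerSet N) {X : Set (B E)} (hX : IsLowerSet X) {ρ : E}
    {u : ℕ → E} (hα : ∀ G : Set (G4 E), IsLowerSet G → ∀ ρ' ≤ ρ, ∀ u : ℕ → E, ¬ Alpha N G ρ' u)
    (hd : Dn X ρ u) (ρ' : E) (hρ : ρ' ≤ ρ) :
    ∃ ρ4 ≤ ρ', ∃ r c, (ρ4, r, c) ∈ X ∧ (∀ b, r b ≤ u) ∧
      ∀ b, Den N (G b X) ρ4 (r (!b) 0) (r b) (c b) := by
  obtain ⟨ρ1, h1, u1, h2, h3⟩ := one true hX (hα (G true X) (G_lower true hX) ρ' hρ u)
  obtain ⟨ρ2, h4, u2, h5, h6⟩ := one false hX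
    (hα (G false X) (G_lower false hX) ρ1 (h1.trans hρ) u1)
  obtain ⟨ρ3, h7, r, c, h8, h9⟩ := hd ρ2 (h4.trans (h1.trans hρ)) u2 (h5.trans h2)
  obtain ⟨ρ4, h10, r', h11, c', h12, h13, h14⟩ :=
    h3 ρ3 (h7.trans h4) r c h8 (fun b => (h9 b).trans h5)
  obtain ⟨ρ5, h15, r2, h16, c2, h17, h18, h19⟩ :=
    h6 ρ4 (h10.trans h7) r' c' h13 (fun b => (h11 b).trans (h9 b))
  refine ⟨ρ5, h15.trans (h10.trans (h7.trans (h4.trans h1))), r2, c2, h18,
    fun b => (h16 b).trans ((h11 b).trans ((h9 b).trans (h5.trans h2))), ?_⟩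
  intro b
  cases b
  · exact h19
  · exact Den_mono hN h14 h15 (h16 _ _) (h16 _) (h17 _)

/-- the bi-gadgets of a child -/
def child (N : Set (T7 E)) (n : ℕ) (X : Set (B E)) (r : Bool → ℕ → E) (b : Bool) : Set (B E) :=
  {p | p ∈ X ∧ (p.1, r (!b) 0, p.2.1 (!b) 0, p.2.1 b 0, p.2.1 (!b) (n + 1), p.2.1 b (n + 1),
    p.2.2 b) ∈ N}

theorem child_lower {N : Set (T7 E)} (hN : IsLowerSet N) (n : ℕ) {X : Set (B E)}
    (hX : IsLowerSet X) (r : Bool → ℕ → E) (b : Bool) : IsLowerSet (child N n X r b) := by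
  rintro ⟨p1, p2, p3⟩ ⟨q1, q2, q3⟩ ⟨h1, h2, h3⟩ ⟨h4, h5⟩
  exact ⟨low hX h4 ⟨h1, h2, h3⟩,
    low hN h5 ⟨h1, le_rfl, h2 _ _, h2 _ _, h2 _ _, h2 _ _, h3 _⟩⟩

theorem child_dp {N : Set (T7 E)} (n : ℕ) {X : Set (B E)} (hX : Dp n X) (r : Bool → ℕ → E)
    (b : Bool) : Dp (n + 1) (child N n X r b) := by
  rintro ρ a a' c h ⟨h1, h2⟩
  refine ⟨hX ρ a a' c (fun b i hi => h b i (hi.trans (Nat.le_succ n))) h1, ?_⟩
  have e1 := h (!b) 0 (Nat.zero_le _)
  have e2 := h b 0 (Nat.zero_le _)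
  have e3 := h (!b) (n + 1) le_rfl
  have e4 := h b (n + 1) le_rfl
  show (ρ, r (!b) 0, a' (!b) 0, a' b 0, a' (!b) (n + 1), a' b (n + 1), c b) ∈ N
  rw [← e1, ← e2, ← e3, ← e4]
  exact h2

theorem child_dn {N : Set (T7 E)} (n : ℕ) {X : Set (B E)} (hX : Dp n X) {ρ : E}
    {r : Bool → ℕ → E} {c : Bool → E} (b : Bool)
    (h : Den N (G b X) ρ (r (!b) 0) (r b) (c b)) :
    Dn (child N n X r b) ρ (Function.update (r b) (n + 1) (c b)) := by
  intro ρ' hρ v hv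
  have h1 : Function.update v (n + 1) (r b (n + 1)) ≤ r b := by
    intro i
    by_cases hi : i = n + 1
    · subst hi; rw [Function.update_self]
    · rw [Function.update_of_ne hi]
      have := hv i
      rwa [Function.update_of_ne hi] at this
  have h2 : v (n + 1) ≤ c b := by
    have := hv (n + 1)
    rwa [Function.update_self] at this
  obtain ⟨ρ2, k1, a, k2, a', k3, e, d, k4, d', k5, ⟨e', k6⟩, k7⟩ := h ρ' hρ _ h1 _ h2
  refine ⟨ρ2, k1, sel b (Function.update a (n + 1) d) (Function.update a' (n + 1) d'),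
    sel b e' e, ⟨?_, ?_⟩, ?_⟩
  · refine hX ρ2 _ _ _ ?_ k6
    intro b' i hi
    have hi' : i ≠ n + 1 := by omega
    by_cases hb : b' = b
    · simp only [sel, if_pos hb]
      rw [Function.update_of_ne hi']
    · simp only [sel, if_neg hb]
      rw [Function.update_of_ne hi']
  · simp only [sel_self, sel_not]
    rw [Function.update_self, Function.update_self, Function.update_of_ne (by omega),
      Function.update_of_ne (by omega)]
    exact k7
  · have m1 : Function.update a (n + 1) d ≤ v := by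
      intro i
      by_cases hi : i = n + 1
      · subst hi; rw [Function.update_self]; exact k4
      · rw [Function.update_of_ne hi]
        have := k2 i
        rwa [Function.update_of_ne hi] at this
    have m2 : Function.update a' (n + 1) d' ≤ v := by
      intro i
      by_cases hi : i = n + 1
      · subst hi; rw [Function.update_self]; exact k5
      · rw [Function.update_of_ne hi]
        have := k3 i
        rwa [Function.update_of_ne hi] at this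
    refine all_of (b := b) ?_ ?_
    · rw [sel_self]; exact m2
    · rw [sel_not]; exact m1

/-- states -/
structure St (E : Type) where
  ρ : E
  u : List Bool → ℕ → E
  X : List Bool → Set (B E)

/-- the invariants -/
def Inv (ρ0 : E) (n : ℕ) (S : St E) : Prop :=
  S.ρ ≤ ρ0 ∧ ∀ s, s.length = n → IsLowerSet (S.X s) ∧ Dp n (S.X s) ∧ Dn (S.X s) S.ρ (S.u s)

/-- the successor -/
def Nx (N : Set (T7 E)) (n : ℕ) (S S' : St E) : Prop :=
  S'.ρ ≤ S.ρ ∧ ∃ (r : List Bool → Bool → ℕ → E) (c : List Bool → Bool → E),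
    ∀ s, s.length = n → (S'.ρ, r s, c s) ∈ S.X s ∧ (∀ b, r s b ≤ S.u s) ∧
      ∀ b, S'.u (b :: s) = Function.update (r s b) (n + 1) (c s b) ∧
        S'.X (b :: s) = child N n (S.X s) (r s) b

theorem step (hE : SigmaClosed E) {N : Set (T7 E)} (hN : IsLowerSet N) {ρ0 : E}
    (hα : ∀ G : Set (G4 E), IsLowerSet G → ∀ ρ ≤ ρ0, ∀ u : ℕ → E, ¬ Alpha N G ρ u) (n : ℕ)
    (S : St E) (hS : Inv ρ0 n S) : ∃ S', Inv ρ0 (n + 1) S' ∧ Nx N n S S' := by
  obtain ⟨hρ, hs⟩ := hS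
  obtain ⟨ρ', hρ', h⟩ := hE.meet (Z := {s : List Bool // s.length = n})
    (fun s => {ρ | ∃ r c, (ρ, r, c) ∈ S.X s.1 ∧ (∀ b, r b ≤ S.u s.1) ∧
      ∀ b, Den N (G b (S.X s.1)) ρ (r (!b) 0) (r b) (c b)}) (by
      rintro ⟨s, hsn⟩ ρ1 ρ2 h12 ⟨r, c, k1, k2, k3⟩
      exact ⟨r, c, low (hs s hsn).1 k1 ⟨h12, le_rfl, le_rfl⟩, k2,
        fun b => Den_mono hN (k3 b) h12 le_rfl le_rfl le_rfl⟩) S.ρ (by
      rintro ⟨s, hsn⟩ ρ1 h1
      obtain ⟨l1, l2, l3⟩ := hs s hsn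
      obtain ⟨ρ4, m1, r, c, m2, m3, m4⟩ := split hN l1
        (fun G hG ρ2 h2 u => hα G hG ρ2 (h2.trans hρ) u) l3 ρ1 h1
      exact ⟨ρ4, m1, r, c, m2, m3, m4⟩)
  have hex : ∀ s : List Bool, ∃ rc : (Bool → ℕ → E) × (Bool → E), s.length = n →
      (ρ', rc.1, rc.2) ∈ S.X s ∧ (∀ b, rc.1 b ≤ S.u s) ∧
      ∀ b, Den N (G b (S.X s)) ρ' (rc.1 (!b) 0) (rc.1 b) (rc.2 b) := by
    intro s
    by_cases hsn : s.length = n
    · obtain ⟨r, c, k1, k2, k3⟩ := h ⟨s, hsn⟩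
      exact ⟨(r, c), fun _ => ⟨k1, k2, k3⟩⟩
    · exact ⟨(fun _ _ => ρ0, fun _ => ρ0), fun h' => absurd h' hsn⟩
  choose rc hrc using hex
  let S' : St E :=
    { ρ := ρ'
      u := fun l => match l with
        | [] => fun _ => ρ0
        | b :: s => Function.update ((rc s).1 b) (n + 1) ((rc s).2 b)
      X := fun l => match l with
        | [] => univ
        | b :: s => child N n (S.X s) (rc s).1 b }
  refine ⟨S', ⟨hρ'.trans hρ, ?_⟩, hρ', fun s => (rc s).1, fun s => (rc s).2, ?_⟩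
  · intro l hl
    cases l with
    | nil => exact absurd hl (by simp)
    | cons b s =>
      have hsn : s.length = n := by simpa using hl
      obtain ⟨l1, l2, l3⟩ := hs s hsn
      obtain ⟨k1, k2, k3⟩ := hrc s hsn
      exact ⟨child_lower hN n l1 _ b, child_dp n l2 _ b, child_dn n l2 b (k3 b)⟩
  · intro s hsn
    obtain ⟨k1, k2, k3⟩ := hrc s hsn
    exact ⟨k1, k2, fun b => ⟨rfl, rfl⟩⟩

/-- the sequence of states -/
theorem exists_seq (hE : SigmaClosed E) {N : Set (T7 E)} (hN : IsLowerSet N) {ρ0 : E}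
    (hα : ∀ G : Set (G4 E), IsLowerSet G → ∀ ρ ≤ ρ0, ∀ u : ℕ → E, ¬ Alpha N G ρ u) :
    ∃ S : ℕ → St E, (∀ n, Inv ρ0 n (S n)) ∧ ∀ n, Nx N n (S n) (S (n + 1)) := by
  have h0 : Inv ρ0 0 (⟨ρ0, fun _ _ => ρ0, fun _ => univ⟩ : St E) := by
    refine ⟨le_rfl, fun s _ => ⟨isLowerSet_univ, fun _ _ _ _ _ _ => mem_univ _, ?_⟩⟩
    intro ρ' _ v _
    exact ⟨ρ', le_rfl, fun _ => v, fun _ => ρ', mem_univ _, fun _ => le_rfl⟩
  have hst : ∀ (n : ℕ) (S : {S : St E // Inv ρ0 n S}), ∃ S' : {S : St E // Inv ρ0 (n + 1) S},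
      Nx N n S.1 S'.1 := by
    intro n S
    obtain ⟨S', h1, h2⟩ := step hE hN hα n S.1 S.2
    exact ⟨⟨S', h1⟩, h2⟩
  choose nx hnx using hst
  let S : (n : ℕ) → {S : St E // Inv ρ0 n S} := fun n => Nat.rec ⟨_, h0⟩ (fun n S => nx n S) n
  exact ⟨fun n => (S n).1, fun n => (S n).2, fun n => hnx n (S n)⟩

/-- initial segments, reversed -/
def L : ℕ → (ℕ → Bool) → List Bool
  | 0, _ => []
  | n + 1, f => f n :: L n f

theorem L_length (n : ℕ) (f : ℕ → Bool) : (L n f).length = n := by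
  induction n with
  | zero => rfl
  | succ n ih => simp [L, ih]

theorem L_congr (n : ℕ) {f g : ℕ → Bool} (h : ∀ k < n, f k = g k) : L n f = L n g := by
  induction n with
  | zero => rfl
  | succ n ih =>
    show f n :: L n f = g n :: L n g
    rw [h n (Nat.lt_succ_self n), ih (fun k hk => h k (hk.trans (Nat.lt_succ_self n)))]

end BT

open BT in
theorem betaTree : S_betaTree := by
  intro E _ _ hE N hN ρ0 hα
  obtain ⟨S, hI, hS⟩ := exists_seq hE hN hα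
  choose hρ r c hrc using hS
  obtain ⟨ρ, hρl⟩ := hE (fun n => (S n).ρ) hρ
  have hρ0 : ρ ≤ ρ0 := (hρl 0).trans (hI 0).1
  -- the branches
  have hu1 : ∀ (f : ℕ → Bool) (k i : ℕ), i ≤ k →
      (S (k + 1)).u (L (k + 1) f) i = r k (L k f) (f k) i := by
    intro f k i hi
    show (S (k + 1)).u (f k :: L k f) i = _
    rw [((hrc k (L k f) (L_length k f)).2.2 (f k)).1, Function.update_of_ne (by omega)]
  have hu2 : ∀ (f : ℕ → Bool) (k : ℕ),
      (S (k + 1)).u (L (k + 1) f) (k + 1) = c k (L k f) (f k) := by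
    intro f k
    show (S (k + 1)).u (f k :: L k f) (k + 1) = _
    rw [((hrc k (L k f) (L_length k f)).2.2 (f k)).1, Function.update_self]
  have hdesc : ∀ (f : ℕ → Bool) (k i : ℕ), i ≤ k →
      (S (k + 1)).u (L (k + 1) f) i ≤ (S k).u (L k f) i := by
    intro f k i hi
    rw [hu1 f k i hi]
    exact (hrc k (L k f) (L_length k f)).2.1 (f k) i
  have hU : ∀ (f : ℕ → Bool) (i : ℕ), ∃ q, ∀ m, q ≤ (S (i + m)).u (L (i + m) f) i := by
    intro f i
    exact hE (fun m => (S (i + m)).u (L (i + m) f) i) (fun m => hdesc f (i + m) i (by omega))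
  choose U hU using hU
  have hUk : ∀ (f : ℕ → Bool) (k i : ℕ), i ≤ k → U f i ≤ (S k).u (L k f) i := by
    intro f k i hi
    have := hU f i (k - i)
    rwa [Nat.add_sub_cancel' hi] at this
  -- the sets decrease along the branches
  have hX1 : ∀ (f : ℕ → Bool) (k : ℕ), (S (k + 1)).X (L (k + 1) f) =
      child N k ((S k).X (L k f)) (r k (L k f)) (f k) := by
    intro f k
    exact ((hrc k (L k f) (L_length k f)).2.2 (f k)).2
  have hX2 : ∀ (f : ℕ → Bool) (k l : ℕ), k ≤ l → (S l).X (L l f) ⊆ (S k).X (L k f) := by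
    intro f k l hkl
    induction l, hkl using Nat.le_induction with
    | base => exact Subset.rfl
    | succ l _ ih =>
      rw [hX1]
      exact fun p hp => ih hp.1
  refine ⟨ρ, hρ0, U, ?_⟩
  intro n m i f g h hnm hfg hgh hf hg hg' hh
  -- the gadget at level `m`
  have h1 := (hrc m (L m g) (L_length m g)).1
  have h2 := hX2 g (n + 1) m hnm h1
  rw [hX1, hg] at h2
  have h3 := h2.2
  simp only [Bool.not_not] at h3
  have e1 : L n f = L n g := L_congr n hfg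
  have e2 : L m g = L m h := L_congr m hgh
  refine low hN h3 ⟨?_, ?_, ?_, ?_, ?_, ?_, ?_⟩
  · exact hρl (m + 1)
  · have := hUk f (n + 1) 0 (Nat.zero_le _)
    rw [hu1 f n 0 (Nat.zero_le _), hf, e1] at this
    exact this
  · have := hUk g (m + 1) 0 (Nat.zero_le _)
    rw [hu1 g m 0 (Nat.zero_le _), hg'] at this
    exact this
  · have := hUk h (m + 1) 0 (Nat.zero_le _)
    rw [hu1 h m 0 (Nat.zero_le _), hh, ← e2] at this
    exact this
  · have := hUk g (m + 1) (n + 1) (by omega)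
    rw [hu1 g m (n + 1) (by omega), hg'] at this
    exact this
  · have := hUk h (m + 1) (n + 1) (by omega)
    rw [hu1 h m (n + 1) (by omega), hh, ← e2] at this
    exact this
  · have := hUk h (m + 1) (m + 1) le_rfl
    rw [hu2 h m, hh, ← e2] at this
    exact this

end Pool.Agent.H644.TP
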