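import Pool.Agent.H644.TP.Spec

set_option autoImplicit false

/-!
# The canonical form of a homogeneous function
-/

namespace Pool.Agent.H644.TP

namespace CanonL

open Finset

section gen

variable {Y Λ I : Type} [LinearOrder Y]

theorem sm3 {f : Fin 3 → Y} : StrictMono f ↔ f 0 < f 1 ∧ f 1 < f 2 := by
  rw [Fin.strictMono_iff_lt_succ]
  constructor
  · intro h
    exact ⟨h 0, h 1⟩
  · rintro ⟨h0, h1⟩ i
    fin_cases i
    · exact h0
    · exact h1

/-- the points of two triples -/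
def pts (t t' : Fin 3 → Y) : Finset Y := univ.image t ∪ univ.image t'

theorem mem_left (t t' : Fin 3 → Y) (i : Fin 3) : t i ∈ pts t t' :=
  mem_union_left _ (mem_image_of_mem _ (mem_univ i))

theorem mem_right (t t' : Fin 3 → Y) (i : Fin 3) : t' i ∈ pts t t' :=
  mem_union_right _ (mem_image_of_mem _ (mem_univ i))

theorem card_pts (t t' : Fin 3 → Y) : (pts t t').card ≤ 8 := by
  have h1 := card_union_le (univ.image t) (univ.image t')
  have h2 : (univ.image t).card ≤ 3 := card_image_le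
  have h3 : (univ.image t').card ≤ 3 := card_image_le
  unfold pts
  omega

variable {w : (Fin 3 → Y) → Λ → I}

theorem hom_map (hw : Hom w) {t t' : Fin 3 → Y} (ht : StrictMono t) (ht' : StrictMono t')
    {θ : Y → Y} (hθ : ∀ a ∈ pts t t', ∀ b ∈ pts t t', a < b → θ a < θ b) (l m : Λ) :
    w t l = w t' m ↔ w (θ ∘ t) l = w (θ ∘ t') m := by
  have hθ2 : ∀ a ∈ pts t t', ∀ b ∈ pts t t', (a < b ↔ θ a < θ b) := by
    intro a ha b hb
    refine ⟨hθ a ha b hb, fun h => ?_⟩
    by_contra hn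
    rcases (not_lt.1 hn).lt_or_eq with h1 | h1
    · exact lt_asymm h (hθ b hb a ha h1)
    · rw [h1] at h
      exact lt_irrefl _ h
  refine hw t t' (θ ∘ t) (θ ∘ t') ht ht' ?_ ?_ ?_ ?_ l m
  · intro i j hij
    exact hθ _ (mem_left t t' i) _ (mem_left t t' j) (ht hij)
  · intro i j hij
    exact hθ _ (mem_right t t' i) _ (mem_right t t' j) (ht' hij)
  · intro i j
    exact hθ2 _ (mem_left t t' i) _ (mem_right t t' j)
  · intro i j
    exact hθ2 _ (mem_right t t' i) _ (mem_left t t' j)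

open Classical in
/-- the positions on which the value depends -/
noncomputable def Dp (w : (Fin 3 → Y) → Λ → I) (l : Λ) : Finset (Fin 3) :=
  univ.filter fun j => ∀ t t' : Fin 3 → Y, StrictMono t → StrictMono t' →
    (∀ i, i ≠ j → t i = t' i) → t j < t' j → w t l ≠ w t' l

theorem pat1 {t t' : Fin 3 → Y} {j : Fin 3} (ht : StrictMono t) (ht' : StrictMono t')
    (h : ∀ i, i ≠ j → t i = t' i) (hj : t j < t' j) (i k : Fin 3) :
    t i < t' k ↔ i < k ∨ (i = j ∧ k = j) := by
  by_cases hk : k = j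
  · by_cases hi : i = j
    · subst hk
      subst hi
      simp [hj]
    · rw [h i hi, ht'.lt_iff_lt]
      simp [hi]
  · rw [← h k hk, ht.lt_iff_lt]
    simp [hk]

theorem pat2 {t t' : Fin 3 → Y} {j : Fin 3} (ht : StrictMono t) (ht' : StrictMono t')
    (h : ∀ i, i ≠ j → t i = t' i) (hj : t j < t' j) (i k : Fin 3) :
    t' i < t k ↔ i < k := by
  by_cases hi : i = j
  · by_cases hk : k = j
    · subst hk
      subst hi
      simp [hj.le]
    · rw [h k hk, ht'.lt_iff_lt]
  · rw [← h i hi, ht.lt_iff_lt]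

theorem hom_one (hw : Hom w) {l : Λ} {j : Fin 3} {t t' s s' : Fin 3 → Y} (ht : StrictMono t)
    (ht' : StrictMono t') (hs : StrictMono s) (hs' : StrictMono s')
    (h : ∀ i, i ≠ j → t i = t' i) (hj : t j < t' j) (h' : ∀ i, i ≠ j → s i = s' i)
    (hj' : s j < s' j) : w t l = w t' l ↔ w s l = w s' l := by
  refine hw t t' s s' ht ht' hs hs' ?_ ?_ l l
  · intro i k
    rw [pat1 ht ht' h hj, pat1 hs hs' h' hj']
  · intro i k
    rw [pat2 ht ht' h hj, pat2 hs hs' h' hj']

theorem dep_neg (hw : Hom w) {l : Λ} {j : Fin 3} (hj : j ∉ Dp w l) {t t' : Fin 3 → Y}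
    (ht : StrictMono t) (ht' : StrictMono t') (h : ∀ i, i ≠ j → t i = t' i) :
    w t l = w t' l := by
  classical
  unfold Dp at hj
  rw [mem_filter] at hj
  simp only [mem_univ, true_and] at hj
  push Not at hj
  obtain ⟨s, s', hs, hs', h', hj', he⟩ := hj
  rcases lt_trichotomy (t j) (t' j) with h1 | h1 | h1
  · exact (hom_one hw ht ht' hs hs' h h1 h' hj').2 he
  · have : t = t' := by
      funext i
      by_cases hi : i = j
      · rw [hi, h1]
      · exact h i hi
    rw [this]
  · exact ((hom_one hw ht' ht hs hs' (fun i hi => (h i hi).symm) h1 h' hj').2 he).symm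

theorem dep_pos {l : Λ} {j : Fin 3} (hj : j ∈ Dp w l) {t t' : Fin 3 → Y}
    (ht : StrictMono t) (ht' : StrictMono t') (h : ∀ i, i ≠ j → t i = t' i) (hne : t j ≠ t' j) :
    w t l ≠ w t' l := by
  classical
  unfold Dp at hj
  rw [mem_filter] at hj
  rcases lt_or_gt_of_ne hne with h1 | h1
  · exact hj.2 t t' ht ht' h h1
  · exact (hj.2 t' t ht' ht (fun i hi => (h i hi).symm) h1).symm

theorem step (hw : Hom w) {l : Λ} (j : Fin 3) {t t' : Fin 3 → Y} (ht : StrictMono t)
    (ht' : StrictMono t') (h : ∀ i, i ≠ j → t i = t' i) (hj : j ∈ Dp w l → t j = t' j) :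
    w t l = w t' l := by
  by_cases hd : j ∈ Dp w l
  · have : t = t' := by
      funext i
      by_cases hi : i = j
      · rw [hi, hj hd]
      · exact h i hi
    rw [this]
  · exact dep_neg hw hd ht ht' h

theorem eq_of_le (hw : Hom w) {l : Λ} {t u : Fin 3 → Y} (ht : StrictMono t) (hu : StrictMono u)
    (hle : ∀ i, t i ≤ u i) (h : ∀ j ∈ Dp w l, t j = u j) : w t l = w u l := by
  have ht1 := sm3.1 ht
  have hu1 := sm3.1 hu
  have s2 : StrictMono ![t 0, t 1, u 2] := sm3.2 ⟨ht1.1, lt_of_lt_of_le ht1.2 (hle 2)⟩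
  have s1 : StrictMono ![t 0, u 1, u 2] := sm3.2 ⟨lt_of_lt_of_le ht1.1 (hle 1), hu1.2⟩
  have e2 : w t l = w ![t 0, t 1, u 2] l := by
    refine step hw 2 ht s2 (fun i hi => ?_) (fun hd => h 2 hd)
    fin_cases i
    · rfl
    · rfl
    · exact absurd rfl hi
  have e1 : w ![t 0, t 1, u 2] l = w ![t 0, u 1, u 2] l := by
    refine step hw 1 s2 s1 (fun i hi => ?_) (fun hd => h 1 hd)
    fin_cases i
    · rfl
    · exact absurd rfl hi
    · rfl
  have e0 : w ![t 0, u 1, u 2] l = w u l := by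
    refine step hw 0 s1 hu (fun i hi => ?_) (fun hd => h 0 hd)
    fin_cases i
    · exact absurd rfl hi
    · rfl
    · rfl
  rw [e2, e1, e0]

theorem eq_of_agree (hw : Hom w) {l : Λ} {t t' : Fin 3 → Y} (ht : StrictMono t)
    (ht' : StrictMono t') (h : ∀ j ∈ Dp w l, t j = t' j) : w t l = w t' l := by
  have hu : StrictMono fun i => max (t i) (t' i) := fun i j hij => max_lt_max (ht hij) (ht' hij)
  rw [eq_of_le hw ht hu (fun i => le_max_left _ _) (fun j hj => by rw [← h j hj, max_self]),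
    eq_of_le hw ht' hu (fun i => le_max_right _ _) (fun j hj => by rw [← h j hj, max_self])]

/-- the rank of `a` -/
def rk {Z : Type} [LinearOrder Z] (A : Finset Z) (a : Z) : ℕ := (A.filter (· < a)).card

theorem rk_lt {Z : Type} [LinearOrder Z] {A : Finset Z} {a b : Z} (ha : a ∈ A) (h : a < b) :
    rk A a < rk A b := by
  refine card_lt_card ⟨fun x hx => ?_, fun hsub => ?_⟩
  · rw [mem_filter] at hx ⊢
    exact ⟨hx.1, hx.2.trans h⟩
  · have h1 : a ∈ A.filter (· < b) := mem_filter.2 ⟨ha, h⟩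
    exact lt_irrefl _ (mem_filter.1 (hsub h1)).2

variable {e : ℕ → Y}

theorem dep_sub (he : StrictMono e) (hw : Hom w) {t t' : Fin 3 → Y} (ht : StrictMono t)
    (ht' : StrictMono t') {l m : Λ} (h : w t l = w t' m) {j : Fin 3} (hj : j ∈ Dp w l) :
    ∃ k ∈ Dp w m, t j = t' k := by
  by_contra hcon
  push Not at hcon
  let ψ : Y → Y := fun a => e (2 * rk (pts t t') a)
  let ψ' : Y → Y := fun a => e (2 * rk (pts t t') a + if a = t j then 1 else 0)
  have hψ : ∀ a ∈ pts t t', ∀ b ∈ pts t t', a < b → ψ a < ψ b := by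
    intro a ha b _ hab
    have := rk_lt ha hab
    exact he (by omega)
  have hψ' : ∀ a ∈ pts t t', ∀ b ∈ pts t t', a < b → ψ' a < ψ' b := by
    intro a ha b _ hab
    have := rk_lt ha hab
    refine he ?_
    split_ifs <;> omega
  have h1 := (hom_map hw ht ht' hψ l m).1 h
  have h2 := (hom_map hw ht ht' hψ' l m).1 h
  have sm1 : StrictMono (ψ ∘ t) := fun i k hik =>
    hψ _ (mem_left t t' i) _ (mem_left t t' k) (ht hik)
  have sm2 : StrictMono (ψ' ∘ t) := fun i k hik =>
    hψ' _ (mem_left t t' i) _ (mem_left t t' k) (ht hik)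
  have sm3 : StrictMono (ψ ∘ t') := fun i k hik =>
    hψ _ (mem_right t t' i) _ (mem_right t t' k) (ht' hik)
  have sm4 : StrictMono (ψ' ∘ t') := fun i k hik =>
    hψ' _ (mem_right t t' i) _ (mem_right t t' k) (ht' hik)
  have h3 : w (ψ ∘ t') m = w (ψ' ∘ t') m := by
    refine eq_of_agree hw sm3 sm4 fun k hk => ?_
    have h4 : ¬ t' k = t j := fun h' => hcon k hk h'.symm
    show e (2 * rk (pts t t') (t' k)) = e (2 * rk (pts t t') (t' k) + if t' k = t j then 1 else 0)
    rw [if_neg h4, add_zero]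
  refine dep_pos hj sm1 sm2 (fun i hi => ?_) ?_ (h1.trans (h3.trans h2.symm))
  · have h4 : ¬ t i = t j := fun h' => hi (ht.injective h')
    show e (2 * rk (pts t t') (t i)) = e (2 * rk (pts t t') (t i) + if t i = t j then 1 else 0)
    rw [if_neg h4, add_zero]
  · show e (2 * rk (pts t t') (t j)) ≠ e (2 * rk (pts t t') (t j) + if t j = t j then 1 else 0)
    rw [if_pos rfl]
    intro h5
    have := he.injective h5
    omega

theorem image_eq (he : StrictMono e) (hw : Hom w) {t t' : Fin 3 → Y} (ht : StrictMono t)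
    (ht' : StrictMono t') {l m : Λ} (h : w t l = w t' m) :
    (Dp w l).image t = (Dp w m).image t' := by
  ext a
  simp only [mem_image]
  constructor
  · rintro ⟨j, hj, rfl⟩
    obtain ⟨k, hk, hk2⟩ := dep_sub he hw ht ht' h hj
    exact ⟨k, hk, hk2.symm⟩
  · rintro ⟨j, hj, rfl⟩
    obtain ⟨k, hk, hk2⟩ := dep_sub he hw ht' ht h.symm hj
    exact ⟨k, hk, hk2.symm⟩

/-- the standard positions -/
def th {Z : Type} [LinearOrder Z] (B A : Finset Z) (a : Z) : ℕ :=
  10 * (B.filter (· ≤ a)).card + if a ∈ B then 0 else 1 + rk A a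

theorem th_lt {Z : Type} [LinearOrder Z] {B A : Finset Z} (hA : A.card ≤ 8) {a b : Z} (ha : a ∈ A)
    (hab : a < b) : th B A a < th B A b := by
  have h1 : (B.filter (· ≤ a)).card ≤ (B.filter (· ≤ b)).card :=
    card_le_card fun x hx => by
      rw [mem_filter] at hx ⊢
      exact ⟨hx.1, hx.2.trans hab.le⟩
  have h2 : rk A a ≤ 8 := (card_le_card (filter_subset _ _)).trans hA
  have h3 := rk_lt ha hab
  unfold th
  by_cases hb : b ∈ B
  · have h4 : (B.filter (· ≤ a)).card < (B.filter (· ≤ b)).card := by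
      refine card_lt_card ⟨fun x hx => ?_, fun hsub => ?_⟩
      · rw [mem_filter] at hx ⊢
        exact ⟨hx.1, hx.2.trans hab.le⟩
      · have h5 : b ∈ B.filter (· ≤ b) := mem_filter.2 ⟨hb, le_rfl⟩
        exact absurd (mem_filter.1 (hsub h5)).2 (not_le.2 hab)
    rw [if_pos hb]
    split_ifs <;> omega
  · rw [if_neg hb]
    split_ifs <;> omega

/-- the standard triple with the dependence set `D` -/
def T0 (e : ℕ → Y) (D : Finset (Fin 3)) (j : Fin 3) : Y := e (th D univ j)

theorem T0_mono (he : StrictMono e) (D : Finset (Fin 3)) : StrictMono (T0 e D) :=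
  fun i j hij => he (th_lt (by simp) (mem_univ i) hij)

theorem card_filter_image {t : Fin 3 → Y} (ht : StrictMono t) (D : Finset (Fin 3)) (j : Fin 3) :
    ((D.image t).filter (· ≤ t j)).card = (D.filter (· ≤ j)).card := by
  have h1 : (D.image t).filter (· ≤ t j) = (D.filter (· ≤ j)).image t := by
    ext a
    simp only [mem_filter, mem_image]
    constructor
    · rintro ⟨⟨i, hi, rfl⟩, h2⟩
      exact ⟨i, ⟨hi, ht.le_iff_le.1 h2⟩, rfl⟩
    · rintro ⟨i, ⟨hi, h2⟩, rfl⟩
      exact ⟨⟨i, hi, rfl⟩, ht.le_iff_le.2 h2⟩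
  rw [h1, card_image_of_injective _ ht.injective]

theorem key (he : StrictMono e) (hw : Hom w) {t t' : Fin 3 → Y} (ht : StrictMono t)
    (ht' : StrictMono t') {l m : Λ} (h : (Dp w l).image t = (Dp w m).image t') :
    w t l = w t' m ↔ w (T0 e (Dp w l)) l = w (T0 e (Dp w m)) m := by
  let θ : Y → Y := fun a => e (th ((Dp w l).image t) (pts t t') a)
  have hθ : ∀ a ∈ pts t t', ∀ b ∈ pts t t', a < b → θ a < θ b := fun a ha b _ hab =>
    he (th_lt (card_pts t t') ha hab)
  rw [hom_map hw ht ht' hθ l m]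
  have e1 : w (θ ∘ t) l = w (T0 e (Dp w l)) l := by
    refine eq_of_agree hw (fun i k hik => hθ _ (mem_left t t' i) _ (mem_left t t' k) (ht hik))
      (T0_mono he _) fun j hj => ?_
    show e (th ((Dp w l).image t) (pts t t') (t j)) = e (th (Dp w l) univ j)
    unfold th
    rw [if_pos (mem_image_of_mem t hj), if_pos hj, card_filter_image ht]
  have e2 : w (θ ∘ t') m = w (T0 e (Dp w m)) m := by
    refine eq_of_agree hw (fun i k hik => hθ _ (mem_right t t' i) _ (mem_right t t' k) (ht' hik))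
      (T0_mono he _) fun j hj => ?_
    show e (th ((Dp w l).image t) (pts t t') (t' j)) = e (th (Dp w m) univ j)
    unfold th
    rw [h, if_pos (mem_image_of_mem t' hj), if_pos hj, card_filter_image ht']
  rw [e1, e2]

end gen

theorem exB : ∀ D : Finset (Fin 3), D.Nonempty → ∃ b : Fin 3 → Fin 3, (∀ j, b j ∈ D) ∧
    (∀ j ∈ D, b j = j) ∧ ∀ i j, i ≤ j → b i ≤ b j := by
  decide +kernel

theorem exO {X : Type} [LinearOrder X] (x0 : X) (D : Finset (Fin 3)) (F : Finset X)
    (h : F.card = D.card) : ∃ o : Fin 3 → X, (∀ i ∈ D, ∀ j ∈ D, i < j → o i < o j) ∧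
      D.image o = F := by
  classical
  let φ : D ≃o F := (D.orderIsoOfFin rfl).symm.trans (F.orderIsoOfFin h)
  refine ⟨fun j => if hj : j ∈ D then (φ ⟨j, hj⟩ : X) else x0, ?_, ?_⟩
  · intro i hi j hj hij
    simp only [dif_pos hi, dif_pos hj]
    exact φ.strictMono (show (⟨i, hi⟩ : D) < ⟨j, hj⟩ from hij)
  · ext x
    rw [mem_image]
    constructor
    · rintro ⟨j, hj, rfl⟩
      simp only [dif_pos hj]
      exact (φ ⟨j, hj⟩).2
    · intro hx
      refine ⟨(φ.symm ⟨x, hx⟩ : D), (φ.symm ⟨x, hx⟩).2, ?_⟩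
      rw [dif_pos (φ.symm ⟨x, hx⟩).2]
      simp

theorem exT {X : Type} [LinearOrder X] (x0 : X) (D : Finset (Fin 3)) (F : Finset X)
    (h : F.card = D.card) : ∃ T : Fin 3 → X ×ₗ ℕ, StrictMono T ∧
      D.image T = F.image fun x => toLex (x, 2) := by
  classical
  rcases D.eq_empty_or_nonempty with rfl | hD
  · rw [card_empty, card_eq_zero] at h
    subst h
    refine ⟨fun j => toLex (x0, (j : ℕ)), fun i j hij => ?_, by simp⟩
    exact Prod.Lex.toLex_lt_toLex.2 (Or.inr ⟨rfl, hij⟩)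
  · obtain ⟨b, hb1, hb2, hb3⟩ := exB D hD
    obtain ⟨o, ho1, ho2⟩ := exO x0 D F h
    refine ⟨fun j => toLex (o (b j), 2 + (j : ℕ) - (b j : ℕ)), fun i j hij => ?_, ?_⟩
    · rw [Prod.Lex.toLex_lt_toLex]
      rcases (hb3 i j hij.le).lt_or_eq with h1 | h1
      · exact Or.inl (ho1 _ (hb1 i) _ (hb1 j) h1)
      · refine Or.inr ⟨by rw [h1], ?_⟩
        have h2 : (i : ℕ) < j := hij
        have h3 : ((b j : Fin 3) : ℕ) < 3 := (b j).2
        show 2 + (i : ℕ) - (b i : ℕ) < 2 + (j : ℕ) - (b j : ℕ)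
        rw [h1]
        omega
    · rw [← ho2, image_image]
      refine image_congr fun j hj => ?_
      have hj' : j ∈ D := hj
      show toLex (o (b j), 2 + (j : ℕ) - (b j : ℕ)) = toLex (o j, 2)
      rw [hb2 j hj', Nat.add_sub_cancel]

end CanonL

open CanonL Finset in
theorem canon : S_canon := by
  classical
  intro X Λ I _ _ w hinj hw
  obtain ⟨x0⟩ : Nonempty X := inferInstance
  let e : ℕ → X ×ₗ ℕ := fun n => toLex (x0, n)
  have he : StrictMono e := fun a b hab => Prod.Lex.toLex_lt_toLex.2 (Or.inr ⟨rfl, hab⟩)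
  let κ : Λ → I := fun l => w (T0 e (Dp w l)) l
  let rep : Λ → Λ := fun l => (Quotient.mk (Setoid.ker κ) l).out
  have hrep : ∀ l, κ (rep l) = κ l := fun l => Quotient.mk_out (s := Setoid.ker κ) l
  have hrep2 : ∀ l m, κ l = κ m → rep l = rep m := by
    intro l m h
    have h1 : Quotient.mk (Setoid.ker κ) l = Quotient.mk (Setoid.ker κ) m := Quotient.sound h
    show (Quotient.mk (Setoid.ker κ) l).out = (Quotient.mk (Setoid.ker κ) m).out
    rw [h1]
  have hcard : ∀ l m, κ l = κ m → (Dp w l).card = (Dp w m).card := by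
    intro l m h
    have h1 := image_eq he hw (T0_mono he _) (T0_mono he _) h
    have h2 := congrArg Finset.card h1
    rwa [card_image_of_injective _ (T0_mono he _).injective,
      card_image_of_injective _ (T0_mono he _).injective] at h2
  let T : Finset X → Λ → Fin 3 → X ×ₗ ℕ := fun F l =>
    if h : F.card = (Dp w l).card then (exT x0 (Dp w l) F h).choose else e ∘ Fin.val
  have hT : ∀ F l, F.card = (Dp w l).card → StrictMono (T F l) ∧
      (Dp w l).image (T F l) = F.image fun x => toLex (x, 2) := by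
    intro F l h
    have h1 : T F l = (exT x0 (Dp w l) F h).choose := dif_pos h
    rw [h1]
    exact (exT x0 (Dp w l) F h).choose_spec
  have hinj2 : Function.Injective fun x : X => (toLex (x, 2) : X ×ₗ ℕ) := by
    intro x y hxy
    have h1 : ((x, 2) : X × ℕ) = (y, 2) := toLex.injective hxy
    exact congrArg Prod.fst h1
  refine ⟨Dp w, rep, fun F l => w (T F l) l, ?_, ?_, ?_, ?_, ?_⟩
  · intro l
    exact hrep2 _ _ (hrep l)
  · intro l
    exact hcard _ _ (hrep l)
  · intro l m hD hr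
    have h1 : κ l = κ m := by rw [← hrep l, ← hrep m, hr]
    have h2 : w (T0 e (Dp w l)) l = w (T0 e (Dp w m)) m := h1
    rw [← hD] at h2
    exact hinj _ (T0_mono he _) h2
  · intro t ht l
    have ht2 : StrictMono fun j => (toLex (t j, 2) : X ×ₗ ℕ) := fun i j hij =>
      Prod.Lex.toLex_lt_toLex.2 (Or.inl (ht hij))
    have hc : ((Dp w l).image t).card = (Dp w (rep l)).card := by
      rw [card_image_of_injective _ ht.injective]
      exact (hcard _ _ (hrep l)).symm
    obtain ⟨h1, h2⟩ := hT _ _ hc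
    refine (key he hw ht2 h1 ?_).2 (hrep l).symm
    rw [h2, image_image]
    rfl
  · intro F F' l m hF hF' hl hm h
    obtain ⟨a1, a2⟩ := hT F l hF
    obtain ⟨b1, b2⟩ := hT F' m hF'
    have h1 := image_eq he hw a1 b1 h
    have h2 : κ l = κ m := (key he hw a1 b1 h1).1 h
    rw [a2, b2] at h1
    refine ⟨image_injective hinj2 h1, ?_⟩
    rw [← hl, ← hm]
    exact hrep2 _ _ h2

end Pool.Agent.H644.TP
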