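import Pool.Agent.H644.TP.Spec
import Pool.Graph.R_seed8.Helper669.KDelta
import Pool.Graph.R_seed8.TH766.KT.Base

set_option autoImplicit false

/-!
# The chain condition
-/

namespace Pool.Agent.H644.TP

open Set Cardinal

namespace CcAux

variable {I : Type}

/-- the domain -/
def dm (p : Cd I) : Set I := {i | p.f i ≠ none}

/-- the part of the graph over a set -/
def gr (p : Cd I) (R : Set I) : {s : Set (R × Bool) // s.Countable} :=
  ⟨{y | p.f y.1.1 = some y.2}, by
    have hinj : Function.Injective (fun y : R × Bool => ((y.1.1, y.2) : I × Bool)) := by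
      rintro ⟨y, b⟩ ⟨z, b'⟩ h
      simp only [Prod.mk.injEq] at h
      exact Prod.ext (Subtype.ext h.1) h.2
    refine ((p.ctb.prod (countable_univ (α := Bool))).preimage hinj).mono ?_
    intro y hy
    have hy' : p.f y.1.1 = some y.2 := hy
    refine ⟨?_, mem_univ _⟩
    show p.f y.1.1 ≠ none
    rw [hy']
    exact Option.some_ne_none _⟩

theorem compat {p q : Cd I} (h : ∀ i, i ∈ dm p → i ∈ dm q → p.f i = q.f i) :
    ∃ r, r ≤ p ∧ r ≤ q := by
  classical
  refine ⟨⟨fun i => if i ∈ dm p then p.f i else q.f i, ?_⟩, ?_, ?_⟩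
  · refine (p.ctb.union q.ctb).mono ?_
    intro i hi
    by_cases hp : i ∈ dm p
    · exact Or.inl hp
    · refine Or.inr ?_
      have h1 : (if i ∈ dm p then p.f i else q.f i) ≠ none := hi
      rw [if_neg hp] at h1
      exact h1
  · intro i b hb
    have hp : i ∈ dm p := by
      show p.f i ≠ none
      rw [hb]
      exact Option.some_ne_none _
    show (if i ∈ dm p then p.f i else q.f i) = some b
    rw [if_pos hp, hb]
  · intro i b hb
    have hq : i ∈ dm q := by
      show q.f i ≠ none
      rw [hb]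
      exact Option.some_ne_none _
    show (if i ∈ dm p then p.f i else q.f i) = some b
    by_cases hp : i ∈ dm p
    · rw [if_pos hp, h i hp hq, hb]
    · rw [if_neg hp, hb]

end CcAux

open CcAux in
/-- **T0.** The chain condition. -/
theorem cc : S_cc := by
  intro I Z hZ
  by_contra hcon
  obtain ⟨T, R, hT, hR, hTR⟩ := Pool.Agent.Helper669.KDelta.weak_delta (E := Z) (K := I)
    (c := 𝔠) aleph0_le_continuum hcon (fun b => dm b.1) (fun b => by
      refine lt_of_le_of_lt ?_ aleph0_lt_continuum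
      exact Cardinal.mk_le_aleph0_iff.2 (Set.countable_coe_iff.2 b.1.ctb))
  have h1 : ¬ Function.Injective (fun p : T => gr p.1.1 R) := by
    intro hinj
    apply hT
    refine (Cardinal.mk_le_of_injective hinj).trans ?_
    refine Pool.Agent.TH766.KT.mk_countable_sets aleph0_le_continuum ?_ continuum_power_aleph0
    rw [← Cardinal.mul_def, mk_bool]
    calc #R * 2 ≤ 𝔠 * 𝔠 := mul_le_mul' hR ((nat_lt_aleph0 2).le.trans aleph0_le_continuum)
      _ = 𝔠 := mul_eq_self aleph0_le_continuum
  simp only [Function.Injective, not_forall] at h1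
  obtain ⟨p, q, hgr, hne⟩ := h1
  have hne1 : p.1 ≠ q.1 := fun h => hne (Subtype.ext h)
  have hne2 : p.1.1 ≠ q.1.1 := fun h => hne1 (Subtype.ext h)
  refine hZ p.1.1 p.1.2 q.1.1 q.1.2 hne2 (compat fun i hp hq => ?_)
  have hiR : i ∈ R := hTR p.1 p.2 q.1 q.2 hne1 ⟨hp, hq⟩
  obtain ⟨b, hb⟩ := Option.ne_none_iff_exists'.1 hp
  have h3 : ((⟨i, hiR⟩, b) : R × Bool) ∈ (gr p.1.1 R).1 := hb
  rw [hgr] at h3
  have h4 : q.1.1.f i = some b := h3
  rw [hb, h4]

end Pool.Agent.H644.TP
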