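import Pool.Agent.H644.TP.Spec

set_option autoImplicit false

open Filter Topology

namespace Pool.Agent.H644.TP

namespace CombAux

/-- first differences with digit `b`, arbitrarily far -/
def Q (r : ℕ → ℕ → Bool) (h : ℕ → Bool) (φ : ℕ → ℕ) (b : Bool) (N : ℕ) : Prop :=
  ∃ n D : ℕ, N ≤ n ∧ N ≤ D ∧ (∀ l < D, r (φ n) l = h l) ∧ r (φ n) D = b ∧ h D = !b

lemma Q.anti {r : ℕ → ℕ → Bool} {h : ℕ → Bool} {φ : ℕ → ℕ} {b : Bool} {N M : ℕ} (hNM : M ≤ N)
    (hQ : Q r h φ b N) : Q r h φ b M := by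
  obtain ⟨n, D, h1, h2, h3⟩ := hQ
  exact ⟨n, D, hNM.trans h1, hNM.trans h2, h3⟩

lemma exists_limit (r : ℕ → ℕ → Bool) : ∃ (h : ℕ → Bool) (φ : ℕ → ℕ), StrictMono φ ∧
    ∀ L : ℕ, ∀ᶠ n in atTop, ∀ l < L, r (φ n) l = h l := by
  obtain ⟨h, φ, hφ, ht⟩ := CompactSpace.tendsto_subseq r
  refine ⟨h, φ, hφ, fun L => ?_⟩
  have h1 : ∀ l, ∀ᶠ n in atTop, r (φ n) l = h l := by
    intro l
    have h2 := (tendsto_pi_nhds.1 ht) l
    rw [nhds_discrete, tendsto_pure] at h2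
    exact h2
  exact (Finset.eventually_all (Finset.range L)).2 (fun l _ => h1 l) |>.mono
    (fun n hn l hl => hn l (Finset.mem_range.2 hl))

lemma exists_Q (r : ℕ → ℕ → Bool) (hr : Function.Injective r) (h : ℕ → Bool) (φ : ℕ → ℕ)
    (hφ : StrictMono φ) (ht : ∀ L : ℕ, ∀ᶠ n in atTop, ∀ l < L, r (φ n) l = h l) (N : ℕ) :
    ∃ b, Q r h φ b N := by
  have h1 : ∀ᶠ n in atTop, r (φ n) ≠ h := by
    by_cases hex : ∃ n0, r (φ n0) = h
    · obtain ⟨n0, hn0⟩ := hex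
      refine (eventually_gt_atTop n0).mono fun n hn heq => ?_
      have h2 : φ n = φ n0 := hr (heq.trans hn0.symm)
      exact absurd (hφ hn) (by rw [h2]; exact lt_irrefl _)
    · exact Eventually.of_forall fun n heq => hex ⟨n, heq⟩
  obtain ⟨n, ⟨hn1, hn2⟩, hn3⟩ := ((h1.and (ht N)).and (eventually_ge_atTop N)).exists
  have h3 : ∃ l, r (φ n) l ≠ h l := by
    by_contra hcon
    push Not at hcon
    exact hn1 (funext hcon)
  have h4 : r (φ n) (Nat.find h3) ≠ h (Nat.find h3) := Nat.find_spec h3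
  refine ⟨r (φ n) (Nat.find h3), n, Nat.find h3, hn3, ?_, ?_, rfl, ?_⟩
  · by_contra hlt
    push Not at hlt
    exact h4 (hn2 _ hlt)
  · intro l hl
    have h5 := Nat.find_min h3 hl
    push Not at h5
    exact h5
  · revert h4
    cases r (φ n) (Nat.find h3) <;> cases h (Nat.find h3) <;> simp

lemma exists_digit (r : ℕ → ℕ → Bool) (hr : Function.Injective r) (h : ℕ → Bool) (φ : ℕ → ℕ)
    (hφ : StrictMono φ) (ht : ∀ L : ℕ, ∀ᶠ n in atTop, ∀ l < L, r (φ n) l = h l) :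
    ∃ b, ∀ N, Q r h φ b N := by
  by_cases h1 : ∀ N, Q r h φ true N
  · exact ⟨true, h1⟩
  · push Not at h1
    obtain ⟨N0, hN0⟩ := h1
    refine ⟨false, fun N => ?_⟩
    obtain ⟨b, hb⟩ := exists_Q r hr h φ hφ ht (max N N0)
    cases b
    · exact hb.anti (le_max_left _ _)
    · exact absurd (hb.anti (le_max_right _ _)) hN0

end CombAux

open CombAux in
/-- **T13.** A one-sided comb in every infinite set of reals. -/
theorem comb : S_comb := by
  intro r hr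
  obtain ⟨h, φ, hφ, ht⟩ := exists_limit r
  obtain ⟨b, hb⟩ := exists_digit r hr h φ hφ ht
  obtain ⟨n1, D1, -, -, ha1, hb1, hc1⟩ := hb 0
  obtain ⟨n2, D2, hn2, hD2, ha2, hb2, hc2⟩ := hb (max n1 D1 + 1)
  obtain ⟨n3, D3, hn3, hD3, ha3, hb3, hc3⟩ := hb (max n2 D2 + 1)
  have e1 := le_max_left n1 D1
  have e2 := le_max_right n1 D1
  have e3 := le_max_left n2 D2
  have e4 := le_max_right n2 D2
  refine ⟨φ n1, φ n2, φ n3, hφ (by omega), hφ (by omega), D1, D2, b, by omega, ?_, ?_, hb1, ?_,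
    hb2, ?_⟩
  · intro l hl
    rw [ha1 l hl, ha2 l (by omega)]
  · intro l hl
    rw [ha2 l hl, ha3 l (by omega)]
  · rw [ha2 D1 (by omega), hc1]
  · rw [ha3 D2 (by omega), hc2]

end Pool.Agent.H644.TP
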