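import Mathlib
import Pool.Agent.H644.TP.Spec

set_option autoImplicit false

/-!
# The Erdős–Rado theorem, all exponents at most `n` at once

The end-homogeneous step follows the usual proof with greedy sets and their codes.
-/

namespace Pool.Agent.H644.TP

open Cardinal Set

namespace ErAux

open Classical

variable {X : Type} {C : Type} [LinearOrder X] [WellFoundedLT X]

/-- Greedy end-homogeneous set below `a` for the colouring `f` of pairs (finite set, point). -/
noncomputable def grd (f : Finset X → X → C) (a : X) : X → Prop :=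
  (wellFounded_lt (α := X)).fix (fun b ih => b < a ∧
    ∀ (s : Finset X) (h : ∀ η ∈ s, η < b), (∀ η (hη : η ∈ s), ih η (h η hη)) → f s b = f s a)

theorem grd_iff (f : Finset X → X → C) (a b : X) :
    grd f a b ↔ (b < a ∧ ∀ s : Finset X, (∀ η ∈ s, η < b) → (∀ η ∈ s, grd f a η) →
      f s b = f s a) := by
  unfold grd
  rw [WellFounded.fix_eq]

/-- The order part of the code of `a`. -/
def oc (f : Finset X → X → C) {K : Type} (a : X) (e : {b // grd f a b} ↪ K) (i j : K) : Prop :=
  ∃ p q, e p = i ∧ e q = j ∧ p.1 < q.1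

theorem oc_iff (f : Finset X → X → C) {K : Type} (a : X) (e : {b // grd f a b} ↪ K)
    (p q : {b // grd f a b}) : oc f a e (e p) (e q) ↔ p.1 < q.1 := by
  constructor
  · rintro ⟨p', q', h1, h2, h3⟩
    rw [e.injective h1, e.injective h2] at h3
    exact h3
  · intro h
    exact ⟨p, q, rfl, rfl, h⟩

/-- The value part of the code of `a`. -/
noncomputable def vc (f : Finset X → X → C) {K : Type} (a : X) (e : {b // grd f a b} ↪ K)
    (T : Finset K) : Option C :=
  if h : ∃ S : Finset {b // grd f a b}, S.map e = T then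
    some (f (h.choose.map (Function.Embedding.subtype _)) a)
  else none

theorem vc_eq (f : Finset X → X → C) {K : Type} (a : X) (e : {b // grd f a b} ↪ K)
    (S : Finset {b // grd f a b}) :
    vc f a e (S.map e) = some (f (S.map (Function.Embedding.subtype _)) a) := by
  have h : ∃ S' : Finset {b // grd f a b}, S'.map e = S.map e := ⟨S, rfl⟩
  unfold vc
  rw [dif_pos h]
  have h1 : h.choose = S := Finset.map_injective e h.choose_spec
  rw [h1]

theorem vc_some (f : Finset X → X → C) {K : Type} (a : X) (e : {b // grd f a b} ↪ K)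
    (T : Finset K) (x : C) (hx : vc f a e T = some x) :
    ∃ S : Finset {b // grd f a b}, S.map e = T := by
  by_contra hcon
  unfold vc at hx
  rw [dif_neg hcon] at hx
  exact absurd hx (by simp)

/-- Elements are transferred. -/
theorem tr (f : Finset X → X → C) {K : Type} (a a' : X)
    (e : {b // grd f a b} ↪ K) (e' : {b // grd f a' b} ↪ K)
    (hv : vc f a e = vc f a' e') (p : {b // grd f a b}) :
    ∃ p' : {b // grd f a' b}, e p = e' p' := by
  have h1 := vc_eq f a e {p}
  rw [hv] at h1
  obtain ⟨S, hS⟩ := vc_some _ _ _ _ _ h1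
  have h2 : e p ∈ S.map e' := by
    rw [hS]
    simp
  obtain ⟨p', _, h3⟩ := Finset.mem_map.1 h2
  exact ⟨p', h3.symm⟩

/-- Values at finite sets are transferred. -/
theorem vtr (f : Finset X → X → C) {K : Type} (a a' : X)
    (e : {b // grd f a b} ↪ K) (e' : {b // grd f a' b} ↪ K)
    (hv : vc f a e = vc f a' e') (s : Finset X)
    (h : ∀ η ∈ s, ∃ (h1 : grd f a η) (h2 : grd f a' η), e ⟨η, h1⟩ = e' ⟨η, h2⟩) :
    f s a = f s a' := by
  have hm : (s.subtype (grd f a)).map e = (s.subtype (grd f a')).map e' := by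
    ext k
    simp only [Finset.mem_map, Finset.mem_subtype]
    constructor
    · rintro ⟨p, hp, rfl⟩
      obtain ⟨h1, h2, h3⟩ := h p.1 hp
      exact ⟨⟨p.1, h2⟩, hp, h3.symm⟩
    · rintro ⟨p, hp, rfl⟩
      obtain ⟨h1, h2, h3⟩ := h p.1 hp
      exact ⟨⟨p.1, h1⟩, hp, h3⟩
  have e1 := vc_eq f a e (s.subtype (grd f a))
  have e2 := vc_eq f a' e' (s.subtype (grd f a'))
  rw [hm, hv, e2] at e1
  have s1 : (s.subtype (grd f a)).map (Function.Embedding.subtype _) = s :=
    Finset.subtype_map_of_mem (fun η hη => (h η hη).1)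
  have s2 : (s.subtype (grd f a')).map (Function.Embedding.subtype _) = s :=
    Finset.subtype_map_of_mem (fun η hη => (h η hη).2.1)
  rw [s1, s2] at e1
  exact (Option.some.inj e1).symm

theorem inj_aux (f : Finset X → X → C) {K : Type} (a a' : X)
    (e : {b // grd f a b} ↪ K) (e' : {b // grd f a' b} ↪ K)
    (ho : oc f a e = oc f a' e') (hv : vc f a e = vc f a' e') :
    ∀ b (h : grd f a b) b' (h' : grd f a' b'), e ⟨b, h⟩ = e' ⟨b', h'⟩ → b = b' := by
  intro b
  induction b using (wellFounded_lt (α := X)).induction with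
  | _ b ih =>
  intro h b' h' hbb
  have key : ∀ (p q : {b // grd f a b}) (p' q' : {b // grd f a' b}),
      e p = e' p' → e q = e' q' → (p.1 < q.1 ↔ p'.1 < q'.1) := by
    intro p q p' q' hp hq
    have h1 := oc_iff f a e p q
    have h2 := oc_iff f a' e' p' q'
    rw [hp, hq, ho] at h1
    exact h1.symm.trans h2
  have sub1 : ∀ η, η < b → ∀ hg : grd f a η, η < b' ∧
      ∃ hg' : grd f a' η, e ⟨η, hg⟩ = e' ⟨η, hg'⟩ := by
    intro η hη hg
    obtain ⟨⟨p', hp1⟩, hp'⟩ := tr f a a' e e' hv ⟨η, hg⟩
    have e1 : η = p' := ih η hη hg p' hp1 hp'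
    subst e1
    exact ⟨(key ⟨η, hg⟩ ⟨b, h⟩ ⟨η, hp1⟩ ⟨b', h'⟩ hp' hbb).1 hη, hp1, hp'⟩
  have sub2 : ∀ η, η < b' → grd f a' η → (η < b ∧ grd f a η) := by
    intro η hη hg
    obtain ⟨⟨p, hp1⟩, hp⟩ := tr f a' a e' e hv.symm ⟨η, hg⟩
    have e2 : p < b := (key ⟨p, hp1⟩ ⟨b, h⟩ ⟨η, hg⟩ ⟨b', h'⟩ hp.symm hbb).2 hη
    have e1 : p = η := ih p e2 hp1 η hg hp.symm
    subst e1
    exact ⟨e2, hp1⟩
  have hb' := (grd_iff f a' b').1 h'
  have hb := (grd_iff f a b).1 h
  rcases lt_trichotomy b b' with hlt | heq | hgt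
  · exfalso
    have : grd f a' b := by
      rw [grd_iff]
      refine ⟨hlt.trans hb'.1, ?_⟩
      intro s hs hsg
      have hsa : ∀ η ∈ s, grd f a η := fun η hη => (sub2 η ((hs η hη).trans hlt) (hsg η hη)).2
      rw [hb.2 s hs hsa]
      apply vtr f a a' e e' hv s
      intro η hη
      exact ⟨hsa η hη, (sub1 η (hs η hη) (hsa η hη)).2⟩
    exact absurd (sub2 b hlt this).1 (lt_irrefl _)
  · exact heq
  · exfalso
    have : grd f a b' := by
      rw [grd_iff]
      refine ⟨hgt.trans hb.1, ?_⟩
      intro s hs hsg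
      have hsa : ∀ η ∈ s, grd f a' η := fun η hη =>
        (sub1 η ((hs η hη).trans hgt) (hsg η hη)).2.1
      rw [hb'.2 s hs hsa]
      apply Eq.symm
      apply vtr f a a' e e' hv s
      intro η hη
      exact ⟨hsg η hη, (sub1 η ((hs η hη).trans hgt) (hsg η hη)).2⟩
    exact absurd (sub1 b' hgt this).1 (lt_irrefl _)

theorem inj_lt (f : Finset X → X → C) {K : Type} (a a' : X)
    (e : {b // grd f a b} ↪ K) (e' : {b // grd f a' b} ↪ K)
    (ho : oc f a e = oc f a' e') (hv : vc f a e = vc f a' e') : ¬ a < a' := by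
  intro hlt
  have aux := inj_aux f a a' e e' ho hv
  have sub2 : ∀ η (hg : grd f a' η), ∃ h : grd f a η, e ⟨η, h⟩ = e' ⟨η, hg⟩ := by
    intro η hg
    obtain ⟨⟨p, hp1⟩, hp⟩ := tr f a' a e' e hv.symm ⟨η, hg⟩
    have e1 : p = η := aux p hp1 η hg hp.symm
    subst e1
    exact ⟨hp1, hp.symm⟩
  have : grd f a' a := by
    rw [grd_iff]
    refine ⟨hlt, ?_⟩
    intro s _ hsg
    apply vtr f a a' e e' hv s
    intro η hη
    obtain ⟨h1, h2⟩ := sub2 η (hsg η hη)
    exact ⟨h1, hsg η hη, h2⟩
  obtain ⟨h, _⟩ := sub2 a this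
  exact lt_irrefl _ ((grd_iff f a a).1 h).1

/-- Some greedy set is large. -/
theorem exists_large (f : Finset X → X → C) (κ : Cardinal.{0}) (hκ : ℵ₀ ≤ κ)
    (hC : #C ≤ 2 ^ κ) (hX : 2 ^ κ < #X) : ∃ a, κ < #{b // grd f a b} := by
  by_contra hcon
  push Not at hcon
  let K : Type := κ.out
  have hK : #K = κ := mk_out κ
  have hKi : Infinite K := by
    rw [Cardinal.infinite_iff, hK]
    exact hκ
  have he : ∀ a, Nonempty ({b // grd f a b} ↪ K) := by
    intro a
    have : #{b // grd f a b} ≤ #K := by rw [hK]; exact hcon a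
    exact this
  let e : ∀ a, {b // grd f a b} ↪ K := fun a => (he a).some
  have inj : Function.Injective (fun a => (oc f a (e a), vc f a (e a))) := by
    intro a a' h
    have h1 : oc f a (e a) = oc f a' (e a') := congrArg Prod.fst h
    have h2 : vc f a (e a) = vc f a' (e a') := congrArg Prod.snd h
    rcases lt_trichotomy a a' with h3 | h3 | h3
    · exact absurd h3 (inj_lt f a a' _ _ h1 h2)
    · exact h3
    · exact absurd h3 (inj_lt f a' a _ _ h1.symm h2.symm)
  have hle : #X ≤ #((K → K → Prop) × (Finset K → Option C)) := mk_le_of_injective inj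
  have h2k : ℵ₀ ≤ (2 : Cardinal.{0}) ^ κ := hκ.trans (cantor κ).le
  have hopt : #(Option C) ≤ 2 ^ κ := by
    rw [mk_option]
    exact add_le_of_le h2k hC (one_le_aleph0.trans h2k)
  have hA : #(K → K → Prop) ≤ 2 ^ κ := by
    have e1 : #(K → K → Prop) = (2 ^ #K) ^ #K := by
      rw [← Cardinal.power_def, ← Cardinal.power_def, Cardinal.mk_Prop]
    rw [e1, hK, ← power_mul, mul_eq_self hκ]
  have hB : #(Finset K → Option C) ≤ 2 ^ κ := by
    have e1 : #(Finset K → Option C) = #(Option C) ^ #(Finset K) := by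
      rw [← Cardinal.power_def]
    rw [e1, Cardinal.mk_finset_of_infinite, hK]
    calc #(Option C) ^ κ ≤ (2 ^ κ) ^ κ := power_le_power_right hopt
      _ = 2 ^ κ := by rw [← power_mul, mul_eq_self hκ]
  have : #((K → K → Prop) × (Finset K → Option C)) ≤ 2 ^ κ := by
    rw [mk_prod, lift_id, lift_id]
    calc #(K → K → Prop) * #(Finset K → Option C) ≤ 2 ^ κ * 2 ^ κ := mul_le_mul' hA hB
      _ = 2 ^ κ := mul_eq_self h2k
  exact absurd (hle.trans this) (not_le.2 hX)

theorem le_tow (n : ℕ) (κ : Cardinal.{0}) : κ ≤ tow n κ := by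
  induction n with
  | zero => exact le_rfl
  | succ n ih => exact ih.trans (cantor _).le

end ErAux

open Classical in
/-- **T1.** -/
theorem er : S_er := by
  intro n
  induction n with
  | zero =>
    intro X C _ _ κ hκ hC hX F
    refine ⟨univ, ?_, ?_⟩
    · rw [mk_univ]
      exact hX
    · intro s t _ _ hst hs
      have h1 : s = ∅ := Finset.card_eq_zero.1 (Nat.le_zero.1 hs)
      have h2 : t = ∅ := Finset.card_eq_zero.1 (by rw [← hst]; exact Nat.le_zero.1 hs)
      rw [h1, h2]
  | succ n ih =>
    intro X C _ _ κ hκ hC hX F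
    have hle := ErAux.le_tow n κ
    obtain ⟨a, ha⟩ := ErAux.exists_large (X := X) (fun s b => F (insert b s)) (tow n κ)
      (hκ.trans hle) ((hC.trans hle).trans (cantor _).le) hX
    obtain ⟨H, hH, hom⟩ := ih {b // ErAux.grd (fun s b => F (insert b s)) a b} (C × C) κ hκ
      (by
        rw [mk_prod, lift_id]
        exact (mul_le_mul' hC hC).trans (mul_eq_self hκ).le) ha
      (fun s => (F (insert a (s.map (Function.Embedding.subtype _))),
        F (s.map (Function.Embedding.subtype _))))
    have hgr : ∀ s : Finset X, (s : Set X) ⊆ Subtype.val '' H →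
        ∃ s1 : Finset {b // ErAux.grd (fun s b => F (insert b s)) a b},
          (s1 : Set _) ⊆ H ∧ s1.card = s.card ∧
            s1.map (Function.Embedding.subtype _) = s := by
      intro s hs
      have hm : (s.subtype (ErAux.grd (fun s b => F (insert b s)) a)).map
          (Function.Embedding.subtype _) = s := by
        apply Finset.subtype_map_of_mem
        intro x hx
        obtain ⟨y, _, rfl⟩ := hs (Finset.mem_coe.2 hx)
        exact y.2
      refine ⟨_, ?_, ?_, hm⟩
      · intro y hy
        have h1 : y.1 ∈ s := Finset.mem_subtype.1 (Finset.mem_coe.1 hy)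
        obtain ⟨z, hz, hzy⟩ := hs (Finset.mem_coe.2 h1)
        rw [← Subtype.ext hzy]
        exact hz
      · rw [← Finset.card_map (Function.Embedding.subtype _), hm]
    refine ⟨Subtype.val '' H, ?_, ?_⟩
    · rw [mk_image_eq Subtype.val_injective]
      exact hH
    · intro s t hs ht hst hsn
      rcases Nat.lt_or_ge n s.card with hn | hn
      · have hsc : s.card = n + 1 := le_antisymm hsn hn
        have htc : t.card = n + 1 := by rw [← hst]; exact hsc
        have step : ∀ u : Finset X, (u : Set X) ⊆ Subtype.val '' H → u.card = n + 1 →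
            ∃ u0 : Finset X, (u0 : Set X) ⊆ Subtype.val '' H ∧ u0.card = n ∧
              F u = F (insert a u0) := by
          intro u hu huc
          have hne : u.Nonempty := Finset.card_pos.1 (by omega)
          have hb : u.max' hne ∈ u := Finset.max'_mem u hne
          refine ⟨u.erase (u.max' hne), ?_, ?_, ?_⟩
          · intro x hx
            exact hu (Finset.mem_coe.2 (Finset.mem_of_mem_erase (Finset.mem_coe.1 hx)))
          · rw [Finset.card_erase_of_mem hb, huc]
            rfl
          · obtain ⟨y, _, hy⟩ := hu (Finset.mem_coe.2 hb)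
            have hg : ErAux.grd (fun s b => F (insert b s)) a (u.max' hne) := by
              rw [← hy]
              exact y.2
            have h1 := ((ErAux.grd_iff _ _ _).1 hg).2 (u.erase (u.max' hne))
              (fun η hη => Finset.lt_max'_of_mem_erase_max' u hne hη)
              (fun η hη => by
                obtain ⟨z, _, hz⟩ := hu (Finset.mem_coe.2 (Finset.mem_of_mem_erase hη))
                rw [← hz]
                exact z.2)
            have h2 : F (insert (u.max' hne) (u.erase (u.max' hne))) =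
              F (insert a (u.erase (u.max' hne))) := h1
            rw [Finset.insert_erase hb] at h2
            exact h2
        obtain ⟨s0, hs0, hs0c, hs0F⟩ := step s hs hsc
        obtain ⟨t0, ht0, ht0c, ht0F⟩ := step t ht htc
        obtain ⟨s1, hs1, hs1c, hs1m⟩ := hgr s0 hs0
        obtain ⟨t1, ht1, ht1c, ht1m⟩ := hgr t0 ht0
        have h := hom s1 t1 hs1 ht1 (by omega) (by omega)
        have h' := congrArg Prod.fst h
        simp only [hs1m, ht1m] at h'
        rw [hs0F, ht0F, h']
      · obtain ⟨s1, hs1, hs1c, hs1m⟩ := hgr s hs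
        obtain ⟨t1, ht1, ht1c, ht1m⟩ := hgr t ht
        have h := hom s1 t1 hs1 ht1 (by omega) (by omega)
        have h' := congrArg Prod.snd h
        simp only [hs1m, ht1m] at h'
        exact h'

end Pool.Agent.H644.TP
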