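import Mathlib
import Pool.Graph.R_seed8.TH766.KT.Forced
import Pool.Agent.H644.TP.Amal

set_option autoImplicit false

/-!
# The strong partition property fails
-/

namespace Pool.Agent.H644.TP

open Set Cardinal Pool.Agent.TH766.KT Pool.Agent.Helper669.Forcing Pool.Agent.Helper980.G
  Pool.Agent.Helper669.K

/-- The colours of a named partition. -/
def Dc {I K : Type} (C : Finset K → Set (Cd I)) (i : Bool) (t : Finset K) : Set (Cd I) :=
  match i with
  | true => meets (C t)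
  | false => fnot (meets (C t))

theorem split_Dc {I K : Type} (C : Finset K → Set (Cd I)) (t : Finset K) :
    Split fun i => Dc C i t where
  lower i := by
    intro a b hb ha
    cases i with
    | true => exact down_meets _ _ ha _ hb
    | false => exact down_fnot _ _ ha _ hb
  disj p h h' := h p le_rfl h'
  dense p := by
    by_cases h : ∃ q ≤ p, q ∈ meets (C t)
    · obtain ⟨q, hq, h⟩ := h
      exact ⟨q, hq, true, h⟩
    · exact ⟨p, le_rfl, false, fun q hq h' => h ⟨q, hq, h'⟩⟩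
  reg i p h := by
    cases i with
    | true => exact meets_of_dense h
    | false =>
      intro q hq h'
      obtain ⟨r, hr, h1⟩ := h q hq
      exact h1 r le_rfl (down_meets _ _ h' _ hr)

theorem decide_fn {I K : Type} (R : ℕ → K → Set (Cd I)) (p : Cd I) (hp : p ∈ IsFun R) :
    ∃ q ≤ p, ∃ f : ℕ → K, ∀ a, q ∈ meets (R a (f a)) := by
  obtain ⟨q, hq, h⟩ := (sigmaClosed_PF I Bool).meet (fun a => {r | ∃ y, r ∈ meets (R a y)})
    (fun a r s hs ⟨y, hy⟩ => ⟨y, down_meets _ _ hy _ hs⟩) p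
    (fun a r hr => by
      obtain ⟨s, hs, y, hy⟩ := IsFun.total (down_IsFun _ _ hp _ hr) a
      exact ⟨s, hs, y, hy⟩)
  choose f hf using h
  exact ⟨q, hq, f, hf⟩

/-- If a set has the property that each of its infinite subsets contains a triple of colour `i`
then it has no infinite subset homogeneous for the other colour. -/
theorem not_infHom {I K : Type} {D : Finset K → Set (Cd I)} {φ : Finset K → Set (Cd I)}
    (hφ : ∀ t r, r ∈ D t → r ∉ φ t) (hdD : ∀ t, Down (D t)) {A : K → Set (Cd I)} {q0 : Cd I}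
    (hA : ∀ q ≤ q0, ∀ f : ℕ → K, Function.Injective f → (∀ n, q ∈ meets (A (f n))) →
      ∃ r ≤ q, ∃ t : Finset K, t.card = 3 ∧ (t : Set K) ⊆ range f ∧ r ∈ D t) :
    q0 ∉ InfHom A φ := by
  intro h
  obtain ⟨q1, hq1, H, hH, hsub, hhom⟩ := mem_fex.1 h q0 le_rfl
  obtain ⟨q2, hq2, R, hf, hi, hR⟩ := mem_fex.1 hH q1 le_rfl
  obtain ⟨q3, hq3, f, hf3⟩ := decide_fn R q2 hf
  have hinj : Function.Injective f := by
    intro m n hmn
    obtain ⟨r, hr, h1⟩ := mem_fimp.1 (hi m n (f m)) q3 hq3 ⟨hf3 m, by rw [hmn]; exact hf3 n⟩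
    exact h1
  have hfH : ∀ n, q3 ∈ meets (H (f n)) := fun n => meets_of_fimp
    (down_fimp _ _ _ (hR n (f n)) _ hq3) (hf3 n)
  have hfA : ∀ n, q3 ∈ meets (A (f n)) := fun n => meets_of_fimp
    (down_fimp _ _ _ (hsub (f n)) _ (hq3.trans hq2)) (hfH n)
  obtain ⟨r, hr, t, ht, htf, hrD⟩ := hA q3 (hq3.trans (hq2.trans hq1)) f hinj hfA
  have h1 := hhom t ht
  obtain ⟨r', hr', h2⟩ := mem_fimp.1 h1 r (hr.trans (hq3.trans hq2)) (by
    intro x hx
    obtain ⟨n, rfl⟩ := htf hx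
    exact down_meets _ _ (hfH n) _ hr)
  exact hφ t r' (hdD t _ hrD _ hr') h2

theorem fail (hframe : S_frame) (hα : S_alphaFinal) (hβ : S_betaTree) (hβ' : S_betaFinal) :
    S_fail := by
  intro I K hI hK p q hq hSP
  obtain ⟨r, hr, C, hC⟩ := mem_fex.1 hSP q le_rfl
  obtain ⟨Fr⟩ := hframe I K hI hK (Dc C) (split_Dc C)
  let blk : W1 ×ₗ W1 → W1 := fun x => (ofLex x).1
  have hb : ∀ x y : W1 ×ₗ W1, blk x < blk y → x < y := fun x y h => Prod.Lex.lt_iff.2 (Or.inl h)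
  have hu : ∀ ξ, ¬ {x : W1 ×ₗ W1 | blk x = ξ}.Countable := by
    intro ξ h
    apply uncountable_univ
    have h1 : (fun ζ : W1 => (toLex (ξ, ζ) : W1 ×ₗ W1)) ⁻¹' {x | blk x = ξ} = Set.univ :=
      eq_univ_of_forall fun ζ => rfl
    rw [← h1]
    refine h.preimage_of_injOn ?_
    intro a _ b _ hab
    have := toLex.injective hab
    simpa using this
  have key : ∃ q0 ≤ r, ∃ A : K → Set (Cd I), q0 ∈ AtLeast W1 A ∧ ∃ i : Bool,
      ∀ q ≤ q0, ∀ f : ℕ → K, Function.Injective f → (∀ n, q ∈ meets (A (f n))) →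
      ∃ r ≤ q, ∃ t : Finset K, t.card = 3 ∧ (t : Set K) ⊆ range f ∧ r ∈ Dc C i t := by
    by_cases hcase : ∃ (G : Set (G4 (Cd Fr.Λ))) (_ : IsLowerSet G) (ρ : Cd Fr.Λ)
        (_ : ρ ≤ pc Fr.Θ ∅ r) (u : ℕ → Cd Fr.Λ), Alpha (NN Fr.col) G ρ u
    · obtain ⟨G, hG, ρ, hρ, u, hA⟩ := hcase
      obtain ⟨q0, hq0, h1, _⟩ := amal_one Fr.Θ r ∅ ρ hρ
      obtain ⟨A, hA1, hA2⟩ := hα I K (W1 ×ₗ W1) blk hb hu (Dc C) Fr G hG ρ u hA q0 h1.le
      exact ⟨q0, hq0, A, hA1, true, hA2⟩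
    · push Not at hcase
      obtain ⟨ρ, hρ, U, hU⟩ := hβ (Cd Fr.Λ) (sigmaClosed_PF _ _) (NN Fr.col)
        (fun a b hb ha t' ht' => ha t' (ht'.trans hb)) (pc Fr.Θ ∅ r)
        (fun G hG ρ hρ u => hcase G hG ρ hρ u)
      obtain ⟨q0, hq0, h1, _⟩ := amal_one Fr.Θ r ∅ ρ hρ
      obtain ⟨A, hA1, hA2⟩ := hβ' I K (W1 ×ₗ W1) blk hb hu (Dc C) Fr ρ U hU q0 h1.le
      exact ⟨q0, hq0, A, hA1, false, hA2⟩
  obtain ⟨q0, hq0, A, hA1, i, hA2⟩ := key
  obtain ⟨q1, hq1, h1, h2⟩ := mem_fimp.1 (hC A) q0 hq0 hA1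
  cases i with
  | true =>
    refine not_infHom (D := Dc C true) (φ := fun t => fnot (meets (C t))) ?_
      (fun t => down_meets _)
      (fun q hq => hA2 q (hq.trans hq1)) h2
    intro t r h h'
    exact h' r le_rfl h
  | false =>
    refine not_infHom (D := Dc C false) (φ := fun t => meets (C t)) ?_ (fun t => down_fnot _)
      (fun q hq => hA2 q (hq.trans hq1)) h1
    intro t r h h'
    exact h r le_rfl h'

end Pool.Agent.H644.TP
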