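import Mathlib
import Pool.Agent.H644.TP.Spec
import Pool.Graph.R_seed8.TH766.KT.Forced

set_option autoImplicit false

/-!
# The general facts on the forcing with countable partial functions
-/

namespace Pool.Agent.H644.TP

open Set Cardinal Pool.Agent.TH766.KT Pool.Agent.Helper669.Forcing Pool.Agent.Helper980.G
  Pool.Agent.Helper669.K

namespace Forc

/-- No new functions on countable sets. -/
theorem decide_fun {C : Type} [Preorder C] (hC : SigmaClosed C) (A Y : Type) (hA : #A ≤ ℵ₀)
    (R : A → Y → Set C) (p : C) (hp : p ∈ IsFun R) :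
    ∃ q ≤ p, ∃ f : A → Y, ∀ a, q ∈ meets (R a (f a)) := by
  have : Countable A := Cardinal.mk_le_aleph0_iff.1 hA
  obtain ⟨q, hq, h⟩ := hC.meet (fun a : A => {r | ∃ y, r ∈ meets (R a y)})
    (fun a r s hs => fun ⟨y, hy⟩ => ⟨y, down_meets _ _ hy _ hs⟩) p
    (fun a r hr => by
      obtain ⟨s, hs, y, hy⟩ := IsFun.total (down_IsFun _ _ hp _ hr) a
      exact ⟨s, hs, y, hy⟩)
  choose f hf using h
  exact ⟨q, hq, f, hf⟩

/-- The first uncountable cardinal is preserved. -/
theorem omegaOne {C : Type} [Preorder C] (hC : SigmaClosed C) (p : C) :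
    p ∈ OmegaOnePreserved C := by
  intro q _ h
  obtain ⟨r, _, R, hR, hO⟩ := mem_fex.1 h q le_rfl
  obtain ⟨s, hs, f, hf⟩ := decide_fun hC ℕ W1 mk_nat.le R r hR
  have h1 : ∃ b : W1, b ∉ range f := by
    by_contra hcon
    push Not at hcon
    exact uncountable_univ ((countable_range f).mono fun b _ => hcon b)
  obtain ⟨b, hb⟩ := h1
  obtain ⟨t, ht, n, hn⟩ := mem_fex.1 (hO b) s hs
  apply hb
  exact ⟨n, IsFun.unique (down_IsFun _ _ hR _ (ht.trans hs)) (down_meets _ _ (hf n) _ ht) hn⟩

open Classical in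
/-- Adding the values of `g` at the new places in a countable set. -/
noncomputable def ext {I : Type} (p : Cd I) (T : Set I) (hT : T.Countable) (g : I → Bool) :
    Cd I :=
  ⟨fun i => if i ∈ T then some (g i) else p.f i, by
    refine (hT.union p.ctb).mono ?_
    intro i hi
    by_cases h : i ∈ T
    · exact Or.inl h
    · have hi' : (if i ∈ T then some (g i) else p.f i) ≠ none := hi
      rw [if_neg h] at hi'
      exact Or.inr hi'⟩

theorem ext_mem {I : Type} (p : Cd I) (T : Set I) (hT : T.Countable) (g : I → Bool) {i : I}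
    (h : i ∈ T) : (ext p T hT g).f i = some (g i) := if_pos h

theorem ext_le {I : Type} (p : Cd I) (T : Set I) (hT : T.Countable) (g : I → Bool)
    (hd : ∀ i ∈ T, p.f i = none) : ext p T hT g ≤ p := by
  classical
  intro i b hb
  have h : i ∉ T := by
    intro h
    rw [hd i h] at hb
    exact absurd hb (by simp)
  show (if i ∈ T then some (g i) else p.f i) = some b
  rw [if_neg h]
  exact hb

/-- a condition with the value `false` at `i` forces that the value is not `true` -/
theorem not_meets {I : Type} {t : Cd I} {i : I} (h : t.f i = some false) :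
    t ∈ fnot (meets {r : Cd I | r.f i = some true}) := by
  intro u hu h4
  obtain ⟨v, hv, w, hw, hvw⟩ := h4 u le_rfl
  have hw' : w.f i = some true := hw
  have h5 : v.f i = some true := hvw i true hw'
  have h7 : v ≤ t := le_trans hv hu
  have h6 : v.f i = some false := h7 i false h
  rw [h5] at h6
  exact absurd h6 (by simp)

variable {K : Type}

/-- The domain of a branch is countable. -/
theorem ctb_sec (p : Cd (K × W1)) (x : K) : {ξ | p.f (x, ξ) ≠ none}.Countable :=
  p.ctb.preimage (f := fun ξ : W1 => (x, ξ)) (fun _ _ h => (Prod.ext_iff.1 h).2)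

/-- The generic branches are different. -/
theorem lePower_generic (p : Cd (K × W1)) : p ∈ LePower (Cd (K × W1)) W1 K := by
  classical
  refine mem_fex.2 fun q _ => ⟨q, le_rfl, fun y ξ => {r | r.f (y, ξ) = some true}, ?_⟩
  intro y y' hne
  refine mem_fex.2 fun r _ => ?_
  obtain ⟨ξ, hξ⟩ := exists_gt _ ((ctb_sec r y).union (ctb_sec r y'))
  have h1 : r.f (y, ξ) = none := by
    by_contra h
    exact lt_irrefl _ (hξ ξ (Or.inl h))
  have h2 : r.f (y', ξ) = none := by
    by_contra h
    exact lt_irrefl _ (hξ ξ (Or.inr h))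
  set T : Set (K × W1) := {(y, ξ), (y', ξ)} with hT
  have hTc : T.Countable := (Set.toFinite T).countable
  set g : K × W1 → Bool := fun i => decide (i.1 = y) with hg
  have hle : ext r T hTc g ≤ r := ext_le r T hTc g (by
    rintro i (rfl | hi)
    · exact h1
    · rw [Set.mem_singleton_iff.1 hi]
      exact h2)
  refine ⟨ext r T hTc g, hle, ξ, ?_⟩
  have e1 : (ext r T hTc g).f (y, ξ) = some true := by
    rw [ext_mem r T hTc g (Or.inl rfl)]
    simp [hg]
  have e2 : (ext r T hTc g).f (y', ξ) = some false := by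
    rw [ext_mem r T hTc g (Or.inr rfl)]
    simp [hg, Ne.symm hne]
  exact for_left (down_fand (down_meets _) (down_fnot _)) ⟨meets_of_mem e1, not_meets e2⟩

/-- The continuum hypothesis is forced. -/
theorem powerLe_nat [Nonempty K] (p : Cd (K × W1)) : p ∈ PowerLe (Cd (K × W1)) ℕ W1 := by
  classical
  obtain ⟨x⟩ := ‹Nonempty K›
  refine mem_fex.2 fun q hq => ⟨q, le_rfl, fun δ n => {r | r.f (x, pt δ n) = some true},
    fun A => ?_⟩
  refine mem_fex.2 fun r hr => ?_
  obtain ⟨s, hs, h1⟩ := decide_subset (p := r) A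
    (fun Y R h => decide_fun (sigmaClosed_PF _ _) ℕ Y mk_nat.le R r h)
  obtain ⟨δ, hδ⟩ := exists_gt _ (ctb_sec s x)
  set T : Set (K × W1) := range fun n => (x, pt δ n) with hT
  have hTc : T.Countable := countable_range _
  set g : K × W1 → Bool := fun i => decide (∃ n, i.2 = pt δ n ∧ s ∈ meets (A n)) with hg
  have hle : ext s T hTc g ≤ s := ext_le s T hTc g (by
    rintro _ ⟨n, rfl⟩
    by_contra h
    exact absurd (hδ _ h) (not_lt.2 (le_pt δ n)))
  set t := ext s T hTc g with ht
  have h3 : ∀ n, t.f (x, pt δ n) = some (decide (s ∈ meets (A n))) := by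
    intro n
    rw [ht, ext_mem s T hTc g ⟨n, rfl⟩]
    congr 1
    rw [hg]
    simp only [decide_eq_decide]
    constructor
    · rintro ⟨m, hm, h⟩
      rw [(pt_strictMono δ).injective hm]
      exact h
    · intro h
      exact ⟨n, rfl, h⟩
  refine ⟨t, hle.trans hs, δ, fun n => ⟨mem_fimp.2 fun u hu h4 => ⟨u, le_rfl, ?_⟩,
    mem_fimp.2 fun u hu h4 => ⟨u, le_rfl, ?_⟩⟩⟩
  · rcases h1 n with h5 | h5
    · have h6 : t.f (x, pt δ n) = some true := by rw [h3 n, decide_eq_true h5]
      have h7 : t ∈ meets {r : Cd (K × W1) | r.f (x, pt δ n) = some true} := meets_of_mem h6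
      exact down_meets _ _ h7 _ hu
    · exact absurd h4 (h5 u (hu.trans hle))
  · by_cases h5 : s ∈ meets (A n)
    · exact down_meets _ _ h5 _ (hu.trans hle)
    · have h6 : t.f (x, pt δ n) = some false := by rw [h3 n, decide_eq_false h5]
      exact absurd h4 (not_meets h6 u hu)

/-- The graph of a condition. -/
def gr {I : Type} (p : Cd I) : {s : Set (I × Bool) // s.Countable} :=
  ⟨{y | p.f y.1 = some y.2}, by
    have hc : Countable {i | p.f i ≠ none} := Set.countable_coe_iff.2 p.ctb
    have h1 : Function.Injective (fun y : {y : I × Bool // p.f y.1 = some y.2} =>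
        (⟨y.1.1, by rw [Set.mem_ofPred_eq, y.2]; simp⟩ : {i | p.f i ≠ none})) := by
      rintro ⟨⟨i, b⟩, hy⟩ ⟨⟨j, c⟩, hz⟩ h
      have h2 : i = j := by simpa using h
      subst h2
      apply Subtype.ext
      have h3 : p.f i = some b := hy
      have h4 : p.f i = some c := hz
      rw [h3, Option.some_inj] at h4
      show (i, b) = (i, c)
      rw [h4]
    exact Set.countable_coe_iff.1 (h1.countable)⟩

theorem mk_Cd {I : Type} {κ : Cardinal.{0}} (h0 : ℵ₀ ≤ κ) (hI : #I ≤ κ)
    (h2 : κ ^ (ℵ₀ : Cardinal.{0}) = κ) : #(Cd I) ≤ κ := by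
  have e1 : #{s : Set (I × Bool) // s.Countable} ≤ κ := by
    refine mk_countable_sets h0 ?_ h2
    rw [← Cardinal.mul_def]
    calc #I * #Bool ≤ κ * κ := mul_le_mul' hI ((Cardinal.lt_aleph0_of_finite Bool).le.trans h0)
      _ = κ := mul_eq_self h0
  refine (Cardinal.mk_le_of_injective (f := fun p : Cd I => gr p) ?_).trans e1
  intro p q h
  have h1 : ∀ p q : Cd I, gr p = gr q → ∀ i b, p.f i = some b → q.f i = some b := by
    intro p q hg i b hb
    have h3 : ((i, b) : I × Bool) ∈ (gr p).1 := hb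
    rw [hg] at h3
    exact h3
  exact le_antisymm (fun i b hb => h1 q p h.symm i b hb) (fun i b hb => h1 p q h i b hb)

end Forc

open Forc in
theorem forcing (hcc : S_cc) : S_forcing := by
  intro K hK0 hK p
  have h2K : 2 ^ (𝔠 : Cardinal.{0}) ≤ #K := by
    rw [← hK]
    exact power_le_power_right hK0
  have hcK : 𝔠 ≤ #K := (cantor _).le.trans h2K
  have h0K : ℵ₀ ≤ #K := aleph0_le_continuum.trans hcK
  have hKne : #K ≠ 0 := fun h => by
    rw [h] at h0K
    exact absurd h0K (not_le.2 aleph0_pos)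
  have hKω : #K ^ (ℵ₀ : Cardinal.{0}) = #K := by
    apply le_antisymm
    · calc #K ^ (ℵ₀ : Cardinal.{0}) ≤ #K ^ (𝔠 : Cardinal.{0}) :=
            power_le_power_left hKne aleph0_le_continuum
        _ = #K := hK
    · exact self_le_power _ one_le_aleph0
  have hne : Nonempty K := mk_ne_zero_iff.1 hKne
  have hI : #(K × W1) ≤ #K := by
    rw [← Cardinal.mul_def, mk_W1]
    calc #K * ℵ_ 1 ≤ #K * #K := mul_le_mul' le_rfl (aleph_one_le_continuum.trans hcK)
      _ = #K := mul_eq_self h0K
  have hcard : #(Cd (K × W1)) ≤ #K := mk_Cd h0K hI hKω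
  have hdec : ∀ (A Y : Type) (_ : #A ≤ ℵ₀) (R : A → Y → Set (Cd (K × W1))) (p : Cd (K × W1)),
      p ∈ IsFun R → ∃ q ≤ p, ∃ f : A → Y, ∀ a, q ∈ meets (R a (f a)) :=
    decide_fun (sigmaClosed_PF _ _)
  refine ⟨omegaOne (sigmaClosed_PF _ _) p, ⟨powerLe_nat p, ?_⟩, ⟨?_, lePower_generic p⟩, ?_⟩
  · refine lePower_ground ?_ p
    rw [mk_nat, two_power_aleph0, mk_W1]
    exact aleph_one_le_continuum
  · refine powerLe_names (κ := 𝔠) (hcc (K × W1)) ?_ p
    have h3 : #(Option (Cd (K × W1))) ≤ #K := by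
      rw [mk_option]
      exact add_le_of_le h0K hcard (one_le_aleph0.trans h0K)
    calc (#(Option (Cd (K × W1))) ^ (𝔠 : Cardinal.{0})) ^ #W1
        ≤ (#K ^ (𝔠 : Cardinal.{0})) ^ #W1 :=
          power_le_power_right (power_le_power_right h3)
      _ = #K ^ #W1 := by rw [hK]
      _ ≤ #K ^ (𝔠 : Cardinal.{0}) := power_le_power_left hKne
          (mk_W1.le.trans aleph_one_le_continuum)
      _ = #K := hK
  · intro hCH
    refine cardinals_preserved (θ := ℵ₀) (κ := 𝔠) aleph0_le_continuum ?_ (hcc (K × W1)) hdec p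
    intro ν hν
    rw [hCH, ← succ_aleph0]
    exact Order.succ_le_of_lt hν

end Pool.Agent.H644.TP
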