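import Pool.Agent.H644.TP.Spec

set_option autoImplicit false

/-!
# Uniformization with the Erdős–Rado theorem
-/

namespace Pool.Agent.H644.TP

open Set Cardinal

namespace HomogAux

section Rank

variable {K : Type} [LinearOrder K]

/-- the rank of `x` in `u` -/
def rk (u : Finset K) (x : K) : ℕ := (u.filter (fun y => y < x)).card

/-- the elements of `u` whose rank is in `σ` -/
def sb (u : Finset K) (σ : Finset ℕ) : Finset K := u.filter (fun x => rk u x ∈ σ)

theorem rk_lt {u : Finset K} {x y : K} (hx : x ∈ u) (h : x < y) : rk u x < rk u y := by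
  unfold rk
  apply Finset.card_lt_card
  refine Finset.ssubset_iff_subset_ne.2 ⟨?_, fun he => ?_⟩
  · intro z hz
    rw [Finset.mem_filter] at hz ⊢
    exact ⟨hz.1, hz.2.trans h⟩
  · have h1 : x ∈ u.filter (fun z => z < y) := Finset.mem_filter.2 ⟨hx, h⟩
    rw [← he, Finset.mem_filter] at h1
    exact lt_irrefl _ h1.2

theorem rk_inj {u : Finset K} {x y : K} (hx : x ∈ u) (hy : y ∈ u) (h : rk u x = rk u y) :
    x = y := by
  rcases lt_trichotomy x y with h1 | h1 | h1
  · exact absurd h (rk_lt hx h1).ne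
  · exact h1
  · exact absurd h.symm (rk_lt hy h1).ne

theorem sb_image {u v : Finset K} (hv : v ⊆ u) : sb u (v.image (rk u)) = v := by
  ext x
  simp only [sb, Finset.mem_filter, Finset.mem_image]
  constructor
  · rintro ⟨hx, y, hy, hxy⟩
    rw [← rk_inj (hv hy) hx hxy]
    exact hy
  · intro hx
    exact ⟨hv hx, x, hx, rfl⟩

theorem card_image_le' {ι : Type} {S : Finset ι} {φ φ' : ι → K}
    (h : ∀ a b, φ a = φ b → φ' a = φ' b) : (S.image φ').card ≤ (S.image φ).card := by
  classical
  let f : K → K := fun y => if hy : ∃ b, φ b = y then φ' hy.choose else y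
  have hf : ∀ a, f (φ a) = φ' a := by
    intro a
    have hy : ∃ b, φ b = φ a := ⟨a, rfl⟩
    show (if hy : ∃ b, φ b = φ a then φ' hy.choose else φ a) = φ' a
    rw [dif_pos hy]
    exact h _ _ hy.choose_spec
  have h1 : S.image φ' = (S.image φ).image f := by
    rw [Finset.image_image]
    exact Finset.image_congr (fun a _ => (hf a).symm)
  rw [h1]
  exact Finset.card_image_le

theorem card_image_congr {ι : Type} {S : Finset ι} {φ φ' : ι → K}
    (h : ∀ a b, φ a = φ b ↔ φ' a = φ' b) : (S.image φ').card = (S.image φ).card :=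
  le_antisymm (card_image_le' fun a b => (h a b).1) (card_image_le' fun a b => (h a b).2)

theorem eq_iff_of_lt {ι : Type} {φ φ' : ι → K} (h : ∀ a b, φ a < φ b ↔ φ' a < φ' b) (a b : ι) :
    φ a = φ b ↔ φ' a = φ' b := by
  constructor
  · intro he
    refine le_antisymm (not_lt.1 fun h1 => ?_) (not_lt.1 fun h1 => ?_)
    · exact ((h b a).2 h1).ne he.symm
    · exact ((h a b).2 h1).ne he
  · intro he
    refine le_antisymm (not_lt.1 fun h1 => ?_) (not_lt.1 fun h1 => ?_)
    · exact ((h b a).1 h1).ne he.symm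
    · exact ((h a b).1 h1).ne he

variable {ι : Type} [Fintype ι] {φ φ' : ι → K}

theorem rk_congr (h : ∀ a b, φ a < φ b ↔ φ' a < φ' b) (a : ι) :
    rk (Finset.univ.image φ') (φ' a) = rk (Finset.univ.image φ) (φ a) := by
  have e : ∀ ψ : ι → K, (Finset.univ.image ψ).filter (fun y => y < ψ a) =
      (Finset.univ.filter (fun b => ψ b < ψ a)).image ψ := by
    intro ψ
    rw [Finset.filter_image]
  unfold rk
  rw [e φ, e φ']
  have e2 : (Finset.univ.filter (fun b => φ' b < φ' a)) = (Finset.univ.filter (fun b => φ b < φ a)) := by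
    apply Finset.filter_congr
    intro b _
    exact (h b a).symm
  rw [e2]
  exact card_image_congr (eq_iff_of_lt h)

theorem image_rk_congr (h : ∀ a b, φ a < φ b ↔ φ' a < φ' b) (S : Finset ι) :
    (S.image φ').image (rk (Finset.univ.image φ')) = (S.image φ).image (rk (Finset.univ.image φ)) := by
  rw [Finset.image_image, Finset.image_image]
  exact Finset.image_congr (fun a _ => rk_congr h a)

end Rank

section Card

theorem mk_Cd : #(Cd (ℕ → Bool)) ≤ 𝔠 := by
  have h1 : #(Cd (ℕ → Bool)) ≤ #{S : Set ((ℕ → Bool) × Bool) // #S ≤ ℵ₀} := by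
    refine Cardinal.mk_le_of_injective (f := fun p => ⟨{x | p.f x.1 = some x.2}, ?_⟩) ?_
    · rw [Cardinal.mk_le_aleph0_iff, Set.countable_coe_iff]
      have h2 : {x : (ℕ → Bool) × Bool | p.f x.1 = some x.2} ⊆ {i | p.f i ≠ none} ×ˢ Set.univ := by
        rintro ⟨i, b⟩ hx
        have hx' : p.f i = some b := hx
        refine ⟨?_, mem_univ _⟩
        show p.f i ≠ none
        rw [hx']
        simp
      exact (p.ctb.prod countable_univ).mono h2
    · intro p q hpq
      have h2 : {x : (ℕ → Bool) × Bool | p.f x.1 = some x.2} =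
          {x : (ℕ → Bool) × Bool | q.f x.1 = some x.2} := congrArg Subtype.val hpq
      apply PF.ext'
      intro i
      apply Option.ext
      intro b
      exact Set.ext_iff.1 h2 (i, b)
  refine h1.trans ((Cardinal.mk_bounded_set_le _ _).trans ?_)
  have h2 : max #((ℕ → Bool) × Bool) ℵ₀ ≤ 𝔠 := by
    refine max_le ?_ aleph0_le_continuum
    simp
  calc (max #((ℕ → Bool) × Bool) ℵ₀) ^ ℵ₀ ≤ 𝔠 ^ ℵ₀ := Cardinal.power_le_power_right h2
    _ = 𝔠 := continuum_power_aleph0

/-- the type of the data of a colour -/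
abbrev Da : Type := (Bool × Cd (ℕ → Bool)) ⊕ (Finset ℕ × Finset ℕ × (ℕ → Bool) × (ℕ → Bool))

theorem mk_Da : #Da ≤ 𝔠 := by
  have h1 : #(Bool × Cd (ℕ → Bool)) ≤ 𝔠 := by
    rw [Cardinal.mk_prod]
    simp only [Cardinal.lift_id]
    calc #Bool * #(Cd (ℕ → Bool)) ≤ 𝔠 * 𝔠 := by
          refine mul_le_mul' ?_ mk_Cd
          rw [Cardinal.mk_bool]
          exact (Cardinal.natCast_lt_aleph0 (n := 2)).le.trans aleph0_le_continuum
      _ = 𝔠 := continuum_mul_self
  have h2 : #(Finset ℕ × Finset ℕ × (ℕ → Bool) × (ℕ → Bool)) ≤ 𝔠 := by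
    simp
  rw [Cardinal.mk_sum]
  simp only [Cardinal.lift_id]
  calc _ ≤ 𝔠 + 𝔠 := add_le_add h1 h2
    _ = 𝔠 := continuum_add_self

end Card

section Emb

/-- a small well order embeds in a large one -/
theorem exists_strictMono {Y K : Type} [LinearOrder Y] [WellFoundedLT Y] [LinearOrder K]
    [WellFoundedLT K] (H : Set K) (h : #Y < #H) : ∃ g : Y → K, StrictMono g ∧ ∀ y, g y ∈ H := by
  rcases InitialSeg.total (α := Y) (β := H) (· < ·) (· < ·) with f | f
  · refine ⟨fun y => (f y : K), fun a b hab => ?_, fun y => (f y).2⟩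
    exact f.map_rel_iff.2 hab
  · exfalso
    have h1 : #H ≤ #Y := Cardinal.mk_le_of_injective f.injective
    exact absurd h (not_lt.2 h1)

end Emb

end HomogAux

open HomogAux in
/-- **T3.** Uniformization with the Erdős–Rado theorem. -/
theorem homog : S_er → S_support → S_hom := by
  intro her hsup I K _ _ hI hK D hD Y _ _ hY
  classical
  -- supports
  choose W hW using fun s : Finset K => hsup I hI (fun i => D i s) (hD s)
  -- the colouring
  let F : Finset K → Set Da := fun s =>
    {a | Sum.elim (fun a => PF.push (W s) a.2 ∈ D a.1 s)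
      (fun a => W (sb s a.1) a.2.2.1 = W (sb s a.2.1) a.2.2.2) a}
  have hC : #(Set Da) ≤ 2 ^ 𝔠 := by
    rw [Cardinal.mk_set]
    exact Cardinal.power_le_power_left two_ne_zero mk_Da
  have h0 : ℵ₀ ≤ (2 : Cardinal.{0}) ^ 𝔠 := aleph0_le_continuum.trans (Cardinal.cantor 𝔠).le
  obtain ⟨H, hH, hhom⟩ := her 6 K (Set Da) (2 ^ 𝔠) h0 hC hK F
  have hYH : #Y < #H := by
    refine lt_of_le_of_lt hY (lt_of_le_of_lt ?_ hH)
    exact aleph_one_le_continuum.trans (Cardinal.cantor 𝔠).le
  obtain ⟨g, hg, hgH⟩ := exists_strictMono H hYH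
  -- the finite sets of the triples
  let T : (Fin 3 → Y) → Finset K := fun t => Finset.univ.image (fun j => g (t j))
  have hTH : ∀ t, (T t : Set K) ⊆ H := by
    intro t x hx
    rw [Finset.mem_coe, Finset.mem_image] at hx
    obtain ⟨j, -, rfl⟩ := hx
    exact hgH _
  have hTc : ∀ t, StrictMono t → (T t).card = 3 := by
    intro t ht
    have h1 : (Finset.univ.image (g ∘ t)).card = 3 := by
      rw [Finset.card_image_of_injective _ ((hg.comp ht).injective)]
      simp
    exact h1
  -- the common colour of the triples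
  have hCex : ∃ C : Bool → Set (Cd (ℕ → Bool)), ∀ t, StrictMono t → ∀ i f,
      PF.push (W (T t)) f ∈ D i (T t) ↔ f ∈ C i := by
    by_cases hex : ∃ t0 : Fin 3 → Y, StrictMono t0
    · obtain ⟨t0, ht0⟩ := hex
      refine ⟨fun i => {f | PF.push (W (T t0)) f ∈ D i (T t0)}, fun t ht i f => ?_⟩
      have h1 := hhom (T t) (T t0) (hTH t) (hTH t0) (by rw [hTc t ht, hTc t0 ht0])
        (by rw [hTc t ht]; norm_num)
      exact Set.ext_iff.1 h1 (Sum.inl (i, f))
    · exact ⟨fun _ => ∅, fun t ht => absurd ⟨t, ht⟩ hex⟩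
  obtain ⟨C, hCs⟩ := hCex
  refine ⟨g, fun t => W (T t), C, hg, fun t => (W (T t)).injective, ?_, ?_⟩
  · -- the pattern
    intro t t' s s' ht ht' hs hs' h1 h2 l m
    let φ : Fin 3 ⊕ Fin 3 → K := Sum.elim (fun j => g (t j)) (fun j => g (t' j))
    let φ' : Fin 3 ⊕ Fin 3 → K := Sum.elim (fun j => g (s j)) (fun j => g (s' j))
    have hlt : ∀ a b, φ a < φ b ↔ φ' a < φ' b := by
      rintro (a | a) (b | b)
      · show g (t a) < g (t b) ↔ g (s a) < g (s b)
        rw [hg.lt_iff_lt, hg.lt_iff_lt, ht.lt_iff_lt, hs.lt_iff_lt]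
      · show g (t a) < g (t' b) ↔ g (s a) < g (s' b)
        rw [hg.lt_iff_lt, hg.lt_iff_lt]
        exact h1 a b
      · show g (t' a) < g (t b) ↔ g (s' a) < g (s b)
        rw [hg.lt_iff_lt, hg.lt_iff_lt]
        exact h2 a b
      · show g (t' a) < g (t' b) ↔ g (s' a) < g (s' b)
        rw [hg.lt_iff_lt, hg.lt_iff_lt, ht'.lt_iff_lt, hs'.lt_iff_lt]
    have hH' : ∀ ψ : Fin 3 ⊕ Fin 3 → K, (∀ a, ψ a ∈ H) →
        ((Finset.univ.image ψ : Finset K) : Set K) ⊆ H := by
      intro ψ hψ x hx
      rw [Finset.mem_coe, Finset.mem_image] at hx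
      obtain ⟨a, -, rfl⟩ := hx
      exact hψ a
    have hφH : ∀ a, φ a ∈ H := by
      rintro (a | a)
      · exact hgH _
      · exact hgH _
    have hφH' : ∀ a, φ' a ∈ H := by
      rintro (a | a)
      · exact hgH _
      · exact hgH _
    have hcard : (Finset.univ.image φ').card = (Finset.univ.image φ).card :=
      card_image_congr (eq_iff_of_lt hlt)
    have hle : (Finset.univ.image φ).card ≤ 6 := by
      refine Finset.card_image_le.trans ?_
      simp
    have hF := hhom (Finset.univ.image φ) (Finset.univ.image φ') (hH' φ hφH) (hH' φ' hφH')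
      hcard.symm hle
    -- the triples as images of the index set
    have e1 : ∀ (a b : Fin 3 → Y), (Finset.univ.image (Sum.inl : Fin 3 → Fin 3 ⊕ Fin 3)).image
        (Sum.elim (fun j => g (a j)) (fun j => g (b j))) = T a := by
      intro a b
      rw [Finset.image_image]
      rfl
    have e2 : ∀ (a b : Fin 3 → Y), (Finset.univ.image (Sum.inr : Fin 3 → Fin 3 ⊕ Fin 3)).image
        (Sum.elim (fun j => g (a j)) (fun j => g (b j))) = T b := by
      intro a b
      rw [Finset.image_image]
      rfl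
    have r1 := image_rk_congr hlt (Finset.univ.image (Sum.inl : Fin 3 → Fin 3 ⊕ Fin 3))
    have r2 := image_rk_congr hlt (Finset.univ.image (Sum.inr : Fin 3 → Fin 3 ⊕ Fin 3))
    have hsub : ∀ (ψ : Fin 3 ⊕ Fin 3 → K) (S : Finset (Fin 3 ⊕ Fin 3)),
        S.image ψ ⊆ Finset.univ.image ψ := fun ψ S =>
      Finset.image_subset_image (Finset.subset_univ S)
    have q1 := sb_image (hsub φ (Finset.univ.image Sum.inl))
    have q2 := sb_image (hsub φ (Finset.univ.image Sum.inr))
    have q1' := sb_image (hsub φ' (Finset.univ.image Sum.inl))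
    have q2' := sb_image (hsub φ' (Finset.univ.image Sum.inr))
    rw [r1] at q1'
    rw [r2] at q2'
    have hF2 := Set.ext_iff.1 hF (Sum.inr
      (((Finset.univ.image Sum.inl).image φ).image (rk (Finset.univ.image φ)),
       ((Finset.univ.image Sum.inr).image φ).image (rk (Finset.univ.image φ)), l, m))
    have hF3 : W (sb (Finset.univ.image φ)
          (((Finset.univ.image Sum.inl).image φ).image (rk (Finset.univ.image φ)))) l =
        W (sb (Finset.univ.image φ)
          (((Finset.univ.image Sum.inr).image φ).image (rk (Finset.univ.image φ)))) m ↔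
        W (sb (Finset.univ.image φ')
          (((Finset.univ.image Sum.inl).image φ).image (rk (Finset.univ.image φ)))) l =
        W (sb (Finset.univ.image φ')
          (((Finset.univ.image Sum.inr).image φ).image (rk (Finset.univ.image φ)))) m := hF2
    rw [q1, q2, q1', q2', e1 t t', e2 t t', e1 s s', e2 s s'] at hF3
    exact hF3
  · intro t e ht he s hs i p
    have hsT : s = T t := by
      apply Finset.coe_injective
      rw [hs]
      show range (fun j => g (t j)) = ((Finset.univ.image (fun j => g (t j)) : Finset K) : Set K)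
      rw [Finset.coe_image, Finset.coe_univ, Set.image_univ]
    have heW : e = W (T t) := by
      apply DFunLike.ext
      intro l
      exact he l
    rw [hsT, heW, hW (T t) i p]
    exact hCs t ht i _

end Pool.Agent.H644.TP
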