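import Mathlib
import Pool.Agent.H644.TP.Spec

set_option autoImplicit false

/-!
# T8: the name of the set of the elements along the generic path (helper34)
-/

namespace Pool.Agent.H644.TP

open Set Cardinal Pool.Agent.TH766.KT Pool.Agent.Helper669.Forcing Pool.Agent.Helper980.G
  Pool.Agent.Helper669.K

theorem names : S_names := by
  intro P S K _ _ cond el s0 T hsig _ hel hT hinj hcomp hdense
  refine ⟨fun k => {p | ∃ ξ, ∃ s ∈ T ξ, p ≤ cond s ∧ el s ξ = some k}, ?_, ?_⟩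
  · refine mem_fex.2 fun q hq => ⟨q, le_rfl,
      fun ξ k => {p | ∃ s ∈ T ξ, p ≤ cond s ∧ el s ξ = some k}, ⟨?_, ?_⟩, ?_, ?_⟩
    · intro ξ
      refine mem_fex.2 fun r hr => ?_
      obtain ⟨r', hr', s, hs, hrs⟩ := hdense ξ r (hr.trans hq)
      obtain ⟨_, k, hk⟩ := hT ξ s hs
      exact ⟨r', hr', k, meets_of_mem ⟨s, hs, hrs, hk⟩⟩
    · intro ξ k k'
      refine mem_fimp.2 fun r _ hr => ?_
      obtain ⟨r1, hr1, p, ⟨s, hs, hps, hk⟩, hrp⟩ := hr.1 r le_rfl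
      obtain ⟨r2, hr2, p', ⟨s', hs', hps', hk'⟩, hrp'⟩ := hr.2 r1 hr1
      refine ⟨r2, hr2.trans hr1, ?_⟩
      have hle : s' ≤ s := hcomp ξ ξ le_rfl s hs s' hs'
        ⟨r2, (hr2.trans hrp).trans hps, hrp'.trans hps'⟩
      have h1 : el s' ξ = some k := hel s s' hle ξ k hk
      rw [hk'] at h1
      exact (Option.some.inj h1).symm
    · intro ξ ξ' k
      refine mem_fimp.2 fun r _ hr => ⟨r, le_rfl, ?_⟩
      obtain ⟨_, _, _, ⟨s, hs, _, hk⟩, _⟩ := hr.1 r le_rfl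
      obtain ⟨_, _, _, ⟨s', hs', _, hk'⟩, _⟩ := hr.2 r le_rfl
      exact hinj ξ ξ' s hs s' hs' k hk hk'
    · intro ξ k
      refine mem_fimp.2 fun r _ hr => ⟨r, le_rfl, ?_⟩
      intro r1 hr1
      obtain ⟨r2, hr2, p, ⟨s, hs, hps, hk⟩, hrp⟩ := hr r1 hr1
      exact ⟨r2, hr2, p, ⟨ξ, s, hs, hps, hk⟩, hrp⟩
  · intro q hq f hf
    refine hsig.meet (fun n => {r | ∃ ξ, ∃ s ∈ T ξ, r ≤ cond s ∧ el s ξ = some (f n)}) ?_ q ?_
    · rintro n a b hba ⟨ξ, s, hs, has, hk⟩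
      exact ⟨ξ, s, hs, hba.trans has, hk⟩
    · intro n c hc
      obtain ⟨r, hr, p, ⟨ξ, s, hs, hps, hk⟩, hrp⟩ := hf n c hc
      exact ⟨r, hr, ξ, s, hs, hrp.trans hps, hk⟩

end Pool.Agent.H644.TP
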