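import Pool.Agent.H644.TP.Spec

set_option autoImplicit false

/-!
# T7 (helper225): the generic path through a tree of states
-/

namespace Pool.Agent.H644.TP

open Set Cardinal Pool.Agent.TH766.KT

namespace PathAux

variable {P S : Type} [PartialOrder P] [PartialOrder S]

/-- good below `η` -/
def Good (Inv : W1 → S → Prop) (s0 : S) (η : W1) (s : W1 → S) : Prop :=
  (∀ ξ < η, Inv ξ (s ξ) ∧ s ξ ≤ s0) ∧ ∀ ξ ξ', ξ ≤ ξ' → ξ' < η → s ξ' ≤ s ξ

theorem Good.congr {Inv : W1 → S → Prop} {s0 : S} {η : W1} {s s' : W1 → S}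
    (h : Good Inv s0 η s) (hs : ∀ ξ < η, s ξ = s' ξ) : Good Inv s0 η s' := by
  refine ⟨fun ξ hξ => ?_, fun ξ ξ' h1 h2 => ?_⟩
  · rw [← hs ξ hξ]
    exact h.1 ξ hξ
  · rw [← hs ξ' h2, ← hs ξ (lt_of_le_of_lt h1 h2)]
    exact h.2 ξ ξ' h1 h2

theorem Good.mono {Inv : W1 → S → Prop} {s0 : S} {η ζ : W1} {s : W1 → S}
    (h : Good Inv s0 η s) (hζ : ζ ≤ η) : Good Inv s0 ζ s :=
  ⟨fun ξ hξ => h.1 ξ (lt_of_lt_of_le hξ hζ), fun ξ ξ' h1 h2 => h.2 ξ ξ' h1 (lt_of_lt_of_le h2 hζ)⟩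

/-- the property of the antichain at `η` after `s` -/
def Anti (cond : S → P) (Inv : W1 → S → Prop) (s0 : S) (η : W1) (s : W1 → S) (A : Set S) : Prop :=
  (∀ t ∈ A, Inv η t ∧ t ≤ s0 ∧ ∀ ξ < η, t ≤ s ξ) ∧
  (∀ t ∈ A, ∀ t' ∈ A, (∃ r, r ≤ cond t ∧ r ≤ cond t') → t = t') ∧
  ∀ q ≤ cond s0, (∀ ξ < η, q ≤ cond (s ξ)) → ∃ t ∈ A, ∃ q' ≤ q, q' ≤ cond t

theorem exists_anti (cond : S → P) (Inv : W1 → S → Prop) (s0 : S) (η : W1) (s : W1 → S)
    (H : ∃ t ≤ s0, (∀ ξ < η, t ≤ s ξ) ∧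
      (∀ r ≤ cond s0, (∀ ξ < η, r ≤ cond (s ξ)) → r ≤ cond t) ∧
      ∀ q ≤ cond t, ∃ t' ≤ t, Inv η t' ∧ cond t' ≤ q) :
    ∃ A : Set S, Anti cond Inv s0 η s A := by
  obtain ⟨t, ht0, hts, htr, htq⟩ := H
  obtain ⟨A, hA⟩ := zorn_subset {A : Set S | (∀ a ∈ A, a ≤ t ∧ Inv η a) ∧
      ∀ a ∈ A, ∀ b ∈ A, (∃ r, r ≤ cond a ∧ r ≤ cond b) → a = b} (by
    intro c hc hchain
    refine ⟨⋃₀ c, ⟨?_, ?_⟩, fun s hs => subset_sUnion_of_mem hs⟩
    · rintro a ⟨B, hB, ha⟩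
      exact (hc hB).1 a ha
    · rintro a ⟨B, hB, ha⟩ b ⟨B', hB', hb⟩ hab
      rcases hchain.total hB hB' with h | h
      · exact (hc hB').2 a (h ha) b hb hab
      · exact (hc hB).2 a ha b (h hb) hab)
  refine ⟨A, fun a ha => ?_, hA.prop.2, ?_⟩
  · have h := hA.prop.1 a ha
    exact ⟨h.2, h.1.trans ht0, fun ξ hξ => h.1.trans (hts ξ hξ)⟩
  · intro q hq hqs
    obtain ⟨t'', ht'', hinv, hcond⟩ := htq q (htr q hq hqs)
    by_cases hcomp : ∃ a ∈ A, ∃ r, r ≤ cond t'' ∧ r ≤ cond a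
    · obtain ⟨a, ha, r, hr1, hr2⟩ := hcomp
      exact ⟨a, ha, r, hr1.trans hcond, hr2⟩
    · have hins : insert t'' A ∈ {A : Set S | (∀ a ∈ A, a ≤ t ∧ Inv η a) ∧
          ∀ a ∈ A, ∀ b ∈ A, (∃ r, r ≤ cond a ∧ r ≤ cond b) → a = b} := by
        refine ⟨?_, ?_⟩
        · intro a ha
          rcases mem_insert_iff.1 ha with rfl | ha
          · exact ⟨ht'', hinv⟩
          · exact hA.prop.1 a ha
        · intro a ha0 b hb0 hab
          rcases mem_insert_iff.1 ha0 with ha | ha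
          · rcases mem_insert_iff.1 hb0 with hb | hb
            · rw [ha, hb]
            · obtain ⟨r, hr1, hr2⟩ := hab
              rw [ha] at hr1
              exact absurd ⟨b, hb, r, hr1, hr2⟩ hcomp
          · rcases mem_insert_iff.1 hb0 with hb | hb
            · obtain ⟨r, hr1, hr2⟩ := hab
              rw [hb] at hr2
              exact absurd ⟨a, ha, r, hr2, hr1⟩ hcomp
            · exact hA.prop.2 a ha b hb hab
      have hmem : t'' ∈ A := hA.le_of_ge hins (subset_insert _ _) (mem_insert _ _)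
      exact ⟨t'', hmem, cond t'', hcond, le_rfl⟩

/-- runs -/
def Run (Inv : W1 → S → Prop) (s0 : S) (Af : W1 → (W1 → S) → Set S) (η : W1) (r : W1 → S) : Prop :=
  ∀ ξ ≤ η, Good Inv s0 ξ r ∧ r ξ ∈ Af ξ r

end PathAux

open PathAux in
/-- **T7.** -/
theorem path : S_path := by
  classical
  intro P S _ _ cond Inv s0 hP hcond H
  -- the antichains
  obtain ⟨Af, hAf1, hAf2⟩ : ∃ Af : W1 → (W1 → S) → Set S,
      (∀ η s s', (∀ ξ < η, s ξ = s' ξ) → Af η s = Af η s') ∧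
      ∀ η s, Good Inv s0 η s → Anti cond Inv s0 η s (Af η s) := by
    have hex : ∀ (η : W1) (s : W1 → S), ∃ A : Set S, Good Inv s0 η s → Anti cond Inv s0 η s A := by
      intro η s
      by_cases h : Good Inv s0 η s
      · obtain ⟨A, hA⟩ := exists_anti cond Inv s0 η s (H η s h.1 h.2)
        exact ⟨A, fun _ => hA⟩
      · exact ⟨∅, fun h' => absurd h' h⟩
    choose A0 hA0 using hex
    refine ⟨fun η s => A0 η (fun ξ => if ξ < η then s ξ else s0), ?_, ?_⟩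
    · intro η s s' hss
      have h : (fun ξ => if ξ < η then s ξ else s0) = fun ξ => if ξ < η then s' ξ else s0 := by
        funext ξ
        by_cases hξ : ξ < η
        · rw [if_pos hξ, if_pos hξ, hss ξ hξ]
        · rw [if_neg hξ, if_neg hξ]
      show A0 η (fun ξ => if ξ < η then s ξ else s0) = A0 η (fun ξ => if ξ < η then s' ξ else s0)
      rw [h]
    · intro η s hs
      have hres : ∀ ξ < η, s ξ = (fun ξ => if ξ < η then s ξ else s0) ξ := by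
        intro ξ hξ
        show s ξ = if ξ < η then s ξ else s0
        rw [if_pos hξ]
      have h := hA0 η (fun ξ => if ξ < η then s ξ else s0) (hs.congr hres)
      refine ⟨fun t ht => ?_, h.2.1, fun q hq hqs => ?_⟩
      · obtain ⟨h1, h2, h3⟩ := h.1 t ht
        refine ⟨h1, h2, fun ξ hξ => ?_⟩
        rw [hres ξ hξ]
        exact h3 ξ hξ
      · exact h.2.2 q hq (fun ξ hξ => by rw [← hres ξ hξ]; exact hqs ξ hξ)
  have hrun_mono : ∀ {η ζ : W1} {r : W1 → S}, Run Inv s0 Af η r → ζ ≤ η → Run Inv s0 Af ζ r :=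
    fun h hζ ξ hξ => h ξ (hξ.trans hζ)
  have hrun_inv : ∀ {η : W1} {r : W1 → S}, Run Inv s0 Af η r → Inv η (r η) ∧ r η ≤ s0 := by
    intro η r h
    obtain ⟨h1, h2⟩ := h η le_rfl
    have h3 := (hAf2 η r h1).1 (r η) h2
    exact ⟨h3.1, h3.2.1⟩
  have hrun_dec : ∀ {η ζ : W1} {r : W1 → S}, Run Inv s0 Af η r → ζ ≤ η → r η ≤ r ζ := by
    intro η ζ r h hζ
    rcases hζ.lt_or_eq with hlt | rfl
    · obtain ⟨h1, h2⟩ := h η le_rfl
      exact ((hAf2 η r h1).1 (r η) h2).2.2 ζ hlt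
    · exact le_rfl
  have huniq : ∀ (η : W1) (r r' : W1 → S), Run Inv s0 Af η r → Run Inv s0 Af η r' →
      (∃ p, p ≤ cond (r η) ∧ p ≤ cond (r' η)) → ∀ ξ ≤ η, r ξ = r' ξ := by
    intro η r r' hr hr' ⟨p, hp, hp'⟩ ξ
    induction ξ using WellFoundedLT.induction with
    | ind ξ ih =>
      intro hξ
      have hagree : ∀ ζ < ξ, r ζ = r' ζ := fun ζ hζ => ih ζ hζ (hζ.le.trans hξ)
      have hA := hAf1 ξ r r' hagree
      obtain ⟨h1, h2⟩ := hr ξ hξ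
      obtain ⟨h1', h2'⟩ := hr' ξ hξ
      rw [← hA] at h2'
      refine (hAf2 ξ r h1).2.1 (r ξ) h2 (r' ξ) h2' ⟨p, ?_, ?_⟩
      · exact hp.trans (hcond (hrun_dec hr hξ))
      · exact hp'.trans (hcond (hrun_dec hr' hξ))
  have hdense : ∀ (η : W1), ∀ p ≤ cond s0, ∃ q ≤ p, ∃ r, Run Inv s0 Af η r ∧ q ≤ cond (r η) := by
    intro η
    induction η using WellFoundedLT.induction with
    | ind η ih =>
      intro p hp
      have hcount : Countable (Iio η) := (countable_Iio η).to_subtype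
      obtain ⟨q, hqp, hq⟩ := SigmaClosed.meet hP (Z := Iio η)
        (fun z => {q | ∃ r, Run Inv s0 Af z.1 r ∧ q ≤ cond (r z.1)})
        (fun z q q' hqq ⟨r, hr, hqr⟩ => ⟨r, hr, hqq.trans hqr⟩) p (by
          intro z c hc
          obtain ⟨c', hc', r, hr, hcr⟩ := ih z.1 z.2 c (hc.trans hp)
          exact ⟨c', hc', r, hr, hcr⟩)
      have hq' : ∀ z : Iio η, ∃ r, Run Inv s0 Af z.1 r ∧ q ≤ cond (r z.1) := hq
      choose R hR hqR using hq'
      -- coherence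
      have hcoh : ∀ (z z' : Iio η), z.1 ≤ z'.1 → ∀ ξ ≤ z.1, R z ξ = R z' ξ := by
        intro z z' hzz ξ hξ
        exact huniq z.1 (R z) (R z') (hR z) (hrun_mono (hR z') hzz)
          ⟨q, hqR z, (hqR z').trans (hcond (hrun_dec (hR z') hzz))⟩ ξ hξ
      obtain ⟨s, hs⟩ : ∃ s : W1 → S, ∀ z : Iio η, s z.1 = R z z.1 := by
        refine ⟨fun ζ => if h : ζ < η then R ⟨ζ, h⟩ ζ else s0, ?_⟩
        intro z
        exact dif_pos z.2
      have hsR : ∀ (z : Iio η), ∀ ξ ≤ z.1, s ξ = R z ξ := by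
        intro z ξ hξ
        have h1 := hs ⟨ξ, lt_of_le_of_lt hξ z.2⟩
        rw [h1]
        exact hcoh ⟨ξ, lt_of_le_of_lt hξ z.2⟩ z hξ ξ le_rfl
      have hgood : Good Inv s0 η s := by
        refine ⟨fun ξ hξ => ?_, fun ξ ξ' h1 h2 => ?_⟩
        · rw [hs ⟨ξ, hξ⟩]
          exact hrun_inv (hR ⟨ξ, hξ⟩)
        · rw [hsR ⟨ξ', h2⟩ ξ' le_rfl, hsR ⟨ξ', h2⟩ ξ h1]
          exact hrun_dec (hR ⟨ξ', h2⟩) h1
      obtain ⟨t, ht, q', hq'q, hq't⟩ := (hAf2 η s hgood).2.2 q (hqp.trans hp) (fun ξ hξ => by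
        rw [hs ⟨ξ, hξ⟩]
        exact hqR ⟨ξ, hξ⟩)
      refine ⟨q', hq'q.trans hqp, fun ζ => if ζ < η then s ζ else t, ?_, ?_⟩
      · intro ξ hξ
        have hagree : ∀ ζ < ξ, s ζ = (fun ζ => if ζ < η then s ζ else t) ζ := by
          intro ζ hζ
          show s ζ = if ζ < η then s ζ else t
          rw [if_pos (lt_of_lt_of_le hζ hξ)]
        refine ⟨(hgood.mono hξ).congr hagree, ?_⟩
        rw [← hAf1 ξ s _ hagree]
        show (if ξ < η then s ξ else t) ∈ Af ξ s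
        rcases hξ.lt_or_eq with hlt | rfl
        · rw [if_pos hlt, hs ⟨ξ, hlt⟩]
          have h1 := (hR ⟨ξ, hlt⟩ ξ le_rfl).2
          rw [hAf1 ξ s (R ⟨ξ, hlt⟩) (fun ζ hζ => hsR ⟨ξ, hlt⟩ ζ hζ.le)]
          exact h1
        · rw [if_neg (lt_irrefl _)]
          exact ht
      · show q' ≤ cond (if η < η then s η else t)
        rw [if_neg (lt_irrefl _)]
        exact hq't
  refine ⟨fun η => {a | ∃ r, Run Inv s0 Af η r ∧ r η = a}, ?_, ?_, ?_⟩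
  · rintro ξ s ⟨r, hr, rfl⟩
    exact hrun_inv hr
  · rintro ξ η hξη s ⟨r, hr, rfl⟩ s' ⟨r', hr', rfl⟩ ⟨p, hp, hp'⟩
    have h1 := huniq ξ r r' hr (hrun_mono hr' hξη)
      ⟨p, hp, hp'.trans (hcond (hrun_dec hr' hξη))⟩ ξ le_rfl
    rw [h1]
    exact hrun_dec hr' hξη
  · intro ξ p hp
    obtain ⟨q, hq, r, hr, hqr⟩ := hdense ξ p hp
    exact ⟨q, hq, r ξ, ⟨r, hr, rfl⟩, hqr⟩

end Pool.Agent.H644.TP
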