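import Pool.Agent.H644.TP.Spec

set_option autoImplicit false

/-!
# Supports of size continuum
-/

namespace Pool.Agent.H644.TP

open Set Cardinal

namespace Sup

/-- A maximal antichain inside a set of conditions. -/
theorem exists_max {P : Type} [Preorder P] (U : Set P) :
    ∃ Z : Set P, Z ⊆ U ∧ (∀ p ∈ Z, ∀ q ∈ Z, p ≠ q → ¬ ∃ r, r ≤ p ∧ r ≤ q) ∧
      ∀ p ∈ U, ∃ z ∈ Z, ∃ r, r ≤ p ∧ r ≤ z := by
  let S : Set (Set P) := {Z | Z ⊆ U ∧ ∀ p ∈ Z, ∀ q ∈ Z, p ≠ q → ¬ ∃ r, r ≤ p ∧ r ≤ q}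
  obtain ⟨Z, hZ⟩ := zorn_subset S (by
    intro c hc hch
    refine ⟨⋃₀ c, ⟨?_, ?_⟩, fun s hs => subset_sUnion_of_mem hs⟩
    · exact sUnion_subset fun s hs => (hc hs).1
    · rintro p ⟨s, hs, hps⟩ q ⟨t, ht, hqt⟩ hpq
      rcases hch.total hs ht with h | h
      · exact (hc ht).2 p (h hps) q hqt hpq
      · exact (hc hs).2 p hps q (h hqt) hpq)
  refine ⟨Z, hZ.prop.1, hZ.prop.2, ?_⟩
  intro p hp
  by_contra hcon
  push Not at hcon
  have hmem : insert p Z ∈ S := by
    refine ⟨insert_subset hp hZ.prop.1, ?_⟩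
    rintro a (rfl | ha) b (rfl | hb) hab
    · exact absurd rfl hab
    · rintro ⟨r, h1, h2⟩
      exact hcon b hb r h1 h2
    · rintro ⟨r, h1, h2⟩
      exact hcon a ha r h2 h1
    · exact hZ.prop.2 a ha b hb hab
  have hpZ : p ∈ Z := hZ.le_of_ge hmem (subset_insert p Z) (mem_insert p Z)
  exact hcon p hpZ p le_rfl le_rfl

theorem mk_cantor : #(ℕ → Bool) = (𝔠 : Cardinal.{0}) := by
  rw [← Cardinal.power_def, Cardinal.mk_bool, Cardinal.mk_nat, Cardinal.two_power_aleph0]

/-- An injection of the Cantor set covering a given set of size at most continuum. -/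
theorem exists_emb {I : Type} (hI : (𝔠 : Cardinal.{0}) ≤ #I) (W0 : Set I) (h0 : #W0 ≤ 𝔠) :
    ∃ w : (ℕ → Bool) ↪ I, W0 ⊆ range w := by
  obtain ⟨T, hT⟩ := Cardinal.le_mk_iff_exists_set.1 hI
  have h1 : #(W0 ∪ T : Set I) = 𝔠 := by
    apply le_antisymm
    · refine (Cardinal.mk_union_le W0 T).trans ?_
      rw [hT]
      exact (add_le_add_left h0 𝔠).trans
        (Cardinal.add_eq_self Cardinal.aleph0_le_continuum).le
    · rw [← hT]
      exact Cardinal.mk_le_mk_of_subset subset_union_right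
  rw [← mk_cantor] at h1
  obtain ⟨e⟩ := Cardinal.eq.1 h1
  refine ⟨e.symm.toEmbedding.trans (Function.Embedding.subtype _), ?_⟩
  intro i hi
  exact ⟨e ⟨i, Or.inl hi⟩, by simp⟩

theorem le_restr {I V : Type} {J : Type} (w : J ↪ I) (p : PF I V) :
    p ≤ PF.push w (PF.pull w p) := by
  intro i b hb
  by_cases hi : ∃ j, w j = i
  · obtain ⟨j, rfl⟩ := hi
    rw [PF.push_f, PF.pull_f] at hb
    exact hb
  · rw [PF.push_none w _ i (fun j hj => hi ⟨j, hj⟩)] at hb
    exact absurd hb (by simp)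

theorem restr_f {I V : Type} {J : Type} (w : J ↪ I) (p : PF I V) (i : I) (hi : i ∈ range w) :
    (PF.push w (PF.pull w p)).f i = p.f i := by
  obtain ⟨j, rfl⟩ := hi
  rw [PF.push_f, PF.pull_f]

/-- A common extension of two conditions which agree on the common domain. -/
theorem exists_join {I V : Type} (p z : PF I V)
    (h : ∀ i b c, p.f i = some b → z.f i = some c → b = c) : ∃ s, s ≤ p ∧ s ≤ z := by
  classical
  refine ⟨⟨fun i => if z.f i = none then p.f i else z.f i, ?_⟩, ?_, ?_⟩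
  · refine (p.ctb.union z.ctb).mono ?_
    intro i hi
    have hi' : (if z.f i = none then p.f i else z.f i) ≠ none := hi
    by_cases hz : z.f i = none
    · rw [if_pos hz] at hi'
      exact Or.inl hi'
    · exact Or.inr hz
  · intro i b hb
    show (if z.f i = none then p.f i else z.f i) = some b
    by_cases hz : z.f i = none
    · rw [if_pos hz, hb]
    · rw [if_neg hz]
      obtain ⟨c, hc⟩ := Option.ne_none_iff_exists'.1 hz
      rw [hc, h i b c hb hc]
  · intro i b hb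
    show (if z.f i = none then p.f i else z.f i) = some b
    rw [if_neg (by rw [hb]; simp), hb]

end Sup

open Sup in
theorem support (hcc : S_cc) : S_support := by
  intro I hI D hD
  have huniq : ∀ p j k, p ∈ D j → p ∈ D k → j = k := by
    intro p j k hj hk
    cases j <;> cases k
    · rfl
    · exact absurd hk (hD.disj p hj)
    · exact absurd hj (hD.disj p hk)
    · rfl
  obtain ⟨Z, hZU, hZa, hZm⟩ := exists_max {p : Cd I | ∃ i, p ∈ D i}
  have hZc : #Z ≤ 𝔠 := hcc I Z hZa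
  have hW : #(⋃ z : Z, {i | z.1.f i ≠ none} : Set I) ≤ 𝔠 := by
    refine Cardinal.mk_iUnion_le_sum_mk.trans ?_
    refine (Cardinal.sum_le_sum _ (fun _ => ℵ₀) fun z => ?_).trans ?_
    · exact Cardinal.le_aleph0_iff_set_countable.2 z.1.ctb
    · rw [Cardinal.sum_const']
      refine (mul_le_mul' hZc Cardinal.aleph0_le_continuum).trans ?_
      exact (Cardinal.mul_eq_self Cardinal.aleph0_le_continuum).le
  obtain ⟨w, hw⟩ := exists_emb hI _ hW
  refine ⟨w, fun i p => ⟨fun hp => ?_, fun hp => hD.lower i (le_restr w p) hp⟩⟩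
  refine hD.reg i _ fun q hq => ?_
  obtain ⟨q1, hq1, j, hj⟩ := hD.dense q
  obtain ⟨z, hz, q2, hq2, hq2z⟩ := hZm q1 ⟨j, hj⟩
  obtain ⟨k, hk⟩ := hZU hz
  have hjk : j = k := huniq q2 j k (hD.lower j hq2 hj) (hD.lower k hq2z hk)
  obtain ⟨s, hsp, hsz⟩ := exists_join p z (by
    intro l b c hb hc
    have hl : l ∈ range w := by
      apply hw
      refine mem_iUnion.2 ⟨⟨z, hz⟩, ?_⟩
      show z.f l ≠ none
      rw [hc]
      simp
    have h1 : (PF.push w (PF.pull w p)).f l = some b := by rw [restr_f w p l hl, hb]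
    have h2 := hq2 l b (hq1 l b (hq l b h1))
    have h3 := hq2z l c hc
    rw [h2] at h3
    exact Option.some.inj h3)
  have hki : k = i := huniq s k i (hD.lower k hsz hk) (hD.lower i hsp hp)
  refine ⟨q2, hq2.trans hq1, ?_⟩
  rw [← hki, ← hjk]
  exact hD.lower j hq2 hj

end Pool.Agent.H644.TP
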