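import Mathlib
import Pool.Graph.R_seed8.TH766.KT.Forced
import Pool.Agent.H644.TP.Fail
import Pool.Agent.H644.TP.Cc
import Pool.Agent.H644.TP.Support
import Pool.Agent.H644.TP.Names
import Pool.Agent.H644.TP.AlphaStep
import Pool.Agent.H644.TP.Comb
import Pool.Agent.H644.TP.Path
import Pool.Agent.H644.TP.Forcing
import Pool.Agent.H644.TP.Er
import Pool.Agent.H644.TP.Homog
import Pool.Agent.H644.TP.BetaTree
import Pool.Agent.H644.TP.Canon
import Pool.Agent.H644.TP.FrameEx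
import Pool.Agent.H644.TP.AlphaFinal
import Pool.Agent.H644.TP.BetaFinal

set_option autoImplicit false

/-!
# The two models
-/

namespace Pool.Agent.H644.TP

open Set Cardinal Pool.Agent.TH766.KT Pool.Agent.Helper669.Forcing Pool.Agent.Helper980.G
  Pool.Agent.Helper669.K

theorem tow_six : tow 6 (2 ^ (𝔠 : Cardinal.{0})) = ℶ_ 8 := by
  have h1 : ∀ n : ℕ, ℶ_ ((n + 1 : ℕ) : Ordinal.{0}) = 2 ^ ℶ_ ((n : ℕ) : Ordinal.{0}) := by
    intro n
    rw [Nat.cast_succ, Ordinal.add_one_eq_succ, beth_succ]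
  have h2 : ℶ_ ((2 : ℕ) : Ordinal.{0}) = 2 ^ (𝔠 : Cardinal.{0}) := by
    rw [h1 1, h1 0, Nat.cast_zero, beth_zero, two_power_aleph0]
  have h3 : ∀ n : ℕ, tow n (2 ^ (𝔠 : Cardinal.{0})) = ℶ_ ((n + 2 : ℕ) : Ordinal.{0}) := by
    intro n
    induction n with
    | zero => exact h2.symm
    | succ n ih =>
      show 2 ^ tow n (2 ^ (𝔠 : Cardinal.{0})) = _
      rw [ih, ← h1 (n + 2)]
  exact h3 6

theorem sfail : S_fail := fail
  (frameEx (homog er (support cc)) canon)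
  (alphaFinal path names alphaStep) betaTree (betaFinal path names comb)

theorem final (K : Type) (hK : #K ^ (𝔠 : Cardinal.{0}) = #K) (hK8 : ℶ_ 8 < #K) :
    (∃ (P : Type) (_ : Preorder P), Nonempty P ∧ ∀ p : P,
      p ∈ OmegaOnePreserved P ∧ p ∈ PowerEq P ℕ W1 ∧ p ∈ PowerEq P W1 K ∧
      ((𝔠 : Cardinal.{0}) = ℵ_ 1 → p ∈ CardinalsPreserved.{0, 0} P) ∧
      p ∈ StrongPartition P K) ∧
    (∃ (P : Type) (_ : Preorder P), Nonempty P ∧ ∀ p : P,
      p ∈ OmegaOnePreserved P ∧ p ∈ PowerEq P ℕ W1 ∧ p ∈ PowerEq P W1 K ∧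
      ((𝔠 : Cardinal.{0}) = ℵ_ 1 → p ∈ CardinalsPreserved.{0, 0} P) ∧
      p ∈ fnot (StrongPartition P K)) := by
  have h0 : ℵ₀ ≤ #K := (aleph0_le_beth 8).trans hK8.le
  have h2 : 2 ≤ #K := (natCast_le_aleph0 (n := 2)).trans h0
  constructor
  · obtain ⟨hne, h⟩ := forced h2 hK
    exact ⟨Cond K, inferInstance, hne, fun p => ⟨(h p).1, (h p).2.1, (h p).2.2.1, (h p).2.2.2.2,
      (h p).2.2.2.1⟩⟩
  · have hc : 𝔠 < #(K × W1) := by
      have h3 : 𝔠 < #K := by
        rw [← tow_six] at hK8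
        refine (cantor 𝔠).trans (lt_of_le_of_lt ?_ hK8)
        have h4 : ∀ (n : ℕ) (κ : Cardinal.{0}), κ ≤ tow n κ := by
          intro n κ
          induction n with
          | zero => exact le_rfl
          | succ n ih => exact ih.trans (cantor _).le
        exact h4 6 _
      refine h3.trans_le ?_
      rw [← Cardinal.mul_def]
      refine Cardinal.le_mul_right ?_
      rw [mk_W1]
      exact (aleph_pos 1).ne'
    refine ⟨Cd (K × W1), inferInstance, ⟨⊤⟩, fun p => ?_⟩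
    obtain ⟨a1, a2, a3, a4⟩ := forcing cc K h2 hK p
    exact ⟨a1, a2, a3, a4, sfail (K × W1) K hc (tow_six ▸ hK8) p⟩

end Pool.Agent.H644.TP
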