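import Mathlib
import Pool.Agent.H644.TP.Spec
import Pool.Agent.H644.TP.Amal

set_option autoImplicit false

/-!
# Existence of frames
-/

namespace Pool.Agent.H644.TP

open Set Cardinal Pool.Agent.TH766.KT

namespace FrameEx

/-- the set of coordinates of the pieces -/
abbrev L : Type := ℕ → Bool

theorem cases3 : ∀ D : Finset (Fin 3), D = ∅ ∨ D = {0} ∨ D = {1} ∨ D = {2} ∨ D = {0, 1} ∨
    D = {0, 2} ∨ D = {1, 2} ∨ D = {0, 1, 2} := by decide

/-- the entry belonging to a subset of `Fin 3` -/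
def piece {E : Type} (D : Finset (Fin 3)) (q : T8 E) : E :=
  if D = ∅ then q.1.1 else if D = {0} then q.1.2.1 else if D = {1} then q.1.2.2.1 else
  if D = {2} then q.1.2.2.2.1 else if D = {0, 1} then q.1.2.2.2.2.1 else
  if D = {0, 2} then q.1.2.2.2.2.2.1 else if D = {1, 2} then q.1.2.2.2.2.2.2 else q.2

theorem piece_mono {E : Type} [Preorder E] (D : Finset (Fin 3)) {q q' : T8 E} (h : q' ≤ q) :
    piece D q' ≤ piece D q := by
  obtain ⟨⟨h1, h2, h3, h4, h5, h6, h7⟩, h8⟩ := h
  unfold piece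
  split_ifs <;> assumption

theorem piece_pcs {X I : Type} [LinearOrder X] (Θ : Finset X × L ↪ I) (x y z : X) (p : Cd I)
    (D : Finset (Fin 3)) : piece D (pcs Θ x y z p) = pc Θ (D.image ![x, y, z]) p := by
  rcases cases3 D with rfl | rfl | rfl | rfl | rfl | rfl | rfl | rfl <;>
    simp [piece, pcs, Finset.image_insert, Finset.image_singleton]
  · rw [if_neg (by decide), if_neg (by decide)]
  · rw [if_neg (by decide), if_neg (by decide), if_neg (by decide)]
  · rw [if_neg (by decide), if_neg (by decide), if_neg (by decide), if_neg (by decide)]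
  · rw [if_neg (by decide), if_neg (by decide), if_neg (by decide), if_neg (by decide),
      if_neg (by decide)]

open Classical in
/-- Every tuple of pieces is realized. -/
theorem exists_pcs {X I : Type} [LinearOrder X] (Θ : Finset X × L ↪ I) {x y z : X} (hxy : x < y)
    (hyz : y < z) (q : T8 (Cd L)) : ∃ p : Cd I, pcs Θ x y z p = q := by
  have hinj : Function.Injective (fun D : Finset (Fin 3) => D.image ![x, y, z]) := by
    apply Finset.image_injective
    have hxz := hxy.trans hyz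
    intro i j h
    fin_cases i <;> fin_cases j <;> simp_all [hxy.ne, hyz.ne, hxz.ne, hxy.ne', hyz.ne', hxz.ne']
  obtain ⟨p, -, h1, -⟩ := amal Θ ⊤ (fun D : Finset (Fin 3) => D.image ![x, y, z])
    (fun D => piece D q) hinj (fun D => by
      intro l b hb
      exact absurd hb (by simp [pc]))
  refine ⟨p, ?_⟩
  have e0 := h1 ∅
  have e1 := h1 {0}
  have e2 := h1 {1}
  have e3 := h1 {2}
  have e4 := h1 {0, 1}
  have e5 := h1 {0, 2}
  have e6 := h1 {1, 2}
  have e7 := h1 {0, 1, 2}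
  simp only [← piece_pcs] at e0 e1 e2 e3 e4 e5 e6 e7
  obtain ⟨⟨q1, q2, q3, q4, q5, q6, q7⟩, q8⟩ := q
  have f0 : pc Θ ∅ p = q1 := e0
  have f1 : pc Θ {x} p = q2 := e1
  have f2 : pc Θ {y} p = q3 := e2
  have f3 : pc Θ {z} p = q4 := e3
  have f4 : pc Θ {x, y} p = q5 := e4
  have f5 : pc Θ {x, z} p = q6 := e5
  have f6 : pc Θ {y, z} p = q7 := e6
  have f7 : pc Θ {x, y, z} p = q8 := e7
  unfold pcs
  rw [f0, f1, f2, f3, f4, f5, f6, f7]

theorem pcs_mono {X I : Type} [LinearOrder X] (Θ : Finset X × L ↪ I) (x y z : X) {p q : Cd I}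
    (h : p ≤ q) : pcs Θ x y z p ≤ pcs Θ x y z q :=
  ⟨⟨pc_mono Θ _ h, pc_mono Θ _ h, pc_mono Θ _ h, pc_mono Θ _ h, pc_mono Θ _ h, pc_mono Θ _ h,
    pc_mono Θ _ h⟩, pc_mono Θ _ h⟩

/-- The condition assembled from its pieces. -/
def asm (Dep : L → Finset (Fin 3)) (rep : L → L)
    (hinj : ∀ l m, Dep l = Dep m → rep l = rep m → l = m) (q : T8 (Cd L)) : Cd L :=
  ⟨fun l => (piece (Dep l) q).f (rep l), by
    have h1 : {l | (piece (Dep l) q).f (rep l) ≠ none} ⊆
        ⋃ D : Finset (Fin 3), {l | Dep l = D} ∩ rep ⁻¹' {m | (piece D q).f m ≠ none} := by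
      intro l hl
      exact mem_iUnion.2 ⟨Dep l, rfl, hl⟩
    refine (countable_iUnion fun D => ?_).mono h1
    have h2 : InjOn rep ({l | Dep l = D} ∩ rep ⁻¹' {m | (piece D q).f m ≠ none}) := by
      intro l hl m hm h
      exact hinj l m (hl.1.trans hm.1.symm) h
    refine MapsTo.countable_of_injOn ?_ h2 (piece D q).ctb
    intro l hl
    exact hl.2⟩

theorem asm_mono (Dep : L → Finset (Fin 3)) (rep : L → L)
    (hinj : ∀ l m, Dep l = Dep m → rep l = rep m → l = m) {q q' : T8 (Cd L)} (h : q' ≤ q) :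
    asm Dep rep hinj q' ≤ asm Dep rep hinj q := by
  intro l b hb
  exact piece_mono (Dep l) h (rep l) b hb

theorem card_X : #(W1 ×ₗ W1) = ℵ_ 1 := by
  have h1 : #W1 = ℵ_ 1 := by simp [W1]
  have h2 : #(W1 ×ₗ W1) = #(W1 × W1) := Cardinal.mk_congr ofLex
  rw [h2, Cardinal.mk_prod, h1, Cardinal.lift_id]
  exact Cardinal.mul_eq_self (Cardinal.aleph0_le_aleph 1)

instance : Infinite (W1 ×ₗ W1) := by
  rw [Cardinal.infinite_iff, card_X]
  exact Cardinal.aleph0_le_aleph 1

theorem card_Y : #((W1 ×ₗ W1) ×ₗ ℕ) ≤ ℵ_ 1 := by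
  have h2 : #((W1 ×ₗ W1) ×ₗ ℕ) = #((W1 ×ₗ W1) × ℕ) := Cardinal.mk_congr ofLex
  rw [h2, Cardinal.mk_prod, card_X, Cardinal.lift_id, Cardinal.lift_id]
  simp

theorem card_index : #(Finset (W1 ×ₗ W1) × L) = 𝔠 := by
  rw [Cardinal.mk_prod, Cardinal.lift_id, Cardinal.lift_id, Cardinal.mk_finset_of_infinite, card_X]
  have h1 : #L = 𝔠 := by simp [L]
  rw [h1]
  exact Cardinal.mul_eq_right Cardinal.aleph0_le_continuum Cardinal.aleph_one_le_continuum
    (Cardinal.aleph_pos 1).ne'

end FrameEx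

open FrameEx in
theorem frameEx (hhom : S_hom) (hcanon : S_canon) : S_frame := by
  classical
  intro I K hI hK D hD
  letI : LinearOrder K := linearOrderOfSTO WellOrderingRel
  haveI : WellFoundedLT K := ⟨WellOrderingRel.isWellOrder.wf⟩
  obtain ⟨g, w, C, hg, hw, hH, hspec⟩ := hhom I K hI.le hK D hD ((W1 ×ₗ W1) ×ₗ ℕ) card_Y
  obtain ⟨Dep, rep, J, c1, c2, c3, c4, c5⟩ := hcanon (W1 ×ₗ W1) L I w (fun t _ => hw t) hH
  have hIinf : Infinite I := by
    rw [Cardinal.infinite_iff]
    exact Cardinal.aleph0_le_continuum.trans hI.le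
  let rel : Finset (W1 ×ₗ W1) → L → Prop := fun F l => F.card = (Dep l).card ∧ rep l = l
  let R : Set I := range fun q : Finset (W1 ×ₗ W1) × L => J q.1 q.2
  have hR : #R < #I := (Cardinal.mk_range_le.trans card_index.le).trans_lt hI
  have hRc : #(Finset (W1 ×ₗ W1) × L) ≤ #(Rᶜ : Set I) := by
    rw [Cardinal.mk_compl_of_infinite R hR, card_index]
    exact hI.le
  obtain ⟨dummy⟩ := hRc
  let θ : Finset (W1 ×ₗ W1) × L → I := fun q => if rel q.1 q.2 then J q.1 q.2 else (dummy q : I)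
  have hθ : Function.Injective θ := by
    rintro ⟨F, l⟩ ⟨F', m⟩ h
    simp only [θ] at h
    split_ifs at h with h1 h2 h2
    · obtain ⟨h3, h4⟩ := c5 F F' l m h1.1 h2.1 h1.2 h2.2 h
      rw [h3, h4]
    · exact absurd ⟨(F, l), h⟩ (dummy (F', m)).2
    · exact absurd ⟨(F', m), h.symm⟩ (dummy (F, l)).2
    · exact dummy.injective (Subtype.ext h)
  let Θ : Finset (W1 ×ₗ W1) × L ↪ I := ⟨θ, hθ⟩
  let h : (W1 ×ₗ W1) ↪ K := ⟨fun x => g (toLex (x, 2)), by
    intro x y hxy
    have h1 := hg.injective hxy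
    have h2 := congrArg (fun q => (ofLex q).1) h1
    exact h2⟩
  let col : Bool → Set (T8 (Cd L)) := fun i => {q | asm Dep rep c3 q ∈ C i}
  -- the two triples
  have hmono : ∀ x y z : W1 ×ₗ W1, x < y → y < z → StrictMono ![x, y, z] := by
    intro x y z hxy hyz i j hij
    have hxz := hxy.trans hyz
    fin_cases i <;> fin_cases j <;> simp_all
  have hmono2 : ∀ t : Fin 3 → W1 ×ₗ W1, StrictMono t →
      StrictMono (fun j => (toLex (t j, 2) : (W1 ×ₗ W1) ×ₗ ℕ)) := by
    intro t ht i j hij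
    exact Prod.Lex.toLex_lt_toLex.2 (Or.inl (ht hij))
  -- specification
  have spec : ∀ x y z : W1 ×ₗ W1, x < y → y < z → ∀ s : Finset K, (s : Set K) = {h x, h y, h z} →
      ∀ (i : Bool) (p : Cd I), p ∈ D i s ↔ pcs Θ x y z p ∈ col i := by
    intro x y z hxy hyz s hs i p
    let tt : Fin 3 → W1 ×ₗ W1 := ![x, y, z]
    have htt : StrictMono tt := hmono x y z hxy hyz
    let t' : Fin 3 → (W1 ×ₗ W1) ×ₗ ℕ := fun j => toLex (tt j, 2)
    have ht' : StrictMono t' := hmono2 tt htt
    let e : L ↪ I := ⟨w t', hw t'⟩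
    have hs' : (s : Set K) = range (fun j => g (t' j)) := by
      rw [hs]
      ext k
      simp only [mem_insert_iff, mem_singleton_iff, mem_range]
      constructor
      · rintro (rfl | rfl | rfl)
        · exact ⟨0, rfl⟩
        · exact ⟨1, rfl⟩
        · exact ⟨2, rfl⟩
      · rintro ⟨j, rfl⟩
        fin_cases j
        · exact Or.inl rfl
        · exact Or.inr (Or.inl rfl)
        · exact Or.inr (Or.inr rfl)
    rw [hspec t' e ht' (fun l => rfl) s hs' i p]
    have hpe : PF.pull e p = asm Dep rep c3 (pcs Θ x y z p) := by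
      apply PF.ext'
      intro l
      have h1 : (asm Dep rep c3 (pcs Θ x y z p)).f l =
          (piece (Dep l) (pcs Θ x y z p)).f (rep l) := rfl
      rw [h1, piece_pcs]
      have h2 : (PF.pull e p).f l = p.f (w t' l) := rfl
      have h3 : (pc Θ ((Dep l).image ![x, y, z]) p).f (rep l) =
          p.f (θ ((Dep l).image tt, rep l)) := rfl
      have h4 : rel ((Dep l).image tt) (rep l) := by
        refine ⟨?_, c1 l⟩
        rw [Finset.card_image_of_injective _ htt.injective, c2]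
      have h5 : θ ((Dep l).image tt, rep l) = J ((Dep l).image tt) (rep l) := if_pos h4
      rw [h2, h3, h5, c4 tt htt l]
    rw [hpe]
    rfl
  -- a fixed triple
  obtain ⟨x, y, z, hxy, hyz⟩ : ∃ x y z : W1 ×ₗ W1, x < y ∧ y < z := by
    obtain ⟨f⟩ : Nonempty (ℕ ↪ W1 ×ₗ W1) := ⟨Infinite.natEmbedding _⟩
    let S : Finset (W1 ×ₗ W1) := (Finset.range 3).map f
    have hS : S.card = 3 := by simp [S]
    let o := S.orderEmbOfFin hS
    exact ⟨o 0, o 1, o 2, by simp, by simp⟩
  let s : Finset K := {h x, h y, h z}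
  have hs : (s : Set K) = {h x, h y, h z} := by simp [s]
  have spec0 := spec x y z hxy hyz s hs
  refine ⟨⟨L, h, Θ, col, ?_, ?_, spec⟩⟩
  · intro i q q' hq' hq
    obtain ⟨p, rfl⟩ := exists_pcs Θ hxy hyz q
    -- the lower condition
    have hle : asm Dep rep c3 q' ≤ asm Dep rep c3 (pcs Θ x y z p) := asm_mono Dep rep c3 hq'
    have hlow : IsLowerSet (C i) := by
      intro f f' hf' hf
      let t' : Fin 3 → (W1 ×ₗ W1) ×ₗ ℕ := fun j => toLex (![x, y, z] j, 2)
      have ht' : StrictMono t' := hmono2 _ (hmono x y z hxy hyz)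
      let e : L ↪ I := ⟨w t', hw t'⟩
      let s' : Finset K := Finset.univ.image (fun j => g (t' j))
      have hs' : (s' : Set K) = range (fun j => g (t' j)) := by simp [s']
      have h1 := hspec t' e ht' (fun l => rfl) s' hs' i
      have h2 : PF.push e f ∈ D i s' := by
        rw [h1, PF.pull_push]
        exact hf
      have h3 : PF.push e f' ∈ D i s' := (hD s').lower i (PF.push_mono e hf') h2
      rw [h1, PF.pull_push] at h3
      exact h3
    exact hlow hle hq
  · intro t ht e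
    obtain ⟨p, hp⟩ := exists_pcs Θ hxy hyz (t, e)
    rw [← hp, ← spec0]
    apply (hD s).reg false
    intro q hq
    obtain ⟨r, hr, j, hj⟩ := (hD s).dense q
    refine ⟨r, hr, ?_⟩
    cases j with
    | false => exact hj
    | true =>
      exfalso
      have h1 : pcs Θ x y z r ∈ col true := (spec0 true r).1 hj
      have h2 : pcs Θ x y z r ≤ (t, e) := by
        rw [← hp]
        exact pcs_mono Θ x y z (hr.trans hq)
      exact ht (pcs Θ x y z r).1 h2.1 (pcs Θ x y z r).2 h1

end Pool.Agent.H644.TP
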